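import Pool.Agent.H31EP.Fld

/-!
# The comparison with constant curvature
-/

set_option autoImplicit false
set_option linter.unusedSectionVars false

namespace Pool.Agent.H31EP

open Finset Pool.Agent.TH594.HP Pool.Agent.TH594.HE
open Pool.Agent.W666.GB (AlgCurv gbc scal roundGB unitCurv CurvField)
open Pool.Agent.W669.HD (T4 gm cp negT addT unitT OpNonneg BiForm gbc_eq cp_unit unit_bi unit_curv
  add_curv)

variable {m : ℕ} {V : Type} [NormedAddCommGroup V] [InnerProductSpace ℝ V]

/-- spectral decomposition of a nonnegative curvature operator -/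
theorem spec (e : OrthonormalBasis (Fin m × Bool) ℝ V) {E : V → V → V → V → ℝ}
    (hE : AlgCurv E) (h : OpNonneg E) :
    ∃ (g : Pr (Fin m × Bool) → Matrix (Fin m × Bool) (Fin m × Bool) ℝ)
      (lam : Pr (Fin m × Bool) → ℝ), (∀ p, Sk (g p)) ∧ (∀ p, 0 ≤ lam p) ∧
      (∀ p q, sp (g p) (g q) = if p = q then 1 else 0) ∧
      (∀ i j k l, ∑ p, g p i j * g p k l =
        (if i = k then 1 else 0) * (if j = l then 1 else 0) -
          (if i = l then 1 else 0) * (if j = k then 1 else 0)) ∧
      (∀ i j k l, E (e i) (e j) (e k) (e l) = ∑ p, lam p * (g p i j * g p k l)) := by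
  have hB : BiForm E := ⟨hE.add, hE.smul, hE.anti, hE.pair⟩
  obtain ⟨n, ν, hν, hEν⟩ := hB.squares (fun i => e i) h
  obtain ⟨g, lam, h1, h2, h3, h4, h5⟩ := decomp ν hν
  exact ⟨g, lam, h1, h2, h3, h4, fun i j k l => by rw [hEν i j k l]; exact h5 i j k l⟩

/-- **two-sided pinching, negative case** -/
theorem two_neg (e : OrthonormalBasis (Fin m × Bool) ℝ V) {R : V → V → V → V → ℝ}
    (hR : AlgCurv R) {κ δ : ℝ} (hκ : 0 < κ) (hδκ : δ ≤ κ / 64) (hm : 2 ≤ m)
    (hE : Einstein e R (-κ)) (h : CurvOpIn R (-κ - δ) (-κ + δ)) :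
    |(-1) ^ m * gbc e R - roundGB m κ * (1 + wterm e R (-κ))| ≤
      128 / 3 * (δ / κ) * (roundGB m κ * wterm e R (-κ)) := by
  have hC : AlgCurv (addT R fun x y z w => -(-κ - δ) * unitT x y z w) :=
    add_curv hR (unit_curv _)
  have hC' : AlgCurv (addT (negT R) fun x y z w => (-κ + δ) * unitT x y z w) :=
    add_curv (neg_curv hR) (unit_curv _)
  obtain ⟨g, lam, hsk, hpos, ho, hc, hdec⟩ := spec e hC h.1
  have hB : BiForm (addT (negT R) fun x y z w => (-κ + δ) * unitT x y z w) :=
    ⟨hC'.add, hC'.smul, hC'.anti, hC'.pair⟩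
  obtain ⟨n, τ, hτs, hτ⟩ := hB.squares (fun i => e i) h.2
  have h1 : ∀ i j k l, ∑ p, lam p * (g p i j * g p k l) =
      R (e i) (e j) (e k) (e l) + (κ + δ) * unitCurv i j k l := by
    intro i j k l
    rw [← hdec, addT, cp_unit]; ring
  have h2 : ∀ q, lam q ≤ 2 * δ := by
    refine eig_le τ ho (fun i j k l => unitCurv i j k l) (fun p => unit_sum (hsk p)
      (by rw [ho, if_pos rfl])) ?_
    intro i j k l
    rw [← hτ i j k l, h1, addT, negT, cp_unit]
    ring
  have hPr : Nonempty (Pr (Fin m × Bool)) := by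
    have h3 : pos ((⟨0, by omega⟩, false) : Fin m × Bool) ≠
        pos ((⟨0, by omega⟩, true) : Fin m × Bool) := by
      intro h4
      have := pos_inj h4
      simp at this
    rcases lt_or_gt_of_ne h3 with h4 | h4
    · exact ⟨⟨(_, _), h4⟩⟩
    · exact ⟨⟨(_, _), h4⟩⟩
  have hδ : 0 ≤ δ := by
    obtain ⟨p⟩ := hPr
    have := hpos p
    have := h2 p
    linarith
  refine est_core e hκ hδ hδκ hm hE (h := g) (μ := fun p => δ - lam p) hsk ho hc ?_ ?_
  · intro p
    rw [abs_le]
    constructor
    · linarith [h2 p]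
    · linarith [hpos p]
  · intro i j k l
    simp only [sub_mul, Finset.sum_sub_distrib]
    rw [h1, ← Finset.mul_sum, hc]
    unfold unitCurv
    ring

/-- the eigenfamily of a nonnegative Einstein operator, with completeness -/
theorem exists_fam' {J : Type*} [Fintype J] [DecidableEq J] {K : Type*} [Fintype K]
    (μ : K → J → J → ℝ) (hB : BiN μ) {ρ : ℝ}
    (hr : ∀ i j, rc μ i j = if i = j then ρ else 0) :
    ∃ (h : Pr J → Matrix J J ℝ) (lam : Pr J → ℝ), TH594.HE.Fam h lam ρ ∧
      (∀ i j k l, EE (nu fun p => Real.sqrt (lam p) • h p) i j k l = EE μ i j k l) ∧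
      (∀ i j k l, ∑ p, h p i j * h p k l =
        (if i = k then 1 else 0) * (if j = l then 1 else 0) -
          (if i = l then 1 else 0) * (if j = k then 1 else 0)) := by
  obtain ⟨h, lam, hsk, hpos, horth, hcomp, hEE⟩ := decomp μ hB.anti
  have e1 : ∀ i j k l, EE (nu h) i j k l =
        (if i = k then 1 else 0) * (if j = l then 1 else 0) -
          (if i = l then 1 else 0) * (if j = k then 1 else 0) := hcomp
  have e2 : ∀ i j k l, EE (nu fun p => Real.sqrt (lam p) • h p) i j k l = EE μ i j k l := by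
    intro i j k l
    rw [hEE]
    unfold EE nu
    refine Finset.sum_congr rfl fun p _ => ?_
    simp only [Matrix.smul_apply, smul_eq_mul]
    have := Real.mul_self_sqrt (hpos p)
    linear_combination (h p i j * h p k l) * this
  refine ⟨h, lam, ⟨⟨⟨fun a i j => hsk a i j, ?_⟩, ?_⟩, ⟨fun a => ?_, fun a b hab => ?_⟩, hpos,
    ⟨⟨?_, ?_⟩, ?_⟩, ⟨fun a => ?_, fun a b hab => ?_⟩⟩, e2, hcomp⟩
  · intro i j k l
    rw [e1, e1, e1]
    simp only [eq_comm (a := k) (b := j), eq_comm (a := k) (b := i), eq_comm (a := j) (b := i)]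
    ring
  · intro j l
    unfold rc
    simp only [e1]
    simp only [if_true, one_mul, Finset.sum_sub_distrib, Finset.sum_const, Finset.card_univ,
      nsmul_eq_mul]
    have : ∑ i, (if i = l then (1 : ℝ) else 0) * (if j = i then 1 else 0) =
        if j = l then 1 else 0 := by
      rw [Finset.sum_eq_single l]
      · simp
      · intro i _ hi
        rw [if_neg hi, zero_mul]
      · simp
    rw [this]
    split_ifs <;> ring
  · rw [horth, if_pos rfl]
  · rw [horth, if_neg hab]
  · intro a i j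
    unfold nu
    simp only [Matrix.smul_apply, smul_eq_mul]
    rw [hsk a i j]; ring
  · intro i j k l
    rw [e2, e2, e2]
    exact hB.bia i j k l
  · intro i j
    rw [← hr]
    unfold rc
    exact Finset.sum_congr rfl fun k _ => e2 _ _ _ _
  · rw [sp_smul, sp_smul', horth, if_pos rfl, mul_one]
    exact Real.mul_self_sqrt (hpos a)
  · rw [sp_smul, sp_smul', horth, if_neg hab, mul_zero, mul_zero]

/-- **one-sided pinching, negative case** -/
theorem one_neg (e : OrthonormalBasis (Fin m × Bool) ℝ V) {R : V → V → V → V → ℝ}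
    (hR : AlgCurv R) {κ c : ℝ} (hκ : 0 < κ) (hc : (2 * m - 2) * (c - κ) ≤ κ / 64) (hm : 2 ≤ m)
    (hE : Einstein e R (-κ)) (h : OpNonneg (addT R fun x y z w => c * unitT x y z w)) :
    κ ≤ c ∧ |(-1) ^ m * gbc e R - roundGB m κ * (1 + wterm e R (-κ))| ≤
      128 / 3 * ((2 * m - 2) * (c - κ) / κ) * (roundGB m κ * wterm e R (-κ)) := by
  have hmR : (2 : ℝ) ≤ m := by exact_mod_cast hm
  set E : V → V → V → V → ℝ := addT R fun x y z w => c * unitT x y z w with hEdef
  have hC : AlgCurv E := add_curv hR (unit_curv c)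
  have hB : BiForm E := ⟨hC.add, hC.smul, hC.anti, hC.pair⟩
  obtain ⟨n, ν, hν, hEν⟩ := hB.squares (fun i => e i) h
  have hEE : ∀ i j k l, EE ν i j k l = E (e i) (e j) (e k) (e l) := fun i j k l =>
    (hEν i j k l).symm
  have hBN : BiN ν := by
    refine ⟨hν, fun i j k l => ?_⟩
    rw [hEE, hEE, hEE]
    exact hC.bianchi _ _ _ _
  have hrc : ∀ j l, rc ν j l = if j = l then (2 * m - 1) * (c - κ) else 0 := by
    intro j l
    unfold rc
    simp only [hEE, hEdef, addT, cp_unit, Finset.sum_add_distrib]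
    rw [hE (e j) (e l), inner_basis]
    have h1 : ∑ i : Fin m × Bool, c * unitCurv i j i l =
        c * ((2 * m - 1) * if j = l then 1 else 0) := by
      rw [← Finset.mul_sum]
      congr 1
      unfold unitCurv
      simp only [if_true, one_mul, Finset.sum_sub_distrib, Finset.sum_const, Finset.card_univ,
        nsmul_eq_mul]
      have : ∑ i : Fin m × Bool, (if i = l then (1 : ℝ) else 0) * (if j = i then 1 else 0) =
          if j = l then 1 else 0 := by
        rw [Finset.sum_eq_single l]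
        · simp
        · intro i _ hi
          rw [if_neg hi, zero_mul]
        · simp
      rw [this, card_J]; ring
    rw [h1]
    split_ifs <;> ring
  obtain ⟨g, lam, hF, hg, hcomp⟩ := exists_fam' ν hBN hrc
  have hne : Nonempty (Fin m × Bool) := ⟨(⟨0, by omega⟩, false)⟩
  have hρ := hF.rho
  have hcκ : 0 ≤ c - κ := by
    have h1 : (0 : ℝ) < 2 * m - 1 := by linarith
    nlinarith
  have h1 : ∀ i j k l, ∑ p, lam p * (g p i j * g p k l) =
      R (e i) (e j) (e k) (e l) + c * unitCurv i j k l := by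
    intro i j k l
    have h2 : EE (nu fun p => Real.sqrt (lam p) • g p) i j k l =
        ∑ p, lam p * (g p i j * g p k l) := by
      unfold EE nu
      refine Finset.sum_congr rfl fun p _ => ?_
      simp only [Matrix.smul_apply, smul_eq_mul]
      have := Real.mul_self_sqrt (hF.pos p)
      linear_combination (g p i j * g p k l) * this
    rw [← h2, hg, hEE, hEdef, addT, cp_unit]
  have ho : ∀ p q, sp (g p) (g q) = if p = q then 1 else 0 := by
    intro p q
    split_ifs with hpq
    · rw [hpq]; exact hF.oh.1 q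
    · exact hF.oh.2 p q hpq
  obtain ⟨t, ht⟩ : ∃ t, t = c - κ := ⟨_, rfl⟩
  have hct : c = κ + t := by linarith
  refine ⟨by linarith, est_core e hκ (by nlinarith) hc hm hE (h := g) (μ := fun p => t - lam p)
    (fun p => hF.eh.sk p) ho hcomp ?_ ?_⟩
  · intro p
    have h2 := hF.le p
    have h3 := hF.pos p
    rw [abs_le, ← ht]
    rw [← ht] at h2 hcκ
    constructor
    · linarith
    · nlinarith
  · intro i j k l
    simp only [sub_mul, Finset.sum_sub_distrib]
    rw [h1, ← Finset.mul_sum, hcomp, hct]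
    unfold unitCurv
    ring

/-! ### the two signs together -/

theorem weylSq_nonneg (e : OrthonormalBasis (Fin m × Bool) ℝ V) (R : V → V → V → V → ℝ) (κ : ℝ) :
    0 ≤ weylSq e R κ := by
  unfold weylSq
  positivity

theorem weylSq_negT (e : OrthonormalBasis (Fin m × Bool) ℝ V) (R : V → V → V → V → ℝ) (κ : ℝ) :
    weylSq e (negT R) (-κ) = weylSq e R κ := by
  unfold weylSq negT
  refine Finset.sum_congr rfl fun i _ => Finset.sum_congr rfl fun j _ =>
    Finset.sum_congr rfl fun k _ => Finset.sum_congr rfl fun l _ => ?_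
  ring

theorem wterm_negT (e : OrthonormalBasis (Fin m × Bool) ℝ V) (R : V → V → V → V → ℝ) (κ : ℝ) :
    wterm e (negT R) (-κ) = wterm e R κ := by
  unfold wterm
  rw [weylSq_negT, neg_sq]

theorem wterm_nonneg (e : OrthonormalBasis (Fin m × Bool) ℝ V) (R : V → V → V → V → ℝ) (κ : ℝ)
    (hm : 2 ≤ m) : 0 ≤ wterm e R κ := by
  have hmR : (2 : ℝ) ≤ m := by exact_mod_cast hm
  have d1 : (0 : ℝ) ≤ 2 * m - 1 := by linarith
  have d3 : (0 : ℝ) ≤ 2 * m - 3 := by linarith
  unfold wterm
  have := weylSq_nonneg e R κ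
  positivity

/-- a tensor with the components of constant curvature has constant curvature -/
theorem weylSq_zero (e : OrthonormalBasis (Fin m × Bool) ℝ V) {R : V → V → V → V → ℝ}
    (hR : AlgCurv R) {κ : ℝ} (h : weylSq e R κ = 0) (x y z w : V) :
    R x y z w = κ * unitT x y z w := by
  have h0 : ∀ i j k l, R (e i) (e j) (e k) (e l) - κ * unitT (e i) (e j) (e k) (e l) = 0 := by
    intro i j k l
    unfold weylSq at h
    have h1 := (Finset.sum_eq_zero_iff_of_nonneg (fun a _ => by positivity)).1 h i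
      (Finset.mem_univ _)
    have h2 := (Finset.sum_eq_zero_iff_of_nonneg (fun a _ => by positivity)).1 h1 j
      (Finset.mem_univ _)
    have h3 := (Finset.sum_eq_zero_iff_of_nonneg (fun a _ => by positivity)).1 h2 k
      (Finset.mem_univ _)
    have h4 := (Finset.sum_eq_zero_iff_of_nonneg (fun a _ => by positivity)).1 h3 l
      (Finset.mem_univ _)
    exact pow_eq_zero_iff (two_ne_zero) |>.1 h4
  have hS : AlgCurv (addT R fun x y z w => -κ * unitT x y z w) := add_curv hR (unit_curv _)
  set S : V → V → V → V → ℝ := addT R fun x y z w => -κ * unitT x y z w with hSd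
  have h1 : ∀ i j k l, S (e i) (e j) (e k) (e l) = 0 := by
    intro i j k l
    have := h0 i j k l
    rw [hSd, addT]
    linarith
  have hx : ∀ v : V, v = ∑ i, inner ℝ (e i) v • e i := fun v => (e.sum_repr' v).symm
  have lin : ∀ (y z w : V), (∀ i, S (e i) y z w = 0) → ∀ x, S x y z w = 0 := by
    intro y z w hz x
    have e1 : ∀ (s : Finset (Fin m × Bool)) (f : Fin m × Bool → ℝ),
        S (∑ i ∈ s, f i • e i) y z w = ∑ i ∈ s, f i * S (e i) y z w := by
      classical
      intro s f
      induction s using Finset.induction_on with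
      | empty =>
        rw [Finset.sum_empty, Finset.sum_empty]
        have := hS.smul 0 0 y z w
        rwa [zero_smul, zero_mul] at this
      | insert a s ha ih =>
        rw [Finset.sum_insert ha, Finset.sum_insert ha, hS.add, hS.smul, ih]
    rw [hx x, e1]
    exact Finset.sum_eq_zero fun i _ => by rw [hz, mul_zero]
  have s1 : ∀ j k l, ∀ x, S x (e j) (e k) (e l) = 0 := fun j k l =>
    lin _ _ _ fun i => h1 i j k l
  have s2 : ∀ k l, ∀ x y, S x y (e k) (e l) = 0 := by
    intro k l x y
    rw [hS.anti y x, lin x (e k) (e l) (fun j => by rw [hS.anti x (e j), s1, neg_zero]) y, neg_zero]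
  have s3 : ∀ l, ∀ x y z, S x y z (e l) = 0 := by
    intro l x y z
    rw [← hS.pair]
    refine lin _ _ _ (fun k => ?_) z
    rw [hS.pair, s2]
  have s4 : S x y z w = 0 := by
    rw [← hS.pair, hS.anti w z]
    have : S w z x y = 0 := by
      refine lin _ _ _ (fun l => ?_) w
      rw [hS.anti z (e l), hS.pair, s3, neg_zero]
    rw [this, neg_zero]
  rw [hSd, addT] at s4
  linarith

/-- The pinching condition: all eigenvalues of the curvature operator are in
`[κ - δ, κ + δ]`, or only a one-sided bound, closer to `κ` by the factor `2 m - 2`: they are at most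
`κ + δ / (2 m - 2)` (for `κ > 0`) or at least `κ - δ / (2 m - 2)` (for `κ < 0`). -/
def Pinched (m : ℕ) (R : V → V → V → V → ℝ) (κ δ : ℝ) : Prop :=
  CurvOpIn R (κ - δ) (κ + δ) ∨
    (0 < κ ∧ OpNonneg (addT (negT R) fun x y z w => (κ + δ / (2 * m - 2)) * unitT x y z w)) ∨
    (κ < 0 ∧ OpNonneg (addT R fun x y z w => -(κ - δ / (2 * m - 2)) * unitT x y z w))

/-- negative case -/
theorem main_neg (e : OrthonormalBasis (Fin m × Bool) ℝ V) {R : V → V → V → V → ℝ}
    (hR : AlgCurv R) {κ δ : ℝ} (hκ : 0 < κ) (hδκ : δ ≤ κ / 64) (hm : 2 ≤ m)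
    (hE : Einstein e R (-κ)) (h : Pinched m R (-κ) δ) :
    |(-1) ^ m * gbc e R - roundGB m κ * (1 + wterm e R (-κ))| ≤
      128 / 3 * (δ / κ) * (roundGB m κ * wterm e R (-κ)) := by
  have hmR : (2 : ℝ) ≤ m := by exact_mod_cast hm
  rcases h with h | h | h
  · exact two_neg e hR hκ hδκ hm hE h
  · exact absurd h.1 (by linarith)
  · have hd : (0 : ℝ) < 2 * m - 2 := by linarith
    have e1 : (2 * (m : ℝ) - 2) * (-(-κ - δ / (2 * m - 2)) - κ) = δ := by
      have e2 : -(-κ - δ / (2 * (m : ℝ) - 2)) - κ = δ / (2 * m - 2) := by ring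
      rw [e2]
      exact mul_div_cancel₀ δ hd.ne'
    have h1 := one_neg e hR (c := -(-κ - δ / (2 * m - 2))) hκ (by rw [e1]; exact hδκ) hm hE h.2
    rw [e1] at h1
    exact h1.2

theorem roundGB_neg (κ : ℝ) : roundGB m (-κ) = (-1) ^ m * roundGB m κ := by
  unfold roundGB
  rw [neg_pow κ m]
  ring

theorem sgn_m : ((-1 : ℝ) ^ m) * (-1) ^ m = 1 := by
  rw [← mul_pow]; norm_num

/-- **the pointwise theorem** -/
theorem main (e : OrthonormalBasis (Fin m × Bool) ℝ V) {R : V → V → V → V → ℝ}
    (hR : AlgCurv R) {κ δ : ℝ} (hκ : κ ≠ 0) (hδκ : δ ≤ |κ| / 64) (hm : 2 ≤ m)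
    (hE : Einstein e R κ) (h : Pinched m R κ δ) :
    |gbc e R / roundGB m κ - (1 + wterm e R κ)| ≤ 128 / 3 * (δ / |κ|) * wterm e R κ := by
  have key : ∀ (g G w t : ℝ), 0 < G → |g - G * (1 + w)| ≤ t * (G * w) →
      |g / G - (1 + w)| ≤ t * w := by
    intro g G w t hG h1
    have e1 : g / G - (1 + w) = (g - G * (1 + w)) / G := by field_simp
    rw [e1, abs_div, abs_of_pos hG, div_le_iff₀ hG]
    linarith
  rcases lt_or_gt_of_ne hκ with h0 | h0
  · obtain ⟨k, hk⟩ : ∃ k, k = -κ := ⟨_, rfl⟩
    have hκk : κ = -k := by rw [hk, neg_neg]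
    subst hκk
    have hk0 : 0 < k := by linarith
    rw [abs_neg, abs_of_pos hk0] at hδκ ⊢
    have hG := Pool.Agent.W666.GB.roundGB_pos (m := m) hk0
    have h1 := key _ _ _ _ hG (main_neg e hR hk0 hδκ hm hE h)
    have e1 : gbc e R / roundGB m (-k) = (-1) ^ m * gbc e R / roundGB m k := by
      rw [roundGB_neg]
      have h2 : ((-1 : ℝ) ^ m) ≠ 0 := pow_ne_zero _ (by norm_num)
      have h3 := sgn_m (m := m)
      rw [div_eq_div_iff (mul_ne_zero h2 hG.ne') hG.ne']
      linear_combination (-(gbc e R * roundGB m k)) * h3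
    rw [e1]
    exact h1
  · rw [abs_of_pos h0] at hδκ ⊢
    have hG := Pool.Agent.W666.GB.roundGB_pos (m := m) h0
    have hP : Pinched m (negT R) (-κ) δ := by
      rcases h with h | h | h
      · left
        refine ⟨?_, ?_⟩
        · have e1 : -(-κ - δ) = κ + δ := by ring
          rw [e1]
          exact h.2
        · rw [negneg]
          have e1 : -κ + δ = -(κ - δ) := by ring
          rw [e1]
          exact h.1
      · right; right
        refine ⟨by linarith, ?_⟩
        have e1 : -(-κ - δ / (2 * (m : ℝ) - 2)) = κ + δ / (2 * m - 2) := by ring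
        rw [e1]
        exact h.2
      · exact absurd h.1 (by linarith)
    have h1 := main_neg e (neg_curv hR) h0 hδκ hm hE.neg hP
    rw [gbc_neg, wterm_negT] at h1
    exact key _ _ _ _ hG h1

end Pool.Agent.H31EP
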