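import Pool.Agent.H31EP.Stp
import Pool.Agent.H31EP.Thm
import Pool.Agent.TH594.HE.Ex

/-!
# Asymmetric and one-sided bounds of the curvature operator
-/

set_option autoImplicit false
set_option linter.unusedSectionVars false

namespace Pool.Agent.H31EP

open Finset Pool.Agent.TH594.HP Pool.Agent.TH594.HE
open Pool.Agent.W666.GB (AlgCurv gbc scal roundGB unitCurv CurvField)
open Pool.Agent.W669.HD (T4 gm cp negT addT unitT OpNonneg BiForm gbc_eq cp_unit unit_bi unit_curv
  add_curv)

section matrices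

variable {J : Type*} [Fintype J] [DecidableEq J] {K : Type*} [Fintype K]

theorem EE_sqrt {g : K → Matrix J J ℝ} {c : K → ℝ} (hc : ∀ p, 0 ≤ c p) (i j k l : J) :
    EE (nu fun p => Real.sqrt (c p) • g p) i j k l = ∑ p, c p * (g p i j * g p k l) := by
  unfold EE nu
  refine Finset.sum_congr rfl fun p _ => ?_
  simp only [Matrix.smul_apply, smul_eq_mul]
  have := Real.mul_self_sqrt (hc p)
  linear_combination (g p i j * g p k l) * this

/-- linear combinations of the identity and the operator -/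
theorem comb {g : K → Matrix J J ℝ} {lam : K → ℝ} {r1 r2 t y : ℝ} (h1 : Eis g r1)
    (h2 : Eis (fun p => Real.sqrt (lam p) • g p) r2) (hpos : ∀ p, 0 ≤ lam p) (ht : 0 ≤ t)
    (hy : 0 ≤ y) : Eis (fun p => Real.sqrt (t + y * lam p) • g p) (t * r1 + y * r2) := by
  have e1 : ∀ i j k l, EE (nu fun p => Real.sqrt (t + y * lam p) • g p) i j k l =
      t * EE (nu g) i j k l + y * EE (nu fun p => Real.sqrt (lam p) • g p) i j k l := by
    intro i j k l
    rw [EE_sqrt (fun p => add_nonneg ht (mul_nonneg hy (hpos p))), EE_sqrt hpos]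
    unfold EE nu
    rw [Finset.mul_sum, Finset.mul_sum, ← Finset.sum_add_distrib]
    exact Finset.sum_congr rfl fun p _ => by ring
  refine ⟨⟨?_, ?_⟩, ?_⟩
  · intro a i j
    have := h1.sk a i j
    unfold nu
    simp only [Matrix.smul_apply, smul_eq_mul]
    rw [this]; ring
  · intro i j k l
    rw [e1, e1, e1]
    have b1 := h1.bi.bia i j k l
    have b2 := h2.bi.bia i j k l
    linear_combination t * b1 + y * b2
  · intro j l
    have c1 := h1.ric j l
    have c2 := h2.ric j l
    unfold rc at c1 c2 ⊢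
    simp only [e1, Finset.sum_add_distrib]
    rw [← Finset.mul_sum, ← Finset.mul_sum, c1, c2]
    split_ifs <;> ring

/-- the weights -/
theorem exists_Wt {g : Pr J → Matrix J J ℝ} {lam : Pr J → ℝ} {t s : ℝ} [Nonempty J]
    (hJ : 1 ≤ dm J)
    (hF : TH594.HE.Fam g lam ((dm J - 1) * t))
    (hcomp : ∀ i j k l, ∑ p, g p i j * g p k l =
        (if i = k then 1 else 0) * (if j = l then 1 else 0) -
          (if i = l then 1 else 0) * (if j = k then 1 else 0))
    (ht : 0 ≤ t) (hts : t ≤ s) (hle : ∀ p, lam p ≤ t + s) {ε : ℝ} (hε : |ε| = 1) :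
    Fam g (fun p => ε * (t - lam p)) s ∧
      Step g (fun p => ε * (t - lam p)) (9 / 4 * t + 9 / 32 * Real.sqrt (t * s)) := by
  have hs : 0 ≤ s := ht.trans hts
  obtain ⟨y, hy0, hy1, hy⟩ : ∃ y : ℝ, 0 ≤ y ∧ y ≤ 1 ∧ y * (t + s) = s - t := by
    rcases eq_or_lt_of_le (add_nonneg ht hs) with h0 | h0
    · refine ⟨0, le_rfl, zero_le_one, ?_⟩
      rw [zero_mul]
      linarith
    · refine ⟨(s - t) / (t + s), div_nonneg (by linarith) h0.le, ?_, ?_⟩
      · rw [div_le_one h0]; linarith
      · exact div_mul_cancel₀ _ h0.ne'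
  have habs : ∀ p, |ε * (t - lam p)| ≤ t + y * lam p := by
    intro p
    rw [abs_mul, hε, one_mul, abs_le]
    have h1 := hF.pos p
    have h2 := hle p
    constructor
    · nlinarith
    · nlinarith
  have hM : ∀ p, t + y * lam p ≤ s := by
    intro p
    have := mul_le_mul_of_nonneg_left (hle p) hy0
    linarith
  have hric : ∀ j l, ∑ p, (ε * (t - lam p)) * ∑ i, g p i j * g p i l = 0 := by
    intro j l
    have c1 := hF.eh.ric j l
    have c2 := hF.ev.ric j l
    have e1 : rc (nu g) j l = ∑ p, ∑ i, g p i j * g p i l := by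
      unfold rc EE nu
      exact Finset.sum_comm
    have e2 : rc (nu fun p => Real.sqrt (lam p) • g p) j l =
        ∑ p, lam p * ∑ i, g p i j * g p i l := by
      unfold rc
      simp only [EE_sqrt hF.pos]
      rw [Finset.sum_comm]
      exact Finset.sum_congr rfl fun p _ => by rw [Finset.mul_sum]
    rw [e1] at c1
    rw [e2] at c2
    have e3 : ∑ p, (ε * (t - lam p)) * ∑ i, g p i j * g p i l =
        ε * (t * ∑ p, ∑ i, g p i j * g p i l - ∑ p, lam p * ∑ i, g p i j * g p i l) := by
      rw [Finset.mul_sum, ← Finset.sum_sub_distrib, Finset.mul_sum]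
      exact Finset.sum_congr rfl fun p _ => by ring
    rw [e3, c1, c2]
    split_ifs
    · ring
    · ring
  have hf : Fam g (fun p => ε * (t - lam p)) s :=
    ⟨fun p i j => hF.eh.sk p i j, hcomp, fun p => (habs p).trans (hM p), hric⟩
  have hr : 0 ≤ t * ((Fintype.card J : ℝ) - 1) + y * ((dm J - 1) * t) := by
    have : 0 ≤ dm J - 1 := by linarith
    have h2 : (Fintype.card J : ℝ) - 1 = dm J - 1 := rfl
    rw [h2]
    positivity
  have W : Wt g (fun p => ε * (t - lam p)) (fun p => t + y * lam p) s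
      (t * ((Fintype.card J : ℝ) - 1) + y * ((dm J - 1) * t)) s :=
    ⟨hf, habs, hM, comb hF.eh hF.ev hF.pos ht hy0, hr, hs⟩
  refine ⟨hf, W.step (G := Real.sqrt (2 * (t * s))) (H := 2 * t) (Real.sqrt_nonneg _) ?_ ?_ ?_⟩
  · rw [Real.sq_sqrt (by positivity)]
    show (t * (dm J - 1) + y * ((dm J - 1) * t)) * s ≤ dm J * (2 * (t * s))
    have h1 : (dm J - 1) * (1 + y) ≤ dm J * 2 := by nlinarith
    have h2 := mul_le_mul_of_nonneg_right h1 (mul_nonneg ht hs)
    linarith
  · show t * (dm J - 1) + y * ((dm J - 1) * t) ≤ dm J * (2 * t)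
    have h1 : (dm J - 1) * (1 + y) ≤ dm J * 2 := by nlinarith
    have h2 := mul_le_mul_of_nonneg_right h1 ht
    linarith
  · have h1 : Real.sqrt (2 * (t * s)) = Real.sqrt 2 * Real.sqrt (t * s) :=
      Real.sqrt_mul (by norm_num) _
    have h2 : Real.sqrt 2 ≤ 1.43 := by
      rw [Real.sqrt_le_left (by norm_num)]
      norm_num
    have h4 := Real.sqrt_nonneg (t * s)
    have h3 := mul_le_mul_of_nonneg_right h2 h4
    rw [h1]
    norm_num at h3 ⊢
    linarith

end matrices

variable {m : ℕ} {V : Type} [NormedAddCommGroup V] [InnerProductSpace ℝ V]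

/-- the eigenfamily of a nonnegative curvature operator with the Ricci tensor `(2 m - 1) t` -/
theorem fam_of (e : OrthonormalBasis (Fin m × Bool) ℝ V) {S : V → V → V → V → ℝ}
    (hC : AlgCurv S) (h : OpNonneg S) {t : ℝ} (hS : Einstein e S t) :
    ∃ (g : Pr (Fin m × Bool) → Matrix (Fin m × Bool) (Fin m × Bool) ℝ)
      (lam : Pr (Fin m × Bool) → ℝ), TH594.HE.Fam g lam ((2 * m - 1) * t) ∧
      (∀ i j k l, ∑ p, g p i j * g p k l =
        (if i = k then 1 else 0) * (if j = l then 1 else 0) -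
          (if i = l then 1 else 0) * (if j = k then 1 else 0)) ∧
      (∀ i j k l, ∑ p, lam p * (g p i j * g p k l) = S (e i) (e j) (e k) (e l)) := by
  have hB : BiForm S := ⟨hC.add, hC.smul, hC.anti, hC.pair⟩
  obtain ⟨n, ν, hν, hEν⟩ := hB.squares (fun i => e i) h
  have hEE : ∀ i j k l, EE ν i j k l = S (e i) (e j) (e k) (e l) := fun i j k l =>
    (hEν i j k l).symm
  have hBN : BiN ν := by
    refine ⟨hν, fun i j k l => ?_⟩
    rw [hEE, hEE, hEE]
    exact hC.bianchi _ _ _ _
  have hrc : ∀ j l, rc ν j l = if j = l then (2 * m - 1) * t else 0 := by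
    intro j l
    unfold rc
    simp only [hEE]
    rw [hS (e j) (e l), inner_basis]
    split_ifs <;> ring
  obtain ⟨g, lam, hF, hg, hcomp⟩ := exists_fam' ν hBN hrc
  refine ⟨g, lam, hF, hcomp, fun i j k l => ?_⟩
  rw [← EE_sqrt hF.pos, hg, hEE]

theorem card_dm : dm (Fin m × Bool) = 2 * m := card_J

theorem add_Einstein (e : OrthonormalBasis (Fin m × Bool) ℝ V) {R : V → V → V → V → ℝ}
    {κ : ℝ} (hE : Einstein e R κ) (c : ℝ) :
    Einstein e (addT R fun x y z w => c * unitT x y z w) (κ + c) := by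
  have hU : Einstein e (fun x y z w => c * unitT x y z w) c := by
    intro y w
    have h1 := sum_unit e y w
    rw [← Finset.mul_sum, h1]
    ring
  intro y w
  have h1 := hE y w
  have h2 := hU y w
  unfold addT
  rw [Finset.sum_add_distrib, h1, h2]
  ring

/-- the estimate for an operator close to a multiple of the identity from one side -/
theorem asym (e : OrthonormalBasis (Fin m × Bool) ℝ V) {R : V → V → V → V → ℝ}
    {κ t s θ ε : ℝ} (hκ : 0 < κ) (hm : 2 ≤ m) (hts : t ≤ s)
    (hθ : 144 * t + 18 * Real.sqrt (t * s) ≤ θ * κ) (hθ1 : θ ≤ 1)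
    {g : Pr (Fin m × Bool) → Matrix (Fin m × Bool) (Fin m × Bool) ℝ}
    {lam : Pr (Fin m × Bool) → ℝ} (hF : TH594.HE.Fam g lam ((2 * m - 1) * t))
    (hcomp : ∀ i j k l, ∑ p, g p i j * g p k l =
        (if i = k then 1 else 0) * (if j = l then 1 else 0) -
          (if i = l then 1 else 0) * (if j = k then 1 else 0))
    (hle : ∀ p, lam p ≤ t + s) (hε : |ε| = 1)
    (hR : ∀ i j k l, -R (e i) (e j) (e k) (e l) = κ * unitCurv i j k l +
      ∑ p, (ε * (t - lam p)) * (g p i j * g p k l)) :
    |(-1) ^ m * gbc e R - roundGB m κ * (1 + wterm e R (-κ))| ≤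
      2 / 3 * θ * (roundGB m κ * wterm e R (-κ)) := by
  have hmR : (2 : ℝ) ≤ m := by exact_mod_cast hm
  have hne : Nonempty (Fin m × Bool) := ⟨(⟨0, by omega⟩, false)⟩
  have hρ := hF.rho
  have ht : 0 ≤ t := by
    have h1 : (0 : ℝ) < 2 * m - 1 := by linarith
    by_contra hc
    push Not at hc
    nlinarith [mul_neg_of_pos_of_neg h1 hc]
  have hs : 0 ≤ s := ht.trans hts
  have hF' : TH594.HE.Fam g lam ((dm (Fin m × Bool) - 1) * t) := by
    rw [card_dm]
    exact hF
  obtain ⟨hf, hst⟩ := exists_Wt (by rw [card_dm]; linarith) hF' hcomp ht hts hle hε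
  have ho : ∀ p q, sp (g p) (g q) = if p = q then 1 else 0 := by
    intro p q
    split_ifs with hpq
    · rw [hpq]; exact hF.oh.1 q
    · exact hF.oh.2 p q hpq
  have hsq := Real.sqrt_nonneg (t * s)
  have hd : 0 ≤ 9 / 4 * t + 9 / 32 * Real.sqrt (t * s) := by positivity
  have hθκ : θ * κ ≤ 1 * κ := mul_le_mul_of_nonneg_right hθ1 hκ.le
  have h1 := est_step e hκ hd (by linarith) hm hf hst ho hR
  have hG := Pool.Agent.W666.GB.roundGB_pos (m := m) hκ
  have hw := wterm_nonneg e R (-κ) hm
  refine h1.trans (mul_le_mul_of_nonneg_right ?_ (mul_nonneg hG.le hw))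
  rw [mul_div_assoc', div_le_iff₀ hκ]
  linarith

/-- The pinching condition: all eigenvalues of the curvature operator are in `[κ - a, κ + b]`, or only
one of the two bounds is assumed, and the other number is `2 m - 2` times as large. -/
def Near (m : ℕ) (R : V → V → V → V → ℝ) (κ a b : ℝ) : Prop :=
  CurvOpIn R (κ - a) (κ + b) ∨
    (OpNonneg (addT R fun x y z w => -(κ - a) * unitT x y z w) ∧ b = (2 * m - 2) * a) ∨
    (OpNonneg (addT (negT R) fun x y z w => (κ + b) * unitT x y z w) ∧ a = (2 * m - 2) * b)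

/-- negative case -/
theorem near_neg (e : OrthonormalBasis (Fin m × Bool) ℝ V) {R : V → V → V → V → ℝ}
    (hR : AlgCurv R) {κ a b θ : ℝ} (hκ : 0 < κ) (hm : 2 ≤ m)
    (hθ : 144 * min a b + 18 * Real.sqrt (a * b) ≤ θ * κ) (hθ1 : θ ≤ 1)
    (hE : Einstein e R (-κ)) (h : Near m R (-κ) a b) :
    |(-1) ^ m * gbc e R - roundGB m κ * (1 + wterm e R (-κ))| ≤
      2 / 3 * θ * (roundGB m κ * wterm e R (-κ)) := by
  have hmR : (2 : ℝ) ≤ m := by exact_mod_cast hm
  have hne : Nonempty (Fin m × Bool) := ⟨(⟨0, by omega⟩, false)⟩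
  have hC1 : AlgCurv (addT R fun x y z w => -(-κ - a) * unitT x y z w) :=
    add_curv hR (unit_curv _)
  have hC2 : AlgCurv (addT (negT R) fun x y z w => (-κ + b) * unitT x y z w) :=
    add_curv (neg_curv hR) (unit_curv _)
  have hE1 : Einstein e (addT R fun x y z w => -(-κ - a) * unitT x y z w) a := by
    have := add_Einstein e hE (-(-κ - a))
    have e1 : -κ + -(-κ - a) = a := by ring
    rwa [e1] at this
  have hE2 : Einstein e (addT (negT R) fun x y z w => (-κ + b) * unitT x y z w) b := by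
    have := add_Einstein e hE.neg (-κ + b)
    have e1 : - -κ + (-κ + b) = b := by ring
    rwa [e1] at this
  have posR : ∀ {t : ℝ}, 0 ≤ (2 * (m : ℝ) - 1) * t → 0 ≤ t := by
    intro t h1
    have h2 : (0 : ℝ) < 2 * m - 1 := by linarith
    by_contra hc
    push Not at hc
    nlinarith [mul_neg_of_pos_of_neg h2 hc]
  -- from below
  have low : OpNonneg (addT R fun x y z w => -(-κ - a) * unitT x y z w) → a ≤ b →
      (∀ (g : Pr (Fin m × Bool) → Matrix (Fin m × Bool) (Fin m × Bool) ℝ)
      (lam : Pr (Fin m × Bool) → ℝ), TH594.HE.Fam g lam ((2 * m - 1) * a) →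
      (∀ i j k l, ∑ p, lam p * (g p i j * g p k l) =
        R (e i) (e j) (e k) (e l) + (κ + a) * unitCurv i j k l) → ∀ p, lam p ≤ a + b) →
      |(-1) ^ m * gbc e R - roundGB m κ * (1 + wterm e R (-κ))| ≤
      2 / 3 * θ * (roundGB m κ * wterm e R (-κ)) := by
    intro hop hab hle
    obtain ⟨g, lam, hF, hcomp, hdec⟩ := fam_of e hC1 hop hE1
    have h1 : ∀ i j k l, ∑ p, lam p * (g p i j * g p k l) =
        R (e i) (e j) (e k) (e l) + (κ + a) * unitCurv i j k l := by
      intro i j k l
      rw [hdec, addT, cp_unit]; ring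
    rw [min_eq_left hab] at hθ
    refine asym e hκ hm hab hθ hθ1 hF hcomp (hle g lam hF h1) (ε := 1) abs_one ?_
    intro i j k l
    simp only [one_mul, sub_mul, Finset.sum_sub_distrib]
    rw [h1, ← Finset.mul_sum, hcomp]
    unfold unitCurv
    ring
  -- from above
  have upp : OpNonneg (addT (negT R) fun x y z w => (-κ + b) * unitT x y z w) → b ≤ a →
      (∀ (g : Pr (Fin m × Bool) → Matrix (Fin m × Bool) (Fin m × Bool) ℝ)
      (lam : Pr (Fin m × Bool) → ℝ), TH594.HE.Fam g lam ((2 * m - 1) * b) →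
      (∀ i j k l, ∑ p, lam p * (g p i j * g p k l) =
        -R (e i) (e j) (e k) (e l) + (-κ + b) * unitCurv i j k l) → ∀ p, lam p ≤ b + a) →
      |(-1) ^ m * gbc e R - roundGB m κ * (1 + wterm e R (-κ))| ≤
      2 / 3 * θ * (roundGB m κ * wterm e R (-κ)) := by
    intro hop hab hle
    obtain ⟨g, lam, hF, hcomp, hdec⟩ := fam_of e hC2 hop hE2
    have h1 : ∀ i j k l, ∑ p, lam p * (g p i j * g p k l) =
        -R (e i) (e j) (e k) (e l) + (-κ + b) * unitCurv i j k l := by
      intro i j k l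
      rw [hdec, addT, negT, cp_unit]
    rw [min_eq_right hab, mul_comm a b] at hθ
    refine asym e hκ hm hab hθ hθ1 hF hcomp (hle g lam hF h1) (ε := -1)
      (by rw [abs_neg, abs_one]) ?_
    intro i j k l
    have e1 : ∀ p, -1 * (b - lam p) * (g p i j * g p k l) =
        lam p * (g p i j * g p k l) - b * (g p i j * g p k l) := fun p => by ring
    simp only [e1, Finset.sum_sub_distrib]
    rw [h1, ← Finset.mul_sum, hcomp]
    unfold unitCurv
    ring
  rcases h with h | h | h
  · rcases le_total a b with hab | hab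
    · refine low h.1 hab fun g lam hF h1 => ?_
      have hB : BiForm (addT (negT R) fun x y z w => (-κ + b) * unitT x y z w) :=
        ⟨hC2.add, hC2.smul, hC2.anti, hC2.pair⟩
      obtain ⟨n, τ, hτs, hτ⟩ := hB.squares (fun i => e i) h.2
      have ho : ∀ p q, sp (g p) (g q) = if p = q then 1 else 0 := by
        intro p q
        split_ifs with hpq
        · rw [hpq]; exact hF.oh.1 q
        · exact hF.oh.2 p q hpq
      refine eig_le τ ho (fun i j k l => unitCurv i j k l) (fun p => unit_sum (hF.eh.sk p)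
        (by rw [ho, if_pos rfl])) ?_
      intro i j k l
      rw [← hτ i j k l, h1, addT, negT, cp_unit]
      ring
    · refine upp h.2 hab fun g lam hF h1 => ?_
      have hB : BiForm (addT R fun x y z w => -(-κ - a) * unitT x y z w) :=
        ⟨hC1.add, hC1.smul, hC1.anti, hC1.pair⟩
      obtain ⟨n, τ, hτs, hτ⟩ := hB.squares (fun i => e i) h.1
      have ho : ∀ p q, sp (g p) (g q) = if p = q then 1 else 0 := by
        intro p q
        split_ifs with hpq
        · rw [hpq]; exact hF.oh.1 q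
        · exact hF.oh.2 p q hpq
      refine eig_le τ ho (fun i j k l => unitCurv i j k l) (fun p => unit_sum (hF.eh.sk p)
        (by rw [ho, if_pos rfl])) ?_
      intro i j k l
      rw [← hτ i j k l, h1, addT, cp_unit]
      ring
  · obtain ⟨hop, hb⟩ := h
    obtain ⟨g, lam, hF, hcomp, hdec⟩ := fam_of e hC1 hop hE1
    have ha := posR hF.rho
    have hab : a ≤ b := by rw [hb]; nlinarith
    refine low hop hab fun g lam hF h1 p => ?_
    have := hF.le p
    rw [hb]
    linarith
  · obtain ⟨hop, hb⟩ := h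
    obtain ⟨g, lam, hF, hcomp, hdec⟩ := fam_of e hC2 hop hE2
    have ha := posR hF.rho
    have hab : b ≤ a := by rw [hb]; nlinarith
    refine upp hop hab fun g lam hF h1 p => ?_
    have := hF.le p
    rw [hb]
    linarith

/-- **the pointwise theorem** -/
theorem near_main (e : OrthonormalBasis (Fin m × Bool) ℝ V) {R : V → V → V → V → ℝ}
    (hR : AlgCurv R) {κ a b θ : ℝ} (hκ : κ ≠ 0) (hm : 2 ≤ m)
    (hθ : 144 * min a b + 18 * Real.sqrt (a * b) ≤ θ * |κ|) (hθ1 : θ ≤ 1)
    (hE : Einstein e R κ) (h : Near m R κ a b) :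
    |gbc e R / roundGB m κ - (1 + wterm e R κ)| ≤ 2 / 3 * θ * wterm e R κ := by
  have key : ∀ (g G w t : ℝ), 0 < G → |g - G * (1 + w)| ≤ t * (G * w) →
      |g / G - (1 + w)| ≤ t * w := by
    intro g G w t hG h1
    have e1 : g / G - (1 + w) = (g - G * (1 + w)) / G := by field_simp
    rw [e1, abs_div, abs_of_pos hG, div_le_iff₀ hG]
    linarith
  rcases lt_or_gt_of_ne hκ with h0 | h0
  · obtain ⟨k, hk⟩ : ∃ k, k = -κ := ⟨_, rfl⟩
    have hκk : κ = -k := by rw [hk, neg_neg]
    subst hκk
    have hk0 : 0 < k := by linarith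
    rw [abs_neg, abs_of_pos hk0] at hθ
    have hG := Pool.Agent.W666.GB.roundGB_pos (m := m) hk0
    have h1 := key _ _ _ _ hG (near_neg e hR hk0 hm hθ hθ1 hE h)
    have e1 : gbc e R / roundGB m (-k) = (-1) ^ m * gbc e R / roundGB m k := by
      rw [roundGB_neg]
      have h2 : ((-1 : ℝ) ^ m) ≠ 0 := pow_ne_zero _ (by norm_num)
      have h3 := sgn_m (m := m)
      rw [div_eq_div_iff (mul_ne_zero h2 hG.ne') hG.ne']
      linear_combination (-(gbc e R * roundGB m k)) * h3
    rw [e1]
    exact h1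
  · rw [abs_of_pos h0] at hθ
    have hG := Pool.Agent.W666.GB.roundGB_pos (m := m) h0
    have hP : Near m (negT R) (-κ) b a := by
      rcases h with h | h | h
      · left
        refine ⟨?_, ?_⟩
        · have e1 : -(-κ - b) = κ + b := by ring
          rw [e1]
          exact h.2
        · rw [negneg]
          have e1 : -κ + a = -(κ - a) := by ring
          rw [e1]
          exact h.1
      · right; right
        refine ⟨?_, h.2⟩
        rw [negneg]
        have e1 : -κ + a = -(κ - a) := by ring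
        rw [e1]
        exact h.1
      · right; left
        refine ⟨?_, h.2⟩
        have e1 : -(-κ - b) = κ + b := by ring
        rw [e1]
        exact h.1
    have hθ' : 144 * min b a + 18 * Real.sqrt (b * a) ≤ θ * κ := by
      rw [min_comm b a, mul_comm b a]
      exact hθ
    have h1 := near_neg e (neg_curv hR) h0 hm hθ' hθ1 hE.neg hP
    rw [gbc_neg, wterm_negT] at h1
    exact key _ _ _ _ hG h1

end Pool.Agent.H31EP
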