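import Pool.Agent.H31EP.Dcm

/-!
# The norms of the nine pieces
-/

set_option autoImplicit false
set_option linter.unusedSectionVars false

namespace Pool.Agent.H31EP

open Finset Pool.Agent.TH594.HP Pool.Agent.TH594.HE

variable {J : Type*} [Fintype J] [DecidableEq J] {K : Type*} [Fintype K]

theorem dbl {s t : J → Module.End ℝ (F2 J)} {φ : F2 J} {a b : ℝ} (hb : 0 ≤ b)
    (h1 : ∑ i, nn2 (s i φ) ≤ a * nn2 φ) (h2 : ∀ i, ∑ j, nn2 (t j (s i φ)) ≤ b * nn2 (s i φ)) :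
    ∑ i, ∑ j, nn2 (t j (s i φ)) ≤ b * a * nn2 φ := by
  calc ∑ i, ∑ j, nn2 (t j (s i φ)) ≤ ∑ i, b * nn2 (s i φ) := Finset.sum_le_sum fun i _ => h2 i
    _ = b * ∑ i, nn2 (s i φ) := by rw [Finset.mul_sum]
    _ ≤ b * (a * nn2 φ) := mul_le_mul_of_nonneg_left h1 hb
    _ = _ := by ring

theorem dbl' {s t : J → Module.End ℝ (F2 J)} {φ : F2 J} {a b : ℝ} (hb : 0 ≤ b)
    (h1 : ∑ i, nn2 (s i φ) ≤ a * nn2 φ) (h2 : ∀ i, ∑ j, nn2 (t j (s i φ)) ≤ b * nn2 (s i φ)) :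
    ∑ i, ∑ j, nn2 (t i (s j φ)) ≤ b * a * nn2 φ := by
  rw [Finset.sum_comm]
  exact dbl hb h1 h2

/-- the operators map degrees `p, q` to degrees `p', q'` -/
def Mp (p q p' q' : ℕ) (u : J → Module.End ℝ (F2 J)) : Prop :=
  ∀ F, Le p q F → ∀ i, Le p' q' (u i F)

theorem mp_cr1 (p q : ℕ) : Mp p q (p + 1) q (cr1 (J := J)) := fun _ h i => h.cr1 i
theorem mp_cr2 (p q : ℕ) : Mp p q p (q + 1) (cr2 (J := J)) := fun _ h i => h.cr2 i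
theorem mp_an1 (p q : ℕ) : Mp (p + 1) q p q (an1 (J := J)) := fun _ h i => h.an1 i
theorem mp_an2 (p q : ℕ) : Mp p (q + 1) p q (an2 (J := J)) := fun _ h i => h.an2 i

theorem Le_Qd {p q p' q' p'' q'' : ℕ} {u u' : J → Module.End ℝ (F2 J)}
    (h' : Mp p q p' q' u') (h : Mp p' q' p'' q'' u) (ν : Matrix J J ℝ) {F : F2 J}
    (hF : Le p q F) : Le p'' q'' (Qd u u' ν F) := by
  rw [Qd_apply]
  exact Le.sum _ _ fun i _ => Le.sum _ _ fun j _ => (h _ (h' _ hF j) i).smul _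

theorem Le_Pc {p q p1 q1 p2 q2 p3 q3 p4 q4 : ℕ} {u u' v v' : J → Module.End ℝ (F2 J)}
    (h1 : Mp p q p1 q1 v') (h2 : Mp p1 q1 p2 q2 v) (h3 : Mp p2 q2 p3 q3 u')
    (h4 : Mp p3 q3 p4 q4 u) (μ : K → ℝ) (h : K → Matrix J J ℝ) {F : F2 J}
    (hF : Le p q F) : Le p4 q4 (Pc μ h u u' v v' F) := by
  rw [Pc_apply]
  exact Le.sum _ _ fun x _ => (Le_Qd h3 h4 _ (Le_Qd h1 h2 _ hF)).smul _

section bounds

variable {h : K → Matrix J J ℝ} {μ : K → ℝ} {δ : ℝ} {e : ℕ} {F : F2 J}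

/-- the dimension -/
noncomputable abbrev dm (J : Type*) [Fintype J] : ℝ := (Fintype.card J : ℝ)

theorem dm_nonneg : 0 ≤ dm J := Nat.cast_nonneg _

theorem bnd1 (hf : Fam h μ δ) (hδ : 0 ≤ δ) (hF : Le (e + 2) (e + 2) F) :
    no (Pc μ h an1 an1 an2 an2 F) ≤
      2 * δ * Real.sqrt (dm J * dm J * (((e + 1 : ℕ) : ℝ) * ((e + 2 : ℕ) : ℝ))) * no F := by
  refine piece hf hδ adj_an1 adj_an1 (mul_nonneg dm_nonneg dm_nonneg) (by positivity) ?_ ?_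
  · exact dbl dm_nonneg (sum_cr1 _) fun i => sum_cr1 _
  · exact dbl' (Nat.cast_nonneg _) (sum_an2 hF) fun i => sum_an2 (mp_an2 _ _ _ hF i)

theorem bnd2 (hf : Fam h μ δ) (hδ : 0 ≤ δ) (hF : Le (e + 2) (e + 2) F) :
    no (Pc μ h an2 cr1 an1 an1 F) ≤
      2 * δ * Real.sqrt (((e + 1 : ℕ) : ℝ) * dm J * (((e + 1 : ℕ) : ℝ) * ((e + 2 : ℕ) : ℝ))) *
        no F := by
  have hφ : Le (e + 1) (e + 1) (Pc μ h an2 cr1 an1 an1 F) :=
    Le_Pc (mp_an1 _ _) (mp_an1 _ _) (mp_cr1 _ _) (mp_an2 _ _) μ h hF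
  refine piece hf hδ adj_an2 adj_cr1 (mul_nonneg (Nat.cast_nonneg _) dm_nonneg)
    (by positivity) ?_ ?_
  · exact dbl (Nat.cast_nonneg _) (sum_cr2 _) fun i => sum_an1 (mp_cr2 _ _ _ hφ i)
  · exact dbl' (Nat.cast_nonneg _) (sum_an1 hF) fun i => sum_an1 (mp_an1 _ _ _ hF i)

theorem bnd3 (hf : Fam h μ δ) (hδ : 0 ≤ δ) (hF : Le (e + 2) (e + 2) F) :
    no (Pc μ h cr1 cr1 an1 an1 F) ≤
      2 * δ * Real.sqrt ((((e + 1 : ℕ) : ℝ) * ((e + 2 : ℕ) : ℝ)) *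
        (((e + 1 : ℕ) : ℝ) * ((e + 2 : ℕ) : ℝ))) * no F := by
  have hφ : Le (e + 2) (e + 2) (Pc μ h cr1 cr1 an1 an1 F) :=
    Le_Pc (mp_an1 _ _) (mp_an1 _ _) (mp_cr1 _ _) (mp_cr1 _ _) μ h hF
  refine piece hf hδ adj_cr1 adj_cr1 (by positivity) (by positivity) ?_ ?_
  · exact dbl (Nat.cast_nonneg _) (sum_an1 hφ) fun i => sum_an1 (mp_an1 _ _ _ hφ i)
  · exact dbl' (Nat.cast_nonneg _) (sum_an1 hF) fun i => sum_an1 (mp_an1 _ _ _ hF i)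

theorem bnd4 (hf : Fam h μ δ) (hδ : 0 ≤ δ) (hF : Le (e + 2) (e + 2) F) :
    no (Pc μ h an1 cr2 an2 an2 F) ≤
      2 * δ * Real.sqrt (((e + 1 : ℕ) : ℝ) * dm J * (((e + 1 : ℕ) : ℝ) * ((e + 2 : ℕ) : ℝ))) *
        no F := by
  have hφ : Le (e + 1) (e + 1) (Pc μ h an1 cr2 an2 an2 F) :=
    Le_Pc (mp_an2 _ _) (mp_an2 _ _) (mp_cr2 _ _) (mp_an1 _ _) μ h hF
  refine piece hf hδ adj_an1 adj_cr2 (mul_nonneg (Nat.cast_nonneg _) dm_nonneg)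
    (by positivity) ?_ ?_
  · exact dbl (Nat.cast_nonneg _) (sum_cr1 _) fun i => sum_an2 (mp_cr1 _ _ _ hφ i)
  · exact dbl' (Nat.cast_nonneg _) (sum_an2 hF) fun i => sum_an2 (mp_an2 _ _ _ hF i)

theorem bnd5 (hf : Fam h μ δ) (hδ : 0 ≤ δ) (hF : Le (e + 2) (e + 2) F) :
    no (Pc μ h an1 cr2 an2 cr1 F) ≤
      2 * δ * Real.sqrt (((e + 2 : ℕ) : ℝ) * dm J * (((e + 2 : ℕ) : ℝ) * dm J)) * no F := by
  have hφ : Le (e + 2) (e + 2) (Pc μ h an1 cr2 an2 cr1 F) :=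
    Le_Pc (mp_cr1 _ _) (mp_an2 _ _) (mp_cr2 _ _) (mp_an1 _ _) μ h hF
  refine piece hf hδ adj_an1 adj_cr2 (mul_nonneg (Nat.cast_nonneg _) dm_nonneg)
    (mul_nonneg (Nat.cast_nonneg _) dm_nonneg) ?_ ?_
  · exact dbl (Nat.cast_nonneg _) (sum_cr1 _) fun i => sum_an2 (mp_cr1 _ _ _ hφ i)
  · exact dbl' (Nat.cast_nonneg _) (sum_cr1 _) fun i => sum_an2 (mp_cr1 _ _ _ hF i)

theorem bnd6 (hf : Fam h μ δ) (hδ : 0 ≤ δ) (hF : Le (e + 2) (e + 2) F) :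
    no (Pc μ h cr1 cr1 an1 cr2 F) ≤
      2 * δ * Real.sqrt ((((e + 2 : ℕ) : ℝ) * ((e + 3 : ℕ) : ℝ)) * (((e + 2 : ℕ) : ℝ) * dm J)) *
        no F := by
  have hφ : Le (e + 3) (e + 3) (Pc μ h cr1 cr1 an1 cr2 F) :=
    Le_Pc (mp_cr2 _ _) (mp_an1 _ _) (mp_cr1 _ _) (mp_cr1 _ _) μ h hF
  refine piece hf hδ adj_cr1 adj_cr1 (by positivity)
    (mul_nonneg (Nat.cast_nonneg _) dm_nonneg) ?_ ?_
  · exact dbl (Nat.cast_nonneg _) (sum_an1 hφ) fun i => sum_an1 (mp_an1 _ _ _ hφ i)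
  · exact dbl' (Nat.cast_nonneg _) (sum_cr2 _) fun i => sum_an1 (mp_cr2 _ _ _ hF i)

theorem bnd7 (hf : Fam h μ δ) (hδ : 0 ≤ δ) (hF : Le (e + 2) (e + 2) F) :
    no (Pc μ h cr2 cr2 an2 an2 F) ≤
      2 * δ * Real.sqrt ((((e + 1 : ℕ) : ℝ) * ((e + 2 : ℕ) : ℝ)) *
        (((e + 1 : ℕ) : ℝ) * ((e + 2 : ℕ) : ℝ))) * no F := by
  have hφ : Le (e + 2) (e + 2) (Pc μ h cr2 cr2 an2 an2 F) :=
    Le_Pc (mp_an2 _ _) (mp_an2 _ _) (mp_cr2 _ _) (mp_cr2 _ _) μ h hF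
  refine piece hf hδ adj_cr2 adj_cr2 (by positivity) (by positivity) ?_ ?_
  · exact dbl (Nat.cast_nonneg _) (sum_an2 hφ) fun i => sum_an2 (mp_an2 _ _ _ hφ i)
  · exact dbl' (Nat.cast_nonneg _) (sum_an2 hF) fun i => sum_an2 (mp_an2 _ _ _ hF i)

theorem bnd8 (hf : Fam h μ δ) (hδ : 0 ≤ δ) (hF : Le (e + 2) (e + 2) F) :
    no (Pc μ h cr2 cr2 an2 cr1 F) ≤
      2 * δ * Real.sqrt ((((e + 2 : ℕ) : ℝ) * ((e + 3 : ℕ) : ℝ)) * (((e + 2 : ℕ) : ℝ) * dm J)) *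
        no F := by
  have hφ : Le (e + 3) (e + 3) (Pc μ h cr2 cr2 an2 cr1 F) :=
    Le_Pc (mp_cr1 _ _) (mp_an2 _ _) (mp_cr2 _ _) (mp_cr2 _ _) μ h hF
  refine piece hf hδ adj_cr2 adj_cr2 (by positivity)
    (mul_nonneg (Nat.cast_nonneg _) dm_nonneg) ?_ ?_
  · exact dbl (Nat.cast_nonneg _) (sum_an2 hφ) fun i => sum_an2 (mp_an2 _ _ _ hφ i)
  · exact dbl' (Nat.cast_nonneg _) (sum_cr1 _) fun i => sum_an2 (mp_cr1 _ _ _ hF i)

theorem bnd9 (hf : Fam h μ δ) (hδ : 0 ≤ δ) (hF : Le (e + 2) (e + 2) F) :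
    no (Pc μ h cr2 cr2 cr1 cr1 F) ≤
      2 * δ * Real.sqrt ((((e + 3 : ℕ) : ℝ) * ((e + 4 : ℕ) : ℝ)) * (dm J * dm J)) * no F := by
  have hφ : Le (e + 4) (e + 4) (Pc μ h cr2 cr2 cr1 cr1 F) :=
    Le_Pc (mp_cr1 _ _) (mp_cr1 _ _) (mp_cr2 _ _) (mp_cr2 _ _) μ h hF
  refine piece hf hδ adj_cr2 adj_cr2 (by positivity) (mul_nonneg dm_nonneg dm_nonneg) ?_ ?_
  · exact dbl (Nat.cast_nonneg _) (sum_an2 hφ) fun i => sum_an2 (mp_an2 _ _ _ hφ i)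
  · exact dbl' dm_nonneg (sum_cr1 _) fun i => sum_cr1 _

/-- the operator raises the degrees by at most two -/
theorem Le_Xo (hf : Fam h μ δ) (hF : Le (e + 2) (e + 2) F) : Le (e + 4) (e + 4) (Xo μ h F) := by
  rw [Xo_eq hf]
  have l1 : Le (e + 4) (e + 4) (Pc μ h an1 an1 an2 an2 F) :=
    (Le_Pc (mp_an2 _ _) (mp_an2 _ _) (mp_an1 _ _) (mp_an1 _ _) μ h hF).mono
      (by omega) (by omega)
  have l2 : Le (e + 4) (e + 4) (Pc μ h an2 cr1 an1 an1 F) :=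
    (Le_Pc (mp_an1 _ _) (mp_an1 _ _) (mp_cr1 _ _) (mp_an2 _ _) μ h hF).mono
      (by omega) (by omega)
  have l3 : Le (e + 4) (e + 4) (Pc μ h cr1 cr1 an1 an1 F) :=
    (Le_Pc (mp_an1 _ _) (mp_an1 _ _) (mp_cr1 _ _) (mp_cr1 _ _) μ h hF).mono
      (by omega) (by omega)
  have l4 : Le (e + 4) (e + 4) (Pc μ h an1 cr2 an2 an2 F) :=
    (Le_Pc (mp_an2 _ _) (mp_an2 _ _) (mp_cr2 _ _) (mp_an1 _ _) μ h hF).mono
      (by omega) (by omega)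
  have l5 : Le (e + 4) (e + 4) (Pc μ h an1 cr2 an2 cr1 F) :=
    (Le_Pc (mp_cr1 _ _) (mp_an2 _ _) (mp_cr2 _ _) (mp_an1 _ _) μ h hF).mono
      (by omega) (by omega)
  have l6 : Le (e + 4) (e + 4) (Pc μ h cr1 cr1 an1 cr2 F) :=
    (Le_Pc (mp_cr2 _ _) (mp_an1 _ _) (mp_cr1 _ _) (mp_cr1 _ _) μ h hF).mono
      (by omega) (by omega)
  have l7 : Le (e + 4) (e + 4) (Pc μ h cr2 cr2 an2 an2 F) :=
    (Le_Pc (mp_an2 _ _) (mp_an2 _ _) (mp_cr2 _ _) (mp_cr2 _ _) μ h hF).mono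
      (by omega) (by omega)
  have l8 : Le (e + 4) (e + 4) (Pc μ h cr2 cr2 an2 cr1 F) :=
    (Le_Pc (mp_cr1 _ _) (mp_an2 _ _) (mp_cr2 _ _) (mp_cr2 _ _) μ h hF).mono
      (by omega) (by omega)
  have l9 : Le (e + 4) (e + 4) (Pc μ h cr2 cr2 cr1 cr1 F) :=
    Le_Pc (mp_cr1 _ _) (mp_cr1 _ _) (mp_cr2 _ _) (mp_cr2 _ _) μ h hF
  simp only [LinearMap.add_apply, LinearMap.smul_apply, sub_eq_add_neg, LinearMap.neg_apply]
  exact (((((((l1.add (l2.smul _).neg).add l3).add (l4.smul _)).add (l5.smul _).neg).add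
    (l6.smul _)).add l7).add (l8.smul _).neg).add l9

/-- the triangle inequality for the nine pieces -/
theorem Xo_tri (hf : Fam h μ δ) (F : F2 J) :
    no (Xo μ h F) ≤ no (Pc μ h an1 an1 an2 an2 F) + 2 * no (Pc μ h an2 cr1 an1 an1 F)
      + no (Pc μ h cr1 cr1 an1 an1 F) + 2 * no (Pc μ h an1 cr2 an2 an2 F)
      + 4 * no (Pc μ h an1 cr2 an2 cr1 F) + 2 * no (Pc μ h cr1 cr1 an1 cr2 F)
      + no (Pc μ h cr2 cr2 an2 an2 F) + 2 * no (Pc μ h cr2 cr2 an2 cr1 F)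
      + no (Pc μ h cr2 cr2 cr1 cr1 F) := by
  rw [Xo_eq hf]
  simp only [LinearMap.add_apply, LinearMap.smul_apply, sub_eq_add_neg, LinearMap.neg_apply]
  have n2 : ∀ G : F2 J, no (-((2 : ℝ) • G)) = 2 * no G := by
    intro G
    rw [no_neg, no_smul, abs_of_pos (by norm_num : (0 : ℝ) < 2)]
  have n4 : ∀ G : F2 J, no (-((4 : ℝ) • G)) = 4 * no G := by
    intro G
    rw [no_neg, no_smul, abs_of_pos (by norm_num : (0 : ℝ) < 4)]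
  have n2' : ∀ G : F2 J, no ((2 : ℝ) • G) = 2 * no G := by
    intro G
    rw [no_smul, abs_of_pos (by norm_num : (0 : ℝ) < 2)]
  refine (no_add _ _).trans (add_le_add ?_ le_rfl)
  refine (no_add _ _).trans (add_le_add ?_ (n2 _).le)
  refine (no_add _ _).trans (add_le_add ?_ le_rfl)
  refine (no_add _ _).trans (add_le_add ?_ (n2' _).le)
  refine (no_add _ _).trans (add_le_add ?_ (n4 _).le)
  refine (no_add _ _).trans (add_le_add ?_ (n2' _).le)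
  refine (no_add _ _).trans (add_le_add ?_ le_rfl)
  exact (no_add _ _).trans (add_le_add le_rfl (n2 _).le)

theorem q1 {n e : ℝ} (hn0 : 0 ≤ n) (hE : 0 ≤ e) :
    Real.sqrt (n * n * ((e + 1) * (e + 2))) ≤ n * (e + 3 / 2) := by
  rw [Real.sqrt_le_left (by positivity)]
  have h1 : (e + 1) * (e + 2) ≤ (e + 3 / 2) ^ 2 := by nlinarith
  have h2 := mul_le_mul_of_nonneg_left h1 (mul_nonneg hn0 hn0)
  linarith

theorem q9 {n e : ℝ} (hn0 : 0 ≤ n) (hE : 0 ≤ e) :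
    Real.sqrt (((e + 3) * (e + 4)) * (n * n)) ≤ n * (e + 7 / 2) := by
  rw [Real.sqrt_le_left (by positivity)]
  have h1 : (e + 3) * (e + 4) ≤ (e + 7 / 2) ^ 2 := by nlinarith
  have h2 := mul_le_mul_of_nonneg_left h1 (mul_nonneg hn0 hn0)
  linarith

theorem q2 {n e : ℝ} (hn0 : 0 ≤ n) (hE : 0 ≤ e) (hn : 2 * (e + 3) ≤ n) :
    Real.sqrt ((e + 1) * n * ((e + 1) * (e + 2))) ≤ 7072 / 10000 * (e + 1) * n := by
  rw [Real.sqrt_le_left (by positivity)]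
  have h0 : (e + 2) * n ≤ (n / 2) * n := mul_le_mul_of_nonneg_right (by linarith) hn0
  have h1 : (e + 2) * n ≤ (7072 / 10000) ^ 2 * n ^ 2 := by nlinarith
  have h2 := mul_le_mul_of_nonneg_left h1 (sq_nonneg (e + 1))
  linarith

theorem q6 {n e : ℝ} (hn0 : 0 ≤ n) (hE : 0 ≤ e) (hn : 2 * (e + 3) ≤ n) :
    Real.sqrt (((e + 2) * (e + 3)) * ((e + 2) * n)) ≤ 7072 / 10000 * (e + 2) * n := by
  rw [Real.sqrt_le_left (by positivity)]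
  have h0 : (e + 3) * n ≤ (n / 2) * n := mul_le_mul_of_nonneg_right (by linarith) hn0
  have h1 : (e + 3) * n ≤ (7072 / 10000) ^ 2 * n ^ 2 := by nlinarith
  have h2 := mul_le_mul_of_nonneg_left h1 (sq_nonneg (e + 2))
  linarith

theorem q3 {n e : ℝ} (hE : 0 ≤ e) (hn : 2 * (e + 3) ≤ n) :
    Real.sqrt (((e + 1) * (e + 2)) * ((e + 1) * (e + 2))) ≤ (e + 1) * (n / 2) := by
  rw [Real.sqrt_mul_self (by positivity)]
  exact mul_le_mul_of_nonneg_left (by linarith) (by positivity)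

theorem num9 {n e N : ℝ} (hn0 : 0 ≤ n) (hE : 0 ≤ e) (hN : 0 ≤ N) :
    (n * (e + 3 / 2)) * N + 2 * ((7072 / 10000 * (e + 1) * n) * N) + ((e + 1) * (n / 2)) * N
      + 2 * ((7072 / 10000 * (e + 1) * n) * N) + 4 * (((e + 2) * n) * N)
      + 2 * ((7072 / 10000 * (e + 2) * n) * N) + ((e + 1) * (n / 2)) * N
      + 2 * ((7072 / 10000 * (e + 2) * n) * N) + (n * (e + 7 / 2)) * N ≤
      51 / 4 * (e + 2) * n * N := by
  have h1 : 0 ≤ n * N := by positivity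
  have h2 : 0 ≤ n * N * e := by positivity
  nlinarith

/-- the sum of the bounds -/
theorem Xo_le (hf : Fam h μ δ) (hδ : 0 ≤ δ) (hF : Le (e + 2) (e + 2) F)
    (hn : 2 * ((e : ℝ) + 3) ≤ dm J) :
    no (Xo μ h F) ≤ 51 / 2 * (e + 2) * dm J * δ * no F := by
  have b1 := bnd1 hf hδ hF
  have b2 := bnd2 hf hδ hF
  have b3 := bnd3 hf hδ hF
  have b4 := bnd4 hf hδ hF
  have b5 := bnd5 hf hδ hF
  have b6 := bnd6 hf hδ hF
  have b7 := bnd7 hf hδ hF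
  have b8 := bnd8 hf hδ hF
  have b9 := bnd9 hf hδ hF
  push_cast at b1 b2 b3 b4 b5 b6 b7 b8 b9
  have tri := Xo_tri hf F
  have hE : (0 : ℝ) ≤ e := Nat.cast_nonneg e
  have hn0 : 0 ≤ dm J := dm_nonneg
  have hno := no_nonneg F
  have hc : 0 ≤ 2 * δ * no F := by positivity
  have q5 : Real.sqrt (((e : ℝ) + 2) * dm J * (((e : ℝ) + 2) * dm J)) = (e + 2) * dm J :=
    Real.sqrt_mul_self (by positivity)
  rw [q5] at b5
  have c1 := b1.trans (le_trans (le_of_eq (by ring)) (mul_le_mul_of_nonneg_right (q1 hn0 hE) hc))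
  have c2 := b2.trans (le_trans (le_of_eq (by ring))
    (mul_le_mul_of_nonneg_right (q2 hn0 hE hn) hc))
  have c3 := b3.trans (le_trans (le_of_eq (by ring))
    (mul_le_mul_of_nonneg_right (q3 hE hn) hc))
  have c4 := b4.trans (le_trans (le_of_eq (by ring))
    (mul_le_mul_of_nonneg_right (q2 hn0 hE hn) hc))
  have c5 : no (Pc μ h an1 cr2 an2 cr1 F) ≤ ((e + 2) * dm J) * (2 * δ * no F) :=
    b5.trans (le_of_eq (by ring))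
  have c6 := b6.trans (le_trans (le_of_eq (by ring))
    (mul_le_mul_of_nonneg_right (q6 hn0 hE hn) hc))
  have c7 := b7.trans (le_trans (le_of_eq (by ring))
    (mul_le_mul_of_nonneg_right (q3 hE hn) hc))
  have c8 := b8.trans (le_trans (le_of_eq (by ring))
    (mul_le_mul_of_nonneg_right (q6 hn0 hE hn) hc))
  have c9 := b9.trans (le_trans (le_of_eq (by ring)) (mul_le_mul_of_nonneg_right (q9 hn0 hE) hc))
  have hfin := num9 hn0 hE hc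
  linarith

end bounds

end Pool.Agent.H31EP
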