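import Pool.Agent.TH594.HP.Fun

/-!
# Forms in two sets of anticommuting variables

The functions `Finset J → Finset J → ℝ` are the exterior algebra of `ℝ^J ⊕ ℝ^J`; `cr1 i`, `cr2 i` are the
exterior products with the two copies of the basis vector `i`, `an1 i`, `an2 i` their adjoints.
-/

set_option autoImplicit false
set_option linter.unusedSectionVars false

namespace Pool.Agent.H31EP

open Finset Pool.Agent.TH594.HP

variable {J : Type*} [Fintype J] [DecidableEq J]

/-- forms in two sets of variables -/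
abbrev F2 (J : Type*) := Finset J → Finset J → ℝ

/-- slice -/
def sl (F : F2 J) (T : Finset J) : Fk J := fun S => F S T

/-- creation operator, first variables -/
noncomputable def cr1 (i : J) : Module.End ℝ (F2 J) where
  toFun F := fun S T => cr i (sl F T) S
  map_add' F G := by
    funext S T
    have : sl (F + G) T = sl F T + sl G T := rfl
    rw [this, map_add]; rfl
  map_smul' t F := by
    funext S T
    have : sl (t • F) T = t • sl F T := rfl
    rw [this, map_smul]; rfl

/-- annihilation operator, first variables -/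
noncomputable def an1 (i : J) : Module.End ℝ (F2 J) where
  toFun F := fun S T => an i (sl F T) S
  map_add' F G := by
    funext S T
    have : sl (F + G) T = sl F T + sl G T := rfl
    rw [this, map_add]; rfl
  map_smul' t F := by
    funext S T
    have : sl (t • F) T = t • sl F T := rfl
    rw [this, map_smul]; rfl

/-- creation operator, second variables -/
noncomputable def cr2 (i : J) : Module.End ℝ (F2 J) where
  toFun F := fun S T => (-1) ^ S.card * cr i (F S) T
  map_add' F G := by
    funext S T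
    show (-1) ^ S.card * cr i (F S + G S) T = _
    rw [map_add, Pi.add_apply, mul_add]; rfl
  map_smul' t F := by
    funext S T
    show (-1) ^ S.card * cr i (t • F S) T = _
    rw [map_smul, Pi.smul_apply, smul_eq_mul]
    show _ = t * ((-1) ^ S.card * cr i (F S) T)
    ring

/-- annihilation operator, second variables -/
noncomputable def an2 (i : J) : Module.End ℝ (F2 J) where
  toFun F := fun S T => (-1) ^ S.card * an i (F S) T
  map_add' F G := by
    funext S T
    show (-1) ^ S.card * an i (F S + G S) T = _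
    rw [map_add, Pi.add_apply, mul_add]; rfl
  map_smul' t F := by
    funext S T
    show (-1) ^ S.card * an i (t • F S) T = _
    rw [map_smul, Pi.smul_apply, smul_eq_mul]
    show _ = t * ((-1) ^ S.card * an i (F S) T)
    ring

theorem sl_cr1 (i : J) (F : F2 J) (T : Finset J) : sl (cr1 i F) T = cr i (sl F T) := rfl

theorem sl_an1 (i : J) (F : F2 J) (T : Finset J) : sl (an1 i F) T = an i (sl F T) := rfl

theorem row_cr2 (i : J) (F : F2 J) (S : Finset J) :
    (cr2 i F) S = (-1 : ℝ) ^ S.card • cr i (F S) := rfl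

theorem row_an2 (i : J) (F : F2 J) (S : Finset J) :
    (an2 i F) S = (-1 : ℝ) ^ S.card • an i (F S) := rfl

omit [Fintype J] [DecidableEq J] in
theorem ext_sl {F G : F2 J} (h : ∀ T, sl F T = sl G T) : F = G := by
  funext S T
  exact congrFun (h T) S

theorem sgn_sq (k : ℕ) : ((-1 : ℝ) ^ k) * (-1) ^ k = 1 := by
  rw [← pow_add, ← two_mul, pow_mul]
  norm_num

theorem an1_an1 (i j : J) : (an1 i * an1 j : Module.End ℝ (F2 J)) = -(an1 j * an1 i) := by
  apply LinearMap.ext
  intro F
  refine ext_sl fun T => ?_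
  show an i (an j (sl F T)) = -(an j (an i (sl F T)))
  exact an_an i j _

theorem cr1_cr1 (i j : J) : (cr1 i * cr1 j : Module.End ℝ (F2 J)) = -(cr1 j * cr1 i) := by
  apply LinearMap.ext
  intro F
  refine ext_sl fun T => ?_
  show cr i (cr j (sl F T)) = -(cr j (cr i (sl F T)))
  exact cr_cr i j _

theorem an1_cr1 (i j : J) :
    (an1 i * cr1 j : Module.End ℝ (F2 J)) = (if i = j then 1 else 0) - cr1 j * an1 i := by
  apply LinearMap.ext
  intro F
  refine ext_sl fun T => ?_
  have h := an_cr i j (sl F T)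
  by_cases hij : i = j
  · rw [if_pos hij] at h ⊢
    exact h
  · rw [if_neg hij] at h ⊢
    exact h

theorem an2_an2 (i j : J) : (an2 i * an2 j : Module.End ℝ (F2 J)) = -(an2 j * an2 i) := by
  apply LinearMap.ext
  intro F
  funext S
  have e : ∀ i j : J, (an2 i (an2 j F)) S = an i (an j (F S)) := by
    intro i j
    rw [row_an2, row_an2, map_smul, smul_smul, sgn_sq, one_smul]
  show (an2 i (an2 j F)) S = -((an2 j (an2 i F)) S)
  rw [e, e, an_an i j]

theorem cr2_cr2 (i j : J) : (cr2 i * cr2 j : Module.End ℝ (F2 J)) = -(cr2 j * cr2 i) := by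
  apply LinearMap.ext
  intro F
  funext S
  have e : ∀ i j : J, (cr2 i (cr2 j F)) S = cr i (cr j (F S)) := by
    intro i j
    rw [row_cr2, row_cr2, map_smul, smul_smul, sgn_sq, one_smul]
  show (cr2 i (cr2 j F)) S = -((cr2 j (cr2 i F)) S)
  rw [e, e, cr_cr i j]

theorem an2_cr2 (i j : J) :
    (an2 i * cr2 j : Module.End ℝ (F2 J)) = (if i = j then 1 else 0) - cr2 j * an2 i := by
  apply LinearMap.ext
  intro F
  funext S
  have h := an_cr i j (F S)
  have e1 : (an2 i (cr2 j F)) S = an i (cr j (F S)) := by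
    rw [row_an2, row_cr2, map_smul, smul_smul, sgn_sq, one_smul]
  have e2 : (cr2 j (an2 i F)) S = cr j (an i (F S)) := by
    rw [row_cr2, row_an2, map_smul, smul_smul, sgn_sq, one_smul]
  by_cases hij : i = j
  · rw [if_pos hij] at h ⊢
    show (an2 i (cr2 j F)) S = F S - (cr2 j (an2 i F)) S
    rw [e1, e2, h]
  · rw [if_neg hij] at h ⊢
    show (an2 i (cr2 j F)) S = 0 - (cr2 j (an2 i F)) S
    rw [e1, e2, h]

theorem card_flip {i : J} {S : Finset J} (h : i ∈ S) :
    (-1 : ℝ) ^ (S.erase i).card = -(-1) ^ S.card := by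
  rw [← Finset.card_erase_add_one h, pow_succ]
  ring

theorem card_flip' {i : J} {S : Finset J} (h : i ∉ S) :
    (-1 : ℝ) ^ (insert i S).card = -(-1) ^ S.card := by
  rw [Finset.card_insert_of_notMem h, pow_succ]
  ring

theorem cr_lin (i : J) (t : ℝ) (f : Fk J) (T : Finset J) : cr i (t • f) T = t * cr i f T := by
  rw [map_smul]; rfl

theorem an_lin (i : J) (t : ℝ) (f : Fk J) (T : Finset J) : an i (t • f) T = t * an i f T := by
  rw [map_smul]; rfl

/-- the rows of the first operators -/
theorem row_cr1 (i : J) (F : F2 J) (S : Finset J) :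
    (cr1 i F) S = if i ∈ S then sg i S • F (S.erase i) else 0 := by
  funext T
  show cr i (sl F T) S = _
  rw [cr_apply]
  split_ifs <;> rfl

theorem row_an1 (i : J) (F : F2 J) (S : Finset J) :
    (an1 i F) S = if i ∈ S then 0 else sg i S • F (insert i S) := by
  funext T
  show an i (sl F T) S = _
  rw [an_apply]
  split_ifs <;> rfl

theorem cr1_cr2 (i j : J) : (cr1 i * cr2 j : Module.End ℝ (F2 J)) = -(cr2 j * cr1 i) := by
  apply LinearMap.ext
  intro F
  funext S
  show (cr1 i (cr2 j F)) S = -((cr2 j (cr1 i F)) S)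
  rw [row_cr2 j (cr1 i F) S, row_cr1 i (cr2 j F) S, row_cr1 i F S]
  by_cases h : i ∈ S
  · rw [if_pos h, if_pos h, row_cr2, card_flip h, map_smul, smul_smul, smul_smul, ← neg_smul]
    congr 1
    ring
  · rw [if_neg h, if_neg h, map_zero, smul_zero, neg_zero]

theorem an1_cr2 (i j : J) : (an1 i * cr2 j : Module.End ℝ (F2 J)) = -(cr2 j * an1 i) := by
  apply LinearMap.ext
  intro F
  funext S
  show (an1 i (cr2 j F)) S = -((cr2 j (an1 i F)) S)
  rw [row_cr2 j (an1 i F) S, row_an1 i (cr2 j F) S, row_an1 i F S]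
  by_cases h : i ∈ S
  · rw [if_pos h, if_pos h, map_zero, smul_zero, neg_zero]
  · rw [if_neg h, if_neg h, row_cr2, card_flip' h, map_smul, smul_smul, smul_smul, ← neg_smul]
    congr 1
    ring

theorem cr1_an2 (i j : J) : (cr1 i * an2 j : Module.End ℝ (F2 J)) = -(an2 j * cr1 i) := by
  apply LinearMap.ext
  intro F
  funext S
  show (cr1 i (an2 j F)) S = -((an2 j (cr1 i F)) S)
  rw [row_an2 j (cr1 i F) S, row_cr1 i (an2 j F) S, row_cr1 i F S]
  by_cases h : i ∈ S
  · rw [if_pos h, if_pos h, row_an2, card_flip h, map_smul, smul_smul, smul_smul, ← neg_smul]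
    congr 1
    ring
  · rw [if_neg h, if_neg h, map_zero, smul_zero, neg_zero]

theorem an1_an2 (i j : J) : (an1 i * an2 j : Module.End ℝ (F2 J)) = -(an2 j * an1 i) := by
  apply LinearMap.ext
  intro F
  funext S
  show (an1 i (an2 j F)) S = -((an2 j (an1 i F)) S)
  rw [row_an2 j (an1 i F) S, row_an1 i (an2 j F) S, row_an1 i F S]
  by_cases h : i ∈ S
  · rw [if_pos h, if_pos h, map_zero, smul_zero, neg_zero]
  · rw [if_neg h, if_neg h, row_an2, card_flip' h, map_smul, smul_smul, smul_smul, ← neg_smul]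
    congr 1
    ring

/-! ### the inner product -/

/-- inner product -/
noncomputable def ip2 (F G : F2 J) : ℝ := ∑ S, ip (F S) (G S)

theorem ip2_sl (F G : F2 J) : ip2 F G = ∑ T, ip (sl F T) (sl G T) := by
  unfold ip2 ip
  exact Finset.sum_comm

theorem ip2_comm (F G : F2 J) : ip2 F G = ip2 G F := by
  unfold ip2
  exact Finset.sum_congr rfl fun S _ => ip_comm _ _

theorem ip2_add_left (F F' G : F2 J) : ip2 (F + F') G = ip2 F G + ip2 F' G := by
  unfold ip2
  rw [← Finset.sum_add_distrib]
  exact Finset.sum_congr rfl fun S _ => ip_add_left _ _ _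

theorem ip2_smul_left (t : ℝ) (F G : F2 J) : ip2 (t • F) G = t * ip2 F G := by
  unfold ip2
  rw [Finset.mul_sum]
  exact Finset.sum_congr rfl fun S _ => ip_smul_left _ _ _

theorem ip2_add_right (F G G' : F2 J) : ip2 F (G + G') = ip2 F G + ip2 F G' := by
  rw [ip2_comm, ip2_add_left, ip2_comm G, ip2_comm G']

theorem ip2_smul_right (t : ℝ) (F G : F2 J) : ip2 F (t • G) = t * ip2 F G := by
  rw [ip2_comm, ip2_smul_left, ip2_comm]

theorem ip2_neg_left (F G : F2 J) : ip2 (-F) G = - ip2 F G := by
  rw [← neg_one_smul ℝ F, ip2_smul_left]; ring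

theorem ip2_neg_right (F G : F2 J) : ip2 F (-G) = - ip2 F G := by
  rw [ip2_comm, ip2_neg_left, ip2_comm]

theorem ip2_sub_left (F F' G : F2 J) : ip2 (F - F') G = ip2 F G - ip2 F' G := by
  rw [sub_eq_add_neg, ip2_add_left, ip2_neg_left]; ring

theorem ip2_sub_right (F G G' : F2 J) : ip2 F (G - G') = ip2 F G - ip2 F G' := by
  rw [sub_eq_add_neg, ip2_add_right, ip2_neg_right]; ring

theorem ip2_zero_left (G : F2 J) : ip2 0 G = 0 := by
  unfold ip2
  exact Finset.sum_eq_zero fun S _ => ip_zero_left _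

theorem ip2_zero_right (G : F2 J) : ip2 G 0 = 0 := by
  rw [ip2_comm, ip2_zero_left]

theorem ip2_sum_left {K : Type*} (s : Finset K) (f : K → F2 J) (g : F2 J) :
    ip2 (∑ a ∈ s, f a) g = ∑ a ∈ s, ip2 (f a) g := by
  classical
  induction s using Finset.induction_on with
  | empty => simp [ip2_zero_left]
  | insert a s ha ih => rw [Finset.sum_insert ha, Finset.sum_insert ha, ip2_add_left, ih]

theorem ip2_sum_right {K : Type*} (s : Finset K) (f : F2 J) (g : K → F2 J) :
    ip2 f (∑ a ∈ s, g a) = ∑ a ∈ s, ip2 f (g a) := by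
  rw [ip2_comm, ip2_sum_left]
  exact Finset.sum_congr rfl fun a _ => ip2_comm _ _

/-- square of the norm -/
noncomputable def nn2 (F : F2 J) : ℝ := ip2 F F

theorem nn2_nonneg (F : F2 J) : 0 ≤ nn2 F :=
  Finset.sum_nonneg fun _ _ => ip_self_nonneg _

theorem nn2_row (F : F2 J) : nn2 F = ∑ S, nn (F S) := rfl

theorem nn2_sl (F : F2 J) : nn2 F = ∑ T, nn (sl F T) := ip2_sl F F

theorem nn2_smul (t : ℝ) (F : F2 J) : nn2 (t • F) = t ^ 2 * nn2 F := by
  unfold nn2
  rw [ip2_smul_left, ip2_smul_right]; ring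

theorem nn2_neg (F : F2 J) : nn2 (-F) = nn2 F := by
  unfold nn2
  rw [ip2_neg_left, ip2_neg_right, neg_neg]

theorem adj1 (i : J) (F G : F2 J) : ip2 (cr1 i F) G = ip2 F (an1 i G) := by
  rw [ip2_sl, ip2_sl]
  refine Finset.sum_congr rfl fun T _ => ?_
  rw [sl_cr1, sl_an1, adj]

theorem adj1' (i : J) (F G : F2 J) : ip2 (an1 i F) G = ip2 F (cr1 i G) := by
  rw [ip2_comm, ← adj1, ip2_comm]

theorem adj2 (i : J) (F G : F2 J) : ip2 (cr2 i F) G = ip2 F (an2 i G) := by
  unfold ip2
  refine Finset.sum_congr rfl fun S _ => ?_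
  rw [row_cr2, row_an2, ip_smul_left, ip_smul_right, adj]

theorem adj2' (i : J) (F G : F2 J) : ip2 (an2 i F) G = ip2 F (cr2 i G) := by
  rw [ip2_comm, ← adj2, ip2_comm]

end Pool.Agent.H31EP
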