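import Pool.Agent.H31EP.Swap

/-!
# The operator and its nine pieces
-/

set_option autoImplicit false
set_option linter.unusedSectionVars false

namespace Pool.Agent.H31EP

open Finset Pool.Agent.TH594.HP Pool.Agent.TH594.HE

variable {J : Type*} [Fintype J] [DecidableEq J] {K : Type*} [Fintype K]

/-- the first family of anticommuting operators -/
noncomputable def bb (i : J) : Module.End ℝ (F2 J) := an1 i + cr2 i

/-- the second family -/
noncomputable def cc (i : J) : Module.End ℝ (F2 J) := an2 i - cr1 i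

theorem cr2_an1 (i j : J) : (cr2 i * an1 j : Module.End ℝ (F2 J)) = -(an1 j * cr2 i) := by
  rw [an1_cr2, neg_neg]

theorem cr2_cr1 (i j : J) : (cr2 i * cr1 j : Module.End ℝ (F2 J)) = -(cr1 j * cr2 i) := by
  rw [cr1_cr2, neg_neg]

theorem an2_cr1 (i j : J) : (an2 i * cr1 j : Module.End ℝ (F2 J)) = -(cr1 j * an2 i) := by
  rw [cr1_an2, neg_neg]

theorem an2_an1 (i j : J) : (an2 i * an1 j : Module.End ℝ (F2 J)) = -(an1 j * an2 i) := by
  rw [an1_an2, neg_neg]

theorem bb_bb (i j : J) : (bb i * bb j : Module.End ℝ (F2 J)) = -(bb j * bb i) := by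
  unfold bb
  simp only [add_mul, mul_add]
  rw [an1_an1 i j, cr2_cr2 i j, an1_cr2 i j, cr2_an1 i j]
  abel

theorem cc_cc (i j : J) : (cc i * cc j : Module.End ℝ (F2 J)) = -(cc j * cc i) := by
  unfold cc
  simp only [sub_mul, mul_sub]
  rw [an2_an2 i j, cr1_cr1 i j, an2_cr1 i j, cr1_an2 i j]
  abel

theorem bb_cc (i k : J) : (bb i * cc k : Module.End ℝ (F2 J)) = -(cc k * bb i) := by
  unfold bb cc
  simp only [add_mul, mul_add, mul_sub, sub_mul]
  rw [an1_an2 i k, cr2_cr1 i k, an1_cr1 i k, an2_cr2 k i]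
  by_cases h : i = k
  · rw [if_pos h, if_pos h.symm]
    abel
  · rw [if_neg h, if_neg (Ne.symm h)]
    abel

/-- the quadratic operators commute -/
theorem quad_comm {R : Type*} [Ring R] (a b c d : R) (h1 : a * c = -(c * a)) (h2 : a * d = -(d * a))
    (h3 : b * c = -(c * b)) (h4 : b * d = -(d * b)) : (a * b) * (c * d) = (c * d) * (a * b) := by
  calc (a * b) * (c * d) = a * (b * c) * d := by noncomm_ring
    _ = -((a * c) * (b * d)) := by rw [h3]; noncomm_ring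
    _ = -((c * (a * d)) * b) := by rw [h1, h4]; noncomm_ring
    _ = (c * d) * (a * b) := by rw [h2]; noncomm_ring

theorem Qd_comm {u v : J → Module.End ℝ (F2 J)} (h : ∀ i k, u i * v k = -(v k * u i))
    (ν ν' : Matrix J J ℝ) : Commute (Qd u u ν) (Qd v v ν') := by
  unfold Qd
  refine Commute.sum_left _ _ _ fun i _ => Commute.sum_left _ _ _ fun j _ => ?_
  refine Commute.sum_right _ _ _ fun k _ => Commute.sum_right _ _ _ fun l _ => ?_
  refine Commute.smul_left (Commute.smul_right ?_ _) _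
  exact quad_comm _ _ _ _ (h _ _) (h _ _) (h _ _) (h _ _)

/-- the operator -/
noncomputable def Xo (μ : K → ℝ) (h : K → Matrix J J ℝ) : Module.End ℝ (F2 J) :=
  Pc μ h bb bb cc cc

theorem Xo_comm (μ : K → ℝ) (h : K → Matrix J J ℝ) (ν : Matrix J J ℝ) :
    Commute (Xo μ h) (Qd bb bb ν) := by
  unfold Xo Pc
  refine Commute.sum_left _ _ _ fun p _ => Commute.smul_left ?_ _
  refine Commute.mul_left ?_ ?_
  · exact Qd_comm bb_bb _ _
  · exact (Qd_comm bb_cc _ _).symm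

theorem Qd_add_left (u v u' : J → Module.End ℝ (F2 J)) (ν : Matrix J J ℝ) :
    Qd (fun i => u i + v i) u' ν = Qd u u' ν + Qd v u' ν := by
  simp only [Qd, add_mul, smul_add, Finset.sum_add_distrib]

theorem Qd_add_right (u u' v : J → Module.End ℝ (F2 J)) (ν : Matrix J J ℝ) :
    Qd u (fun i => u' i + v i) ν = Qd u u' ν + Qd u v ν := by
  simp only [Qd, mul_add, smul_add, Finset.sum_add_distrib]

theorem Qd_sub_left (u v u' : J → Module.End ℝ (F2 J)) (ν : Matrix J J ℝ) :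
    Qd (fun i => u i - v i) u' ν = Qd u u' ν - Qd v u' ν := by
  simp only [Qd, sub_mul, smul_sub, Finset.sum_sub_distrib]

theorem Qd_sub_right (u u' v : J → Module.End ℝ (F2 J)) (ν : Matrix J J ℝ) :
    Qd u (fun i => u' i - v i) ν = Qd u u' ν - Qd u v ν := by
  simp only [Qd, mul_sub, smul_sub, Finset.sum_sub_distrib]

theorem Qd_flip {u v : J → Module.End ℝ (F2 J)} (h : ∀ i j, v i * u j = -(u j * v i))
    {ν : Matrix J J ℝ} (hν : ∀ i j, ν j i = - ν i j) : Qd v u ν = Qd u v ν := by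
  unfold Qd
  rw [Finset.sum_comm]
  refine Finset.sum_congr rfl fun i _ => Finset.sum_congr rfl fun j _ => ?_
  rw [h j i, hν i j, smul_neg, neg_smul, neg_neg]

theorem Bq_eq {ν : Matrix J J ℝ} (hν : ∀ i j, ν j i = - ν i j) :
    Qd bb bb ν = Qd an1 an1 ν + (2 : ℝ) • Qd an1 cr2 ν + Qd cr2 cr2 ν := by
  have e : (bb : J → Module.End ℝ (F2 J)) = fun i => an1 i + cr2 i := rfl
  rw [e, Qd_add_left, Qd_add_right, Qd_add_right, Qd_flip (u := an1) (v := cr2) cr2_an1 hν,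
    two_smul]
  abel

theorem Cq_eq {ν : Matrix J J ℝ} (hν : ∀ i j, ν j i = - ν i j) :
    Qd cc cc ν = Qd an2 an2 ν - (2 : ℝ) • Qd an2 cr1 ν + Qd cr1 cr1 ν := by
  have e : (cc : J → Module.End ℝ (F2 J)) = fun i => an2 i - cr1 i := rfl
  rw [e, Qd_sub_left, Qd_sub_right, Qd_sub_right, Qd_flip (u := an2) (v := cr1) cr1_an2 hν,
    two_smul]
  abel

/-- the decomposition in pieces which are small on forms of low degree -/
theorem Xo_eq {h : K → Matrix J J ℝ} {μ : K → ℝ} {δ : ℝ} (hf : Fam h μ δ) :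
    Xo μ h = Pc μ h an1 an1 an2 an2 - (2 : ℝ) • Pc μ h an2 cr1 an1 an1
      + Pc μ h cr1 cr1 an1 an1 + (2 : ℝ) • Pc μ h an1 cr2 an2 an2
      - (4 : ℝ) • Pc μ h an1 cr2 an2 cr1 + (2 : ℝ) • Pc μ h cr1 cr1 an1 cr2
      + Pc μ h cr2 cr2 an2 an2 - (2 : ℝ) • Pc μ h cr2 cr2 an2 cr1
      + Pc μ h cr2 cr2 cr1 cr1 := by
  have hd : ∀ i k : J, (if i = k then (1 : Module.End ℝ (F2 J)) else 0) =
      (1 * dl i k) • (1 : Module.End ℝ (F2 J)) := by
    intro i k
    unfold dl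
    split_ifs <;> simp
  have h0 : ∀ (i k : J) (Y : Module.End ℝ (F2 J)), -Y = (0 * dl i k) • 1 - Y := by
    intro i k Y
    rw [zero_mul, zero_smul, zero_sub]
  have s1 : Pc μ h an1 an1 cr1 cr1 = Pc μ h cr1 cr1 an1 an1 :=
    swap hf 1 1 1 1 (fun j k => by rw [an1_cr1, hd]) (fun j k => by rw [an1_cr1, hd])
      (fun j k => by rw [an1_cr1, hd]) (fun j k => by rw [an1_cr1, hd])
  have s2 : Pc μ h an1 an1 an2 cr1 = Pc μ h an2 cr1 an1 an1 :=
    swap hf 0 0 1 1 (fun j k => by rw [an1_an2, ← h0]) (fun j k => by rw [an1_an2, ← h0])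
      (fun j k => by rw [an1_cr1, hd]) (fun j k => by rw [an1_cr1, hd])
  have s3 : Pc μ h an1 cr2 cr1 cr1 = Pc μ h cr1 cr1 an1 cr2 :=
    swap hf 0 1 0 1 (fun j k => by rw [cr2_cr1, ← h0]) (fun j k => by rw [an1_cr1, hd])
      (fun j k => by rw [cr2_cr1, ← h0]) (fun j k => by rw [an1_cr1, hd])
  have e1 : Xo μ h = Pc μ h an1 an1 an2 an2 - (2 : ℝ) • Pc μ h an1 an1 an2 cr1
      + Pc μ h an1 an1 cr1 cr1 + (2 : ℝ) • Pc μ h an1 cr2 an2 an2
      - (4 : ℝ) • Pc μ h an1 cr2 an2 cr1 + (2 : ℝ) • Pc μ h an1 cr2 cr1 cr1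
      + Pc μ h cr2 cr2 an2 an2 - (2 : ℝ) • Pc μ h cr2 cr2 an2 cr1
      + Pc μ h cr2 cr2 cr1 cr1 := by
    unfold Xo Pc
    simp only [Finset.smul_sum, ← Finset.sum_add_distrib, ← Finset.sum_sub_distrib]
    refine Finset.sum_congr rfl fun p _ => ?_
    rw [Bq_eq (hf.sk p), Cq_eq (hf.sk p)]
    simp only [add_mul, mul_add, mul_sub, smul_mul_assoc, mul_smul_comm]
    module
  rw [e1, s1, s2, s3]

end Pool.Agent.H31EP
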