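import Pool.Agent.H31EP.Bnd

/-!
# The Gauss-Bonnet sums as vacuum expectations of powers of the operator
-/

set_option autoImplicit false
set_option linter.unusedSectionVars false

namespace Pool.Agent.H31EP

open Finset Pool.Agent.TH594.HP Pool.Agent.TH594.HE

variable {J : Type*} [Fintype J] [DecidableEq J] {K : Type*} [Fintype K]

/-- forms in the first variables -/
noncomputable def E (f : Fk J) : F2 J := fun S => f S • (vac : Fk J)

theorem E_apply (f : Fk J) (S T : Finset J) : E f S T = f S * (vac : Fk J) T := rfl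

theorem sl_E (f : Fk J) (T : Finset J) : sl (E f) T = (vac : Fk J) T • f := by
  funext S
  show f S * vac T = vac T * f S
  ring

theorem cr1_E (i : J) (f : Fk J) : cr1 i (E f) = E (cr i f) := by
  refine ext_sl fun T => ?_
  rw [sl_cr1, sl_E, sl_E, map_smul]

theorem an2_E (i : J) (f : Fk J) : an2 i (E f) = 0 := by
  funext S
  rw [row_an2]
  show (-1 : ℝ) ^ S.card • an i (f S • vac) = 0
  rw [map_smul, an_vac, smul_zero, smul_zero]

theorem E_neg (f : Fk J) : E (-f) = - E f := by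
  funext S
  show (-f S) • vac = -(f S • vac)
  rw [neg_smul]

theorem E_add (f g : Fk J) : E (f + g) = E f + E g := by
  funext S
  show (f S + g S) • vac = f S • vac + g S • vac
  rw [add_smul]

theorem E_smul (t : ℝ) (f : Fk J) : E (t • f) = t • E f := by
  funext S
  show (t * f S) • vac = t • (f S • vac)
  rw [smul_smul]

theorem E_zero : E (0 : Fk J) = 0 := by
  funext S
  show (0 : ℝ) • (vac : Fk J) = 0
  rw [zero_smul]

theorem E_sum {I : Type*} (s : Finset I) (f : I → Fk J) :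
    E (∑ a ∈ s, f a) = ∑ a ∈ s, E (f a) := by
  classical
  induction s using Finset.induction_on with
  | empty => simp [E_zero]
  | insert a s ha ih => rw [Finset.sum_insert ha, Finset.sum_insert ha, E_add, ih]

theorem ip2_E (f g : Fk J) : ip2 (E f) (E g) = ip f g := by
  unfold ip2
  show ∑ S, ip (f S • vac) (g S • vac) = _
  simp only [ip_smul_left, ip_smul_right]
  have : ip (vac : Fk J) vac = 1 := nn_vac
  simp only [this, mul_one]
  exact Finset.sum_congr rfl fun S _ => mul_comm _ _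

/-- the second family on forms in the first variables -/
theorem cc_E (i : J) (f : Fk J) : cc i (E f) = - E (cr i f) := by
  show an2 i (E f) - cr1 i (E f) = _
  rw [an2_E, cr1_E, zero_sub]

theorem Cq_E (ν : Matrix J J ℝ) (f : Fk J) : Qd cc cc ν (E f) = E (LM ν f) := by
  rw [Qd_apply, LM_apply]
  simp only [cc_E, map_neg, neg_neg, E_sum, E_smul]

/-- the adjoint of the first family -/
theorem adj_bb (i : J) (F G : F2 J) : ip2 F (bb i G) = ip2 (cr1 i F + an2 i F) G := by
  show ip2 F (an1 i G + cr2 i G) = _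
  rw [ip2_add_right, ip2_add_left, adj1, adj2']

theorem adj_cc (i : J) (F G : F2 J) : ip2 F (cc i G) = ip2 (cr2 i F - an1 i F) G := by
  show ip2 F (an2 i G - cr1 i G) = _
  rw [ip2_sub_right, ip2_sub_left, adj2, adj1']

theorem bE (i : J) (f : Fk J) : cr1 i (E f) + an2 i (E f) = E (cr i f) := by
  rw [an2_E, cr1_E, add_zero]

theorem Bq_E (ν : Matrix J J ℝ) (f : Fk J) (G : F2 J) :
    ip2 (E f) (Qd bb bb ν G) = - ip2 (E (LM ν f)) G := by
  rw [Qd_apply, ip2_sum_right, LM_apply, E_sum, ip2_sum_left, ← Finset.sum_neg_distrib]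
  refine Finset.sum_congr rfl fun i _ => ?_
  rw [ip2_sum_right, E_sum, ip2_sum_left, ← Finset.sum_neg_distrib]
  refine Finset.sum_congr rfl fun j _ => ?_
  rw [ip2_smul_right, adj_bb, bE, adj_bb, bE, E_smul, ip2_smul_left, cr_cr j i, E_neg,
    ip2_neg_left]
  ring

/-- the recursion -/
theorem V_succ (μ : K → ℝ) (h : K → Matrix J J ℝ) (k : ℕ) (f : Fk J) :
    ip2 (E f) ((Xo μ h ^ (k + 1)) (E f)) =
      - ∑ p, μ p * ip2 (E (LM (h p) f)) ((Xo μ h ^ k) (E (LM (h p) f))) := by
  rw [pow_succ, Module.End.mul_apply]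
  have e1 : Xo μ h (E f) = ∑ p, μ p • Qd bb bb (h p) (E (LM (h p) f)) := by
    unfold Xo
    rw [Pc_apply]
    refine Finset.sum_congr rfl fun p _ => ?_
    rw [Cq_E]
  rw [e1, map_sum, ip2_sum_right, ← Finset.sum_neg_distrib]
  refine Finset.sum_congr rfl fun p _ => ?_
  have hc : Commute (Xo μ h ^ k) (Qd bb bb (h p)) := (Xo_comm μ h (h p)).pow_left k
  have e2 : (Xo μ h ^ k) (Qd bb bb (h p) (E (LM (h p) f))) =
      Qd bb bb (h p) ((Xo μ h ^ k) (E (LM (h p) f))) := by
    rw [← Module.End.mul_apply, hc.eq, Module.End.mul_apply]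
  rw [map_smul, e2, ip2_smul_right, Bq_E]
  ring

/-- the Gauss-Bonnet sums -/
theorem V_pow (μ : K → ℝ) (h : K → Matrix J J ℝ) (k : ℕ) : ∀ f : Fk J,
    ip2 (E f) ((Xo μ h ^ k) (E f)) = (-1) ^ k * ((Op μ (fun p i j => h p i j)) ^ k) nn f := by
  induction k with
  | zero =>
    intro f
    rw [pow_zero, pow_zero, pow_zero, one_mul]
    exact ip2_E f f
  | succ k ih =>
    intro f
    rw [V_succ, pow_succ' (Op μ fun p i j => h p i j), Module.End.mul_apply, Op_apply,
      pow_succ, mul_assoc, neg_one_mul, mul_neg, Finset.mul_sum]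
    congr 1
    refine Finset.sum_congr rfl fun p _ => ?_
    rw [ih]
    show μ p * ((-1) ^ k * ((Op μ fun p i j => h p i j) ^ k) nn (LM (h p) f)) =
      (-1) ^ k * (μ p * ((Op μ fun p i j => h p i j) ^ k) nn (LM (h p) f))
    ring

/-! ### the grading -/

/-- the grading by the degree in the first variables -/
noncomputable def U : Module.End ℝ (F2 J) where
  toFun F := fun S => (-1 : ℝ) ^ S.card • F S
  map_add' F G := by
    funext S
    exact smul_add _ _ _
  map_smul' t F := by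
    funext S
    exact smul_comm ((-1 : ℝ) ^ S.card) t (F S)

theorem U_row (F : F2 J) (S : Finset J) : (U F) S = (-1 : ℝ) ^ S.card • F S := rfl

theorem U_U (F : F2 J) : U (U F) = F := by
  funext S
  rw [U_row, U_row, smul_smul, sgn_sq, one_smul]

theorem ip2_U (F G : F2 J) : ip2 (U F) (U G) = ip2 F G := by
  unfold ip2
  refine Finset.sum_congr rfl fun S _ => ?_
  rw [U_row, U_row, ip_smul_left, ip_smul_right, ← mul_assoc, sgn_sq, one_mul]

theorem no_U (F : F2 J) : no (U F) = no F := by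
  unfold no nn2
  rw [ip2_U]

theorem U_an2 (i : J) (F : F2 J) : U (an2 i (U F)) = an2 i F := by
  funext S
  rw [U_row, row_an2, row_an2, U_row, map_smul, smul_smul, smul_smul, sgn_sq, one_mul]

theorem U_cr2 (i : J) (F : F2 J) : U (cr2 i (U F)) = cr2 i F := by
  funext S
  rw [U_row, row_cr2, row_cr2, U_row, map_smul, smul_smul, smul_smul, sgn_sq, one_mul]

theorem U_cr1 (i : J) (F : F2 J) : U (cr1 i (U F)) = - cr1 i F := by
  funext S
  show (U (cr1 i (U F))) S = -((cr1 i F) S)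
  rw [U_row, row_cr1 i (U F) S, row_cr1 i F S]
  by_cases h : i ∈ S
  · rw [if_pos h, if_pos h, U_row, card_flip h, smul_smul, smul_smul, ← neg_smul]
    congr 1
    have := sgn_sq S.card
    linear_combination (-(sg i S)) * this
  · rw [if_neg h, if_neg h, smul_zero, neg_zero]

theorem U_an1 (i : J) (F : F2 J) : U (an1 i (U F)) = - an1 i F := by
  funext S
  show (U (an1 i (U F))) S = -((an1 i F) S)
  rw [U_row, row_an1 i (U F) S, row_an1 i F S]
  by_cases h : i ∈ S
  · rw [if_pos h, if_pos h, smul_zero, neg_zero]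
  · rw [if_neg h, if_neg h, U_row, card_flip' h, smul_smul, smul_smul, ← neg_smul]
    congr 1
    have := sgn_sq S.card
    linear_combination (-(sg i S)) * this

theorem adj_bb' (i : J) (F G : F2 J) : ip2 F (bb i G) = ip2 (U (cc i (U F))) G := by
  rw [adj_bb]
  congr 1
  show _ = U (an2 i (U F) - cr1 i (U F))
  rw [map_sub, U_an2, U_cr1]
  abel

theorem adj_cc' (i : J) (F G : F2 J) : ip2 F (cc i G) = ip2 (U (bb i (U F))) G := by
  rw [adj_cc]
  congr 1
  show _ = U (an1 i (U F) + cr2 i (U F))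
  rw [map_add, U_cr2, U_an1]
  abel

theorem adj_Bq {ν : Matrix J J ℝ} (hν : ∀ i j, ν j i = - ν i j) (F G : F2 J) :
    ip2 F (Qd bb bb ν G) = - ip2 (U (Qd cc cc ν (U F))) G := by
  rw [Qd_apply, Qd_apply, ip2_sum_right, map_sum, ip2_sum_left]
  have h1 : ∀ i, ip2 F (∑ j, ν i j • bb i (bb j G)) =
      ∑ j, ν i j * ip2 (U (cc j (cc i (U F)))) G := by
    intro i
    rw [ip2_sum_right]
    refine Finset.sum_congr rfl fun j _ => ?_
    rw [ip2_smul_right, adj_bb', adj_bb', U_U]
  have h2 : ∀ i, ip2 (U (∑ j, ν i j • cc i (cc j (U F)))) G =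
      ∑ j, ν i j * ip2 (U (cc i (cc j (U F)))) G := by
    intro i
    rw [map_sum, ip2_sum_left]
    refine Finset.sum_congr rfl fun j _ => ?_
    rw [map_smul, ip2_smul_left]
  simp only [h1, h2]
  rw [Finset.sum_comm, ← Finset.sum_neg_distrib]
  refine Finset.sum_congr rfl fun j _ => ?_
  rw [← Finset.sum_neg_distrib]
  refine Finset.sum_congr rfl fun i _ => ?_
  rw [hν j i]
  ring

theorem adj_Cq {ν : Matrix J J ℝ} (hν : ∀ i j, ν j i = - ν i j) (F G : F2 J) :
    ip2 F (Qd cc cc ν G) = - ip2 (U (Qd bb bb ν (U F))) G := by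
  rw [Qd_apply, Qd_apply, ip2_sum_right, map_sum, ip2_sum_left]
  have h1 : ∀ i, ip2 F (∑ j, ν i j • cc i (cc j G)) =
      ∑ j, ν i j * ip2 (U (bb j (bb i (U F)))) G := by
    intro i
    rw [ip2_sum_right]
    refine Finset.sum_congr rfl fun j _ => ?_
    rw [ip2_smul_right, adj_cc', adj_cc', U_U]
  have h2 : ∀ i, ip2 (U (∑ j, ν i j • bb i (bb j (U F)))) G =
      ∑ j, ν i j * ip2 (U (bb i (bb j (U F)))) G := by
    intro i
    rw [map_sum, ip2_sum_left]
    refine Finset.sum_congr rfl fun j _ => ?_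
    rw [map_smul, ip2_smul_left]
  simp only [h1, h2]
  rw [Finset.sum_comm, ← Finset.sum_neg_distrib]
  refine Finset.sum_congr rfl fun j _ => ?_
  rw [← Finset.sum_neg_distrib]
  refine Finset.sum_congr rfl fun i _ => ?_
  rw [hν j i]
  ring

/-- the adjoint of the operator -/
theorem adj_Xo {h : K → Matrix J J ℝ} {μ : K → ℝ} {δ : ℝ} (hf : Fam h μ δ) (F G : F2 J) :
    ip2 F (Xo μ h G) = ip2 (U (Xo μ h (U F))) G := by
  unfold Xo
  rw [Pc_apply, Pc_apply, ip2_sum_right, map_sum, ip2_sum_left]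
  refine Finset.sum_congr rfl fun p _ => ?_
  rw [ip2_smul_right, map_smul, ip2_smul_left, adj_Bq (hf.sk p), adj_Cq (hf.sk p), neg_neg, U_U]

theorem U_E_vac : U (E (vac : Fk J)) = E vac := by
  funext S
  rw [U_row]
  show (-1 : ℝ) ^ S.card • ((vac : Fk J) S • vac) = (vac : Fk J) S • vac
  by_cases h : S = ∅
  · rw [h]; simp
  · have : (vac : Fk J) S = 0 := by simp [vac, h]
    rw [this, zero_smul, smul_zero]

theorem adj_pow {h : K → Matrix J J ℝ} {μ : K → ℝ} {δ : ℝ} (hf : Fam h μ δ) (k : ℕ) :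
    ∀ F G : F2 J, ip2 F ((Xo μ h ^ k) G) = ip2 (U ((Xo μ h ^ k) (U F))) G := by
  induction k with
  | zero =>
    intro F G
    rw [pow_zero, Module.End.one_apply, Module.End.one_apply, U_U]
  | succ k ih =>
    intro F G
    have e1 : ∀ Y : F2 J, (Xo μ h ^ (k + 1)) Y = (Xo μ h ^ k) (Xo μ h Y) := by
      intro Y
      rw [pow_succ, Module.End.mul_apply]
    have e2 : ∀ Y : F2 J, (Xo μ h ^ (k + 1)) Y = Xo μ h ((Xo μ h ^ k) Y) := by
      intro Y
      rw [pow_succ', Module.End.mul_apply]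
    rw [e1, ih, adj_Xo hf, U_U, e2]

/-- the meeting of two vectors -/
theorem meet {h : K → Matrix J J ℝ} {μ : K → ℝ} {δ : ℝ} (hf : Fam h μ δ) (j k : ℕ) :
    |((Op μ (fun p i j => h p i j)) ^ (j + k)) nn vac| ≤
      no ((Xo μ h ^ j) (E vac)) * no ((Xo μ h ^ k) (E vac)) := by
  have h1 := V_pow μ h (j + k) (vac : Fk J)
  rw [pow_add, Module.End.mul_apply, adj_pow hf, U_E_vac] at h1
  have h2 := cs_abs (U ((Xo μ h ^ j) (E vac))) ((Xo μ h ^ k) (E vac))
  rw [h1, no_U, abs_mul, abs_pow, abs_neg, abs_one, one_pow, one_mul] at h2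
  exact h2

/-- the first vector -/
theorem first_eq {h : K → Matrix J J ℝ} {μ : K → ℝ} {δ : ℝ} (hf : Fam h μ δ) :
    Xo μ h (E vac) = ∑ p, μ p • Qd cr2 cr2 (h p) (E (LM (h p) vac)) := by
  rw [Xo_eq hf]
  simp only [LinearMap.add_apply, LinearMap.sub_apply, LinearMap.smul_apply]
  have z1 : ∀ (i : J), an1 i (E (vac : Fk J)) = 0 := by
    intro i
    refine ext_sl fun T => ?_
    rw [sl_an1, sl_E, map_smul, an_vac, smul_zero]
    rfl
  have z2 : ∀ (i : J), an2 i (E (vac : Fk J)) = 0 := fun i => an2_E i _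
  have p1 : Pc μ h an1 an1 an2 an2 (E vac) = 0 := by
    rw [Pc_apply]
    refine Finset.sum_eq_zero fun p _ => ?_
    rw [Qd_apply an2 an2]
    simp [z2]
  have p2 : Pc μ h an2 cr1 an1 an1 (E vac) = 0 := by
    rw [Pc_apply]
    refine Finset.sum_eq_zero fun p _ => ?_
    rw [Qd_apply an1 an1]
    simp [z1]
  have p3 : Pc μ h cr1 cr1 an1 an1 (E vac) = 0 := by
    rw [Pc_apply]
    refine Finset.sum_eq_zero fun p _ => ?_
    rw [Qd_apply an1 an1]
    simp [z1]
  have p4 : Pc μ h an1 cr2 an2 an2 (E vac) = 0 := by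
    rw [Pc_apply]
    refine Finset.sum_eq_zero fun p _ => ?_
    rw [Qd_apply an2 an2]
    simp [z2]
  have y : ∀ i j : J, an2 i (cr1 j (E (vac : Fk J))) = 0 := by
    intro i j
    rw [cr1_E, an2_E]
  have p5 : Pc μ h an1 cr2 an2 cr1 (E vac) = 0 := by
    rw [Pc_apply]
    refine Finset.sum_eq_zero fun p _ => ?_
    rw [Qd_apply an2 cr1]
    simp [y]
  have y' : ∀ i j : J, an1 i (cr2 j (E (vac : Fk J))) = 0 := by
    intro i j
    rw [← Module.End.mul_apply, an1_cr2, LinearMap.neg_apply, Module.End.mul_apply, z1,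
      map_zero, neg_zero]
  have p6 : Pc μ h cr1 cr1 an1 cr2 (E vac) = 0 := by
    rw [Pc_apply]
    refine Finset.sum_eq_zero fun p _ => ?_
    rw [Qd_apply an1 cr2]
    simp [y']
  have p7 : Pc μ h cr2 cr2 an2 an2 (E vac) = 0 := by
    rw [Pc_apply]
    refine Finset.sum_eq_zero fun p _ => ?_
    rw [Qd_apply an2 an2]
    simp [z2]
  have p8 : Pc μ h cr2 cr2 an2 cr1 (E vac) = 0 := by
    rw [Pc_apply]
    refine Finset.sum_eq_zero fun p _ => ?_
    rw [Qd_apply an2 cr1]
    simp [y]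
  rw [p1, p2, p3, p4, p5, p6, p7, p8]
  simp only [smul_zero, sub_zero, add_zero, zero_add]
  rw [Pc_apply]
  refine Finset.sum_congr rfl fun p _ => ?_
  congr 2
  rw [Qd_apply, LM_apply]
  simp only [cr1_E, E_sum, E_smul]

theorem row_Qd (ν : Matrix J J ℝ) (f : Fk J) (S : Finset J) :
    (Qd cr2 cr2 ν (E f)) S = f S • LM ν vac := by
  have e3 : ∀ i j : J, (cr2 i (cr2 j (E f))) S = f S • cr i (cr j vac) := by
    intro i j
    rw [row_cr2, row_cr2, map_smul, smul_smul, sgn_sq, one_smul]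
    show cr i (cr j (f S • vac)) = _
    rw [map_smul, map_smul]
  rw [Qd_apply, LM_apply]
  rw [Finset.sum_apply, Finset.smul_sum]
  refine Finset.sum_congr rfl fun i _ => ?_
  rw [Finset.sum_apply, Finset.smul_sum]
  refine Finset.sum_congr rfl fun j _ => ?_
  show ν i j • (cr2 i (cr2 j (E f))) S = _
  rw [e3, smul_comm]

theorem first_row {h : K → Matrix J J ℝ} {μ : K → ℝ} {δ : ℝ} (hf : Fam h μ δ) (S : Finset J) :
    (Xo μ h (E vac)) S = ∑ p, μ p • (LM (h p) vac S • LM (h p) vac) := by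
  rw [first_eq hf, Finset.sum_apply]
  refine Finset.sum_congr rfl fun p _ => ?_
  show μ p • (Qd cr2 cr2 (h p) (E (LM (h p) vac))) S = _
  rw [row_Qd]

theorem nn2_first [DecidableEq K] {h : K → Matrix J J ℝ} {μ : K → ℝ} {δ : ℝ} (hf : Fam h μ δ)
    (ho : ∀ p q, sp (h p) (h q) = if p = q then 1 else 0) :
    no (Xo μ h (E vac)) ^ 2 = 16 * ∑ p, μ p ^ 2 := by
  have hskM : ∀ p, Sk (h p) := fun p => hf.sk p
  have e1 := first_eq hf
  have e2 := row_Qd (J := J)
  have e4 : ∀ p q, ip2 (Qd cr2 cr2 (h p) (E (LM (h p) vac)))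
      (Qd cr2 cr2 (h q) (E (LM (h q) vac))) = if p = q then 16 else 0 := by
    intro p q
    unfold ip2
    simp only [e2, ip_smul_left, ip_smul_right]
    have h1 : ip (LM (h p) (vac : Fk J)) (LM (h q) vac) = if p = q then 4 else 0 := by
      rw [ip_two (hskM p), ho]
      split_ifs <;> norm_num
    have h2 : ∑ S, LM (h q) vac S * (LM (h p) vac S * ip (LM (h p) (vac : Fk J)) (LM (h q) vac)) =
        ip (LM (h p) (vac : Fk J)) (LM (h q) vac) * ip (LM (h p) (vac : Fk J)) (LM (h q) vac) := by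
      conv_rhs => rw [ip, Finset.sum_mul]
      exact Finset.sum_congr rfl fun S _ => by unfold ip; ring
    rw [h2, h1]
    split_ifs <;> norm_num
  rw [no_sq, e1]
  unfold nn2
  rw [ip2_sum_left, Finset.mul_sum]
  refine Finset.sum_congr rfl fun p _ => ?_
  rw [ip2_sum_right, Finset.sum_eq_single p]
  · rw [ip2_smul_left, ip2_smul_right, e4, if_pos rfl]
    ring
  · intro q _ hq
    rw [ip2_smul_left, ip2_smul_right, e4, if_neg (Ne.symm hq)]
    ring
  · simp

end Pool.Agent.H31EP
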