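import Pool.Agent.H31EP.Nrm
import Pool.Agent.TH594.HE.Fk

/-!
# Orthonormal families of two-forms with weights

The family `h p` is an orthonormal basis of the skew matrices, `μ p` are the eigenvalues (of absolute
value at most `δ`) of a symmetric operator on them whose Ricci contraction vanishes.
-/

set_option autoImplicit false
set_option linter.unusedSectionVars false

namespace Pool.Agent.H31EP

open Finset Pool.Agent.TH594.HP Pool.Agent.TH594.HE

variable {J : Type*} [Fintype J] [DecidableEq J] {K : Type*} [Fintype K]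

/-- the data -/
structure Fam (h : K → Matrix J J ℝ) (μ : K → ℝ) (δ : ℝ) : Prop where
  sk : ∀ p i j, h p j i = - h p i j
  comp : ∀ i j k l, ∑ p, h p i j * h p k l =
    (if i = k then 1 else 0) * (if j = l then 1 else 0) -
      (if i = l then 1 else 0) * (if j = k then 1 else 0)
  bd : ∀ p, |μ p| ≤ δ
  ric : ∀ j l, ∑ p, μ p * ∑ i, h p i j * h p i l = 0

/-- quadratic operators -/
noncomputable def Qd (u u' : J → Module.End ℝ (F2 J)) (ν : Matrix J J ℝ) : Module.End ℝ (F2 J) :=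
  ∑ i, ∑ j, ν i j • (u i * u' j)

theorem Qd_apply (u u' : J → Module.End ℝ (F2 J)) (ν : Matrix J J ℝ) (F : F2 J) :
    Qd u u' ν F = ∑ i, ∑ j, ν i j • u i (u' j F) := by
  simp [Qd, LinearMap.sum_apply]

/-- a piece of the operator -/
noncomputable def Pc (μ : K → ℝ) (h : K → Matrix J J ℝ) (u u' v v' : J → Module.End ℝ (F2 J)) :
    Module.End ℝ (F2 J) := ∑ p, μ p • (Qd u u' (h p) * Qd v v' (h p))

theorem Pc_apply (μ : K → ℝ) (h : K → Matrix J J ℝ) (u u' v v' : J → Module.End ℝ (F2 J))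
    (F : F2 J) : Pc μ h u u' v v' F = ∑ p, μ p • Qd u u' (h p) (Qd v v' (h p) F) := by
  simp [Pc, LinearMap.sum_apply]

/-- expansion of a sum of squares -/
theorem sumsq {h : K → Matrix J J ℝ} {μ : K → ℝ} {δ : ℝ} (hf : Fam h μ δ) (x : J → J → F2 J) :
    ∑ p, nn2 (∑ i, ∑ j, h p i j • x i j) = ∑ i, ∑ j, (nn2 (x i j) - ip2 (x i j) (x j i)) := by
  have h1 : ∀ p, nn2 (∑ i, ∑ j, h p i j • x i j) =
      ∑ i, ∑ j, ∑ k, ∑ l, h p i j * h p k l * ip2 (x i j) (x k l) := by
    intro p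
    unfold nn2
    rw [ip2_sum_left]
    refine Finset.sum_congr rfl fun i _ => ?_
    rw [ip2_sum_left]
    refine Finset.sum_congr rfl fun j _ => ?_
    rw [ip2_sum_right]
    refine Finset.sum_congr rfl fun k _ => ?_
    rw [ip2_sum_right]
    refine Finset.sum_congr rfl fun l _ => ?_
    rw [ip2_smul_left, ip2_smul_right]
    ring
  simp only [h1]
  rw [Finset.sum_comm]
  refine Finset.sum_congr rfl fun i _ => ?_
  rw [Finset.sum_comm]
  refine Finset.sum_congr rfl fun j _ => ?_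
  rw [Finset.sum_comm]
  have h2 : ∀ k, ∑ p, ∑ l, h p i j * h p k l * ip2 (x i j) (x k l) =
      (if i = k then ip2 (x i j) (x k j) else 0) - (if j = k then ip2 (x i j) (x k i) else 0) := by
    intro k
    rw [Finset.sum_comm]
    have h3 : ∀ l, ∑ p, h p i j * h p k l * ip2 (x i j) (x k l) =
        ((if i = k then 1 else 0) * (if j = l then 1 else 0) -
          (if i = l then 1 else 0) * (if j = k then 1 else 0)) * ip2 (x i j) (x k l) := by
      intro l
      rw [← Finset.sum_mul, hf.comp]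
    simp only [h3, sub_mul, Finset.sum_sub_distrib]
    congr 1
    · by_cases hik : i = k
      · simp [hik]
      · simp [hik]
    · by_cases hjk : j = k
      · simp [hjk]
      · simp [hjk]
  simp only [h2, Finset.sum_sub_distrib]
  simp [nn2]

theorem sumsq_le {h : K → Matrix J J ℝ} {μ : K → ℝ} {δ : ℝ} (hf : Fam h μ δ) (x : J → J → F2 J) :
    ∑ p, nn2 (∑ i, ∑ j, h p i j • x i j) ≤ 2 * ∑ i, ∑ j, nn2 (x i j) := by
  rw [sumsq hf]
  have h1 : ∀ i j, nn2 (x i j) - ip2 (x i j) (x j i) ≤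
      nn2 (x i j) + (1 / 2) * (nn2 (x i j) + nn2 (x j i)) := by
    intro i j
    have h2 := nn2_nonneg (x i j + x j i)
    have e : nn2 (x i j + x j i) = nn2 (x i j) + 2 * ip2 (x i j) (x j i) + nn2 (x j i) := by
      unfold nn2
      rw [ip2_add_left, ip2_add_right, ip2_add_right, ip2_comm (x j i) (x i j)]
      ring
    rw [e] at h2
    linarith
  have h3 : ∑ i, ∑ j, (nn2 (x i j) - ip2 (x i j) (x j i)) ≤
      ∑ i, ∑ j, (nn2 (x i j) + (1 / 2) * (nn2 (x i j) + nn2 (x j i))) :=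
    Finset.sum_le_sum fun i _ => Finset.sum_le_sum fun j _ => h1 i j
  refine h3.trans (le_of_eq ?_)
  simp only [Finset.sum_add_distrib, ← Finset.mul_sum]
  have h4 : ∑ i, ∑ j, nn2 (x j i) = ∑ i, ∑ j, nn2 (x i j) := Finset.sum_comm
  rw [h4]
  ring

/-- Cauchy-Schwarz with weights -/
theorem cs_fam {μ : K → ℝ} {δ : ℝ} (hμ : ∀ p, |μ p| ≤ δ) (Y Z : K → F2 J) :
    |∑ p, μ p * ip2 (Y p) (Z p)| ≤
      δ * (Real.sqrt (∑ p, nn2 (Y p)) * Real.sqrt (∑ p, nn2 (Z p))) := by
  have h1 : |∑ p, μ p * ip2 (Y p) (Z p)| ≤ ∑ p, δ * (no (Y p) * no (Z p)) := by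
    refine (Finset.abs_sum_le_sum_abs _ _).trans (Finset.sum_le_sum fun p _ => ?_)
    rw [abs_mul]
    exact mul_le_mul (hμ p) (cs_abs _ _) (abs_nonneg _) ((abs_nonneg _).trans (hμ p))
  have h2 : ∑ p, no (Y p) * no (Z p) ≤
      Real.sqrt (∑ p, nn2 (Y p)) * Real.sqrt (∑ p, nn2 (Z p)) :=
    Real.sum_sqrt_mul_sqrt_le _ (fun p => nn2_nonneg _) (fun p => nn2_nonneg _)
  rw [← Finset.mul_sum] at h1
  rcases isEmpty_or_nonempty K with hK | ⟨⟨p⟩⟩
  · simp
  · exact h1.trans (mul_le_mul_of_nonneg_left h2 ((abs_nonneg _).trans (hμ p)))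

/-- adjoint operators -/
def Adj (u w : J → Module.End ℝ (F2 J)) : Prop := ∀ i F G, ip2 F (u i G) = ip2 (w i F) G

theorem adj_cr1 : Adj (cr1 (J := J)) an1 := fun i F G => (adj1' i F G).symm
theorem adj_an1 : Adj (an1 (J := J)) cr1 := fun i F G => (adj1 i F G).symm
theorem adj_cr2 : Adj (cr2 (J := J)) an2 := fun i F G => (adj2' i F G).symm
theorem adj_an2 : Adj (an2 (J := J)) cr2 := fun i F G => (adj2 i F G).symm

/-- the norm of a piece -/
theorem piece {h : K → Matrix J J ℝ} {μ : K → ℝ} {δ : ℝ} (hf : Fam h μ δ) (hδ : 0 ≤ δ)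
    {u u' v v' w w' : J → Module.End ℝ (F2 J)} (hu : Adj u w) (hu' : Adj u' w')
    {F : F2 J} {a b : ℝ} (ha : 0 ≤ a) (hb : 0 ≤ b)
    (h1 : ∑ i, ∑ j, nn2 (w' j (w i (Pc μ h u u' v v' F))) ≤ a * nn2 (Pc μ h u u' v v' F))
    (h2 : ∑ i, ∑ j, nn2 (v i (v' j F)) ≤ b * nn2 F) :
    no (Pc μ h u u' v v' F) ≤ 2 * δ * Real.sqrt (a * b) * no F := by
  set φ := Pc μ h u u' v v' F with hφ
  refine no_le_of_dual (by have := no_nonneg F; positivity) ?_
  have e1 : ip2 φ φ = ∑ p, μ p * ip2 (∑ i, ∑ j, h p i j • w' j (w i φ))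
      (∑ i, ∑ j, h p i j • v i (v' j F)) := by
    conv_lhs => rw [hφ]
    rw [← hφ]
    have e2 : ip2 φ (Pc μ h u u' v v' F) = ∑ p, μ p * ip2 (∑ i, ∑ j, h p i j • w' j (w i φ))
        (∑ i, ∑ j, h p i j • v i (v' j F)) := by
      rw [Pc_apply, ip2_sum_right]
      refine Finset.sum_congr rfl fun p _ => ?_
      rw [ip2_smul_right, ← Qd_apply v v' (h p) F]
      congr 1
      rw [Qd_apply u u', ip2_sum_right, ip2_sum_left]
      refine Finset.sum_congr rfl fun i _ => ?_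
      rw [ip2_sum_right, ip2_sum_left]
      refine Finset.sum_congr rfl fun j _ => ?_
      rw [ip2_smul_right, ip2_smul_left, hu, hu']
    exact e2
  rw [e1]
  refine (cs_fam hf.bd _ _).trans ?_
  have h3 : Real.sqrt (∑ p, nn2 (∑ i, ∑ j, h p i j • w' j (w i φ))) ≤
      Real.sqrt (2 * (a * nn2 φ)) := by
    refine Real.sqrt_le_sqrt ((sumsq_le hf _).trans ?_)
    linarith
  have h4 : Real.sqrt (∑ p, nn2 (∑ i, ∑ j, h p i j • v i (v' j F))) ≤
      Real.sqrt (2 * (b * nn2 F)) := by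
    refine Real.sqrt_le_sqrt ((sumsq_le hf _).trans ?_)
    linarith
  have h5 : Real.sqrt (2 * (a * nn2 φ)) * Real.sqrt (2 * (b * nn2 F)) =
      2 * Real.sqrt (a * b) * no F * no φ := by
    unfold no
    rw [Real.sqrt_mul (by norm_num), Real.sqrt_mul ha, Real.sqrt_mul (by norm_num),
      Real.sqrt_mul hb, Real.sqrt_mul ha]
    have : Real.sqrt 2 * Real.sqrt 2 = 2 := Real.mul_self_sqrt (by norm_num)
    linear_combination (Real.sqrt a * Real.sqrt b * Real.sqrt (nn2 φ) * Real.sqrt (nn2 F)) * this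
  calc δ * (Real.sqrt (∑ p, nn2 (∑ i, ∑ j, h p i j • w' j (w i φ))) *
        Real.sqrt (∑ p, nn2 (∑ i, ∑ j, h p i j • v i (v' j F))))
      ≤ δ * (Real.sqrt (2 * (a * nn2 φ)) * Real.sqrt (2 * (b * nn2 F))) := by
        refine mul_le_mul_of_nonneg_left ?_ hδ
        exact mul_le_mul h3 h4 (Real.sqrt_nonneg _) (Real.sqrt_nonneg _)
    _ = 2 * δ * Real.sqrt (a * b) * no F * no φ := by rw [h5]; ring

/-! ### exchanging two quadratic operators -/

/-- the tensor -/
noncomputable def At (μ : K → ℝ) (h : K → Matrix J J ℝ) (i j k l : J) : ℝ :=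
  ∑ p, μ p * (h p i j * h p k l)

theorem Pc_expand (μ : K → ℝ) (h : K → Matrix J J ℝ) (u u' v v' : J → Module.End ℝ (F2 J)) :
    Pc μ h u u' v v' =
      ∑ i, ∑ j, ∑ k, ∑ l, At μ h i j k l • ((u i * u' j) * (v k * v' l)) := by
  have h1 : ∀ p, μ p • (Qd u u' (h p) * Qd v v' (h p)) =
      ∑ i, ∑ j, ∑ k, ∑ l, (μ p * (h p i j * h p k l)) • ((u i * u' j) * (v k * v' l)) := by
    intro p
    unfold Qd
    rw [Finset.sum_mul, Finset.smul_sum]
    refine Finset.sum_congr rfl fun i _ => ?_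
    rw [Finset.sum_mul, Finset.smul_sum]
    refine Finset.sum_congr rfl fun j _ => ?_
    rw [Finset.mul_sum, Finset.smul_sum]
    refine Finset.sum_congr rfl fun k _ => ?_
    rw [Finset.mul_sum, Finset.smul_sum]
    refine Finset.sum_congr rfl fun l _ => ?_
    rw [smul_mul_smul_comm, smul_smul]
  unfold Pc
  simp only [h1]
  rw [Finset.sum_comm]
  refine Finset.sum_congr rfl fun i _ => ?_
  rw [Finset.sum_comm]
  refine Finset.sum_congr rfl fun j _ => ?_
  rw [Finset.sum_comm]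
  refine Finset.sum_congr rfl fun k _ => ?_
  rw [Finset.sum_comm]
  refine Finset.sum_congr rfl fun l _ => ?_
  rw [At, Finset.sum_smul]

section ricci

variable {h : K → Matrix J J ℝ} {μ : K → ℝ} {δ : ℝ}

theorem At_12 (hf : Fam h μ δ) (i j k l : J) : At μ h j i k l = - At μ h i j k l := by
  unfold At
  rw [← Finset.sum_neg_distrib]
  exact Finset.sum_congr rfl fun p _ => by rw [hf.sk p i j]; ring

theorem At_34 (hf : Fam h μ δ) (i j k l : J) : At μ h i j l k = - At μ h i j k l := by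
  unfold At
  rw [← Finset.sum_neg_distrib]
  exact Finset.sum_congr rfl fun p _ => by rw [hf.sk p k l]; ring

theorem ric_ik (hf : Fam h μ δ) (j l : J) : ∑ i, At μ h i j i l = 0 := by
  unfold At
  rw [Finset.sum_comm]
  have := hf.ric j l
  rw [← this]
  exact Finset.sum_congr rfl fun p _ => by rw [Finset.mul_sum]

theorem ric_jk (hf : Fam h μ δ) (i l : J) : ∑ j, At μ h i j j l = 0 := by
  have h1 := ric_ik hf i l
  have h2 : ∑ j, At μ h i j j l = - ∑ j, At μ h j i j l := by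
    rw [← Finset.sum_neg_distrib]
    exact Finset.sum_congr rfl fun j _ => At_12 hf _ _ _ _
  rw [h2, h1, neg_zero]

theorem ric_jl (hf : Fam h μ δ) (i k : J) : ∑ j, At μ h i j k j = 0 := by
  have h1 := ric_jk hf i k
  have h2 : ∑ j, At μ h i j k j = - ∑ j, At μ h i j j k := by
    rw [← Finset.sum_neg_distrib]
    exact Finset.sum_congr rfl fun j _ => At_34 hf _ _ _ _
  rw [h2, h1, neg_zero]

theorem ric_il (hf : Fam h μ δ) (j k : J) : ∑ i, At μ h i j k i = 0 := by
  have h1 := ric_ik hf j k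
  have h2 : ∑ i, At μ h i j k i = - ∑ i, At μ h i j i k := by
    rw [← Finset.sum_neg_distrib]
    exact Finset.sum_congr rfl fun j _ => At_34 hf _ _ _ _
  rw [h2, h1, neg_zero]

end ricci

end Pool.Agent.H31EP
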