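import Pool.Agent.H31EP.Gex
import Pool.Agent.TH594.HE.Pt

/-!
# Einstein curvature tensors with pinched curvature operator
-/

set_option autoImplicit false
set_option linter.unusedSectionVars false

namespace Pool.Agent.H31EP

open Finset Pool.Agent.TH594.HP Pool.Agent.TH594.HE
open Pool.Agent.W666.GB (AlgCurv gbc scal roundGB unitCurv CurvField)
open Pool.Agent.W669.HD (T4 gm cp negT addT unitT OpNonneg BiForm gbc_eq cp_unit unit_bi unit_curv
  add_curv)

variable {m : ℕ} {V : Type} [NormedAddCommGroup V] [InnerProductSpace ℝ V]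

/-- the squared norm of the difference of `R` and the tensor of constant curvature `κ` -/
noncomputable def weylSq (e : OrthonormalBasis (Fin m × Bool) ℝ V) (R : V → V → V → V → ℝ)
    (κ : ℝ) : ℝ :=
  ∑ i, ∑ j, ∑ k, ∑ l, (R (e i) (e j) (e k) (e l) - κ * unitT (e i) (e j) (e k) (e l)) ^ 2

/-- the second order term of the comparison -/
noncomputable def wterm (e : OrthonormalBasis (Fin m × Bool) ℝ V) (R : V → V → V → V → ℝ)
    (κ : ℝ) : ℝ :=
  weylSq e R κ / (8 * κ ^ 2 * ((2 * m - 1) * (2 * m - 3)))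

/-- all eigenvalues of the curvature operator lie in the interval `[a, b]` -/
def CurvOpIn (R : V → V → V → V → ℝ) (a b : ℝ) : Prop :=
  OpNonneg (addT R fun x y z w => -a * unitT x y z w) ∧
    OpNonneg (addT (negT R) fun x y z w => b * unitT x y z w)

section matrices

variable {J : Type*} [Fintype J] [DecidableEq J] {K : Type*} [Fintype K] [DecidableEq K]

omit [DecidableEq J] in
/-- the squared norm of an operator -/
theorem sumsq_mu {h : K → Matrix J J ℝ} {μ : K → ℝ}
    (ho : ∀ p q, sp (h p) (h q) = if p = q then 1 else 0) :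
    ∑ i, ∑ j, ∑ k, ∑ l, (∑ p, μ p * (h p i j * h p k l)) ^ 2 = 4 * ∑ p, μ p ^ 2 := by
  have h1 : ∀ i j k l, (∑ p, μ p * (h p i j * h p k l)) ^ 2 =
      ∑ p, ∑ q, μ p * μ q * ((h p i j * h q i j) * (h p k l * h q k l)) := by
    intro i j k l
    rw [pow_two, Finset.sum_mul_sum]
    exact Finset.sum_congr rfl fun p _ => Finset.sum_congr rfl fun q _ => by ring
  have h2 : ∑ i, ∑ j, ∑ k, ∑ l, (∑ p, μ p * (h p i j * h p k l)) ^ 2 =
      ∑ p, ∑ q, μ p * μ q * ((∑ i, ∑ j, h p i j * h q i j) * (∑ i, ∑ j, h p i j * h q i j)) := by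
    simp only [h1]
    have e1 : ∀ F : K → K → J → J → J → J → ℝ,
        ∑ i, ∑ j, ∑ k, ∑ l, ∑ p, ∑ q, F p q i j k l =
          ∑ p, ∑ q, ∑ i, ∑ j, ∑ k, ∑ l, F p q i j k l := by
      intro F
      have e2 : ∀ i j k l, ∑ p, ∑ q, F p q i j k l = ∑ r : K × K, F r.1 r.2 i j k l := by
        intro i j k l
        rw [Fintype.sum_prod_type]
      simp only [e2]
      rw [← Fintype.sum_prod_type (fun r : K × K => ∑ i, ∑ j, ∑ k, ∑ l, F r.1 r.2 i j k l)]
      calc ∑ i, ∑ j, ∑ k, ∑ l, ∑ r : K × K, F r.1 r.2 i j k l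
          = ∑ i, ∑ j, ∑ k, ∑ r : K × K, ∑ l, F r.1 r.2 i j k l := by
            refine Finset.sum_congr rfl fun i _ => Finset.sum_congr rfl fun j _ =>
              Finset.sum_congr rfl fun k _ => Finset.sum_comm
        _ = ∑ i, ∑ j, ∑ r : K × K, ∑ k, ∑ l, F r.1 r.2 i j k l := by
            refine Finset.sum_congr rfl fun i _ => Finset.sum_congr rfl fun j _ => Finset.sum_comm
        _ = ∑ i, ∑ r : K × K, ∑ j, ∑ k, ∑ l, F r.1 r.2 i j k l := by
            refine Finset.sum_congr rfl fun i _ => Finset.sum_comm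
        _ = _ := Finset.sum_comm
    rw [e1]
    refine Finset.sum_congr rfl fun p _ => Finset.sum_congr rfl fun q _ => ?_
    rw [Finset.sum_mul, Finset.mul_sum]
    refine Finset.sum_congr rfl fun i _ => ?_
    rw [Finset.sum_mul, Finset.mul_sum]
    refine Finset.sum_congr rfl fun j _ => ?_
    rw [Finset.mul_sum, Finset.mul_sum]
    refine Finset.sum_congr rfl fun k _ => ?_
    rw [Finset.mul_sum, Finset.mul_sum]
  have h3 : ∀ p q, ∑ i, ∑ j, h p i j * h q i j = if p = q then 2 else 0 := by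
    intro p q
    have := ho p q
    unfold sp at this
    split_ifs at this ⊢ <;> linarith
  rw [h2, Finset.mul_sum]
  refine Finset.sum_congr rfl fun p _ => ?_
  rw [Finset.sum_eq_single p]
  · rw [h3, if_pos rfl]; ring
  · intro q _ hq
    rw [h3, if_neg (Ne.symm hq)]; ring
  · simp

omit [DecidableEq J] in
/-- an upper bound of the operator bounds the eigenvalues -/
theorem eig_le {h : K → Matrix J J ℝ} {lam : K → ℝ} {b : ℝ} {n : ℕ} (τ : Fin n → J → J → ℝ)
    (ho : ∀ p q, sp (h p) (h q) = if p = q then 1 else 0)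
    (hU : J → J → J → J → ℝ)
    (hu : ∀ p, ∑ i, ∑ j, ∑ k, ∑ l, h p i j * h p k l * hU i j k l = 4)
    (hτ : ∀ i j k l, b * hU i j k l - ∑ p, lam p * (h p i j * h p k l) =
      ∑ a, τ a i j * τ a k l) (q : K) : lam q ≤ b := by
  have h3 : ∀ p, ∑ i, ∑ j, h p i j * h q i j = if p = q then 2 else 0 := by
    intro p
    have := ho p q
    unfold sp at this
    split_ifs at this ⊢ <;> linarith
  have h1 : ∑ i, ∑ j, ∑ k, ∑ l, h q i j * h q k l * ∑ a, τ a i j * τ a k l =
      ∑ a, (∑ i, ∑ j, h q i j * τ a i j) ^ 2 := by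
    have e1 : ∀ a, (∑ i, ∑ j, h q i j * τ a i j) ^ 2 =
        ∑ i, ∑ j, ∑ k, ∑ l, h q i j * h q k l * (τ a i j * τ a k l) := by
      intro a
      rw [pow_two, Finset.sum_mul]
      refine Finset.sum_congr rfl fun i _ => ?_
      rw [Finset.sum_mul]
      refine Finset.sum_congr rfl fun j _ => ?_
      rw [Finset.mul_sum]
      refine Finset.sum_congr rfl fun k _ => ?_
      rw [Finset.mul_sum]
      exact Finset.sum_congr rfl fun l _ => by ring
    simp only [e1, Finset.mul_sum]
    symm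
    calc ∑ a, ∑ i, ∑ j, ∑ k, ∑ l, h q i j * h q k l * (τ a i j * τ a k l)
        = ∑ i, ∑ a, ∑ j, ∑ k, ∑ l, h q i j * h q k l * (τ a i j * τ a k l) := Finset.sum_comm
      _ = ∑ i, ∑ j, ∑ a, ∑ k, ∑ l, h q i j * h q k l * (τ a i j * τ a k l) :=
          Finset.sum_congr rfl fun i _ => Finset.sum_comm
      _ = ∑ i, ∑ j, ∑ k, ∑ a, ∑ l, h q i j * h q k l * (τ a i j * τ a k l) :=
          Finset.sum_congr rfl fun i _ => Finset.sum_congr rfl fun j _ => Finset.sum_comm
      _ = _ := Finset.sum_congr rfl fun i _ => Finset.sum_congr rfl fun j _ =>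
          Finset.sum_congr rfl fun k _ => Finset.sum_comm
  have h2 : ∑ i, ∑ j, ∑ k, ∑ l, h q i j * h q k l * ∑ p, lam p * (h p i j * h p k l) =
      4 * lam q := by
    have e1 : ∀ p, lam p * ((∑ i, ∑ j, h p i j * h q i j) * (∑ i, ∑ j, h p i j * h q i j)) =
        ∑ i, ∑ j, ∑ k, ∑ l, h q i j * h q k l * (lam p * (h p i j * h p k l)) := by
      intro p
      rw [Finset.sum_mul, Finset.mul_sum]
      refine Finset.sum_congr rfl fun i _ => ?_
      rw [Finset.sum_mul, Finset.mul_sum]
      refine Finset.sum_congr rfl fun j _ => ?_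
      rw [Finset.mul_sum, Finset.mul_sum]
      refine Finset.sum_congr rfl fun k _ => ?_
      rw [Finset.mul_sum, Finset.mul_sum]
      exact Finset.sum_congr rfl fun l _ => by ring
    have e2 : ∑ p, lam p * ((∑ i, ∑ j, h p i j * h q i j) * (∑ i, ∑ j, h p i j * h q i j)) =
        4 * lam q := by
      rw [Finset.sum_eq_single q]
      · rw [h3, if_pos rfl]; ring
      · intro p _ hp
        rw [h3, if_neg hp]; ring
      · simp
    rw [← e2, Finset.sum_congr rfl fun p _ => e1 p]
    simp only [Finset.mul_sum]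
    symm
    calc ∑ p, ∑ i, ∑ j, ∑ k, ∑ l, h q i j * h q k l * (lam p * (h p i j * h p k l))
        = ∑ i, ∑ p, ∑ j, ∑ k, ∑ l, h q i j * h q k l * (lam p * (h p i j * h p k l)) :=
          Finset.sum_comm
      _ = ∑ i, ∑ j, ∑ p, ∑ k, ∑ l, h q i j * h q k l * (lam p * (h p i j * h p k l)) :=
          Finset.sum_congr rfl fun i _ => Finset.sum_comm
      _ = ∑ i, ∑ j, ∑ k, ∑ p, ∑ l, h q i j * h q k l * (lam p * (h p i j * h p k l)) :=
          Finset.sum_congr rfl fun i _ => Finset.sum_congr rfl fun j _ => Finset.sum_comm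
      _ = _ := Finset.sum_congr rfl fun i _ => Finset.sum_congr rfl fun j _ =>
          Finset.sum_congr rfl fun k _ => Finset.sum_comm
  have h4 : 0 ≤ ∑ i, ∑ j, ∑ k, ∑ l, h q i j * h q k l * ∑ a, τ a i j * τ a k l := by
    rw [h1]
    exact Finset.sum_nonneg fun a _ => sq_nonneg _
  have h5 : ∑ i, ∑ j, ∑ k, ∑ l, h q i j * h q k l * ∑ a, τ a i j * τ a k l =
      b * (∑ i, ∑ j, ∑ k, ∑ l, h q i j * h q k l * hU i j k l) -
      ∑ i, ∑ j, ∑ k, ∑ l, h q i j * h q k l * ∑ p, lam p * (h p i j * h p k l) := by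
    rw [Finset.mul_sum, ← Finset.sum_sub_distrib]
    refine Finset.sum_congr rfl fun i _ => ?_
    rw [Finset.mul_sum, ← Finset.sum_sub_distrib]
    refine Finset.sum_congr rfl fun j _ => ?_
    rw [Finset.mul_sum, ← Finset.sum_sub_distrib]
    refine Finset.sum_congr rfl fun k _ => ?_
    rw [Finset.mul_sum, ← Finset.sum_sub_distrib]
    refine Finset.sum_congr rfl fun l _ => ?_
    rw [← hτ]
    ring
  rw [h5, hu, h2] at h4
  linarith

/-- the norm of a skew matrix in terms of the unit tensor -/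
theorem unit_sum {A : Matrix J J ℝ} (hA : Sk A) (h1 : sp A A = 1) :
    ∑ i, ∑ j, ∑ k, ∑ l, A i j * A k l * unitCurv i j k l = 4 := by
  have e1 : ∀ i j, ∑ k, ∑ l, A i j * A k l * unitCurv i j k l = 2 * (A i j * A i j) := by
    intro i j
    have e2 : ∀ k l, A i j * A k l * unitCurv i j k l =
        (if i = k then (if j = l then A i j * A k l else 0) else 0) -
        (if j = k then (if i = l then A i j * A k l else 0) else 0) := by
      intro k l
      unfold unitCurv
      split_ifs <;> simp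
    simp only [e2, Finset.sum_sub_distrib]
    have e3 : ∀ a b : J, ∑ k, ∑ l, (if a = k then (if b = l then A i j * A k l else 0) else 0) =
        A i j * A a b := by
      intro a b
      rw [Finset.sum_eq_single a]
      · simp
      · intro k _ hk
        simp [Ne.symm hk]
      · simp
    rw [e3, e3, hA i j]
    ring
  simp only [e1, ← Finset.mul_sum]
  unfold sp at h1
  linarith

end matrices

/-- the estimate, from a decomposition in eigenvectors -/
theorem est_core (e : OrthonormalBasis (Fin m × Bool) ℝ V) {R : V → V → V → V → ℝ}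
    {κ δ : ℝ} (hκ : 0 < κ) (hδ : 0 ≤ δ) (hδκ : δ ≤ κ / 64) (hm : 2 ≤ m)
    (hE : Einstein e R (-κ))
    {h : Pr (Fin m × Bool) → Matrix (Fin m × Bool) (Fin m × Bool) ℝ}
    {μ : Pr (Fin m × Bool) → ℝ} (hsk : ∀ p, Sk (h p))
    (ho : ∀ p q, sp (h p) (h q) = if p = q then 1 else 0)
    (hc : ∀ i j k l, ∑ p, h p i j * h p k l =
        (if i = k then 1 else 0) * (if j = l then 1 else 0) -
          (if i = l then 1 else 0) * (if j = k then 1 else 0))
    (hμ : ∀ p, |μ p| ≤ δ)
    (hR : ∀ i j k l, -R (e i) (e j) (e k) (e l) = κ * unitCurv i j k l +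
      ∑ p, μ p * (h p i j * h p k l)) :
    |(-1) ^ m * gbc e R - roundGB m κ * (1 + wterm e R (-κ))| ≤
      128 / 3 * (δ / κ) * (roundGB m κ * wterm e R (-κ)) := by
  have hmR : (2 : ℝ) ≤ m := by exact_mod_cast hm
  have d1 : (0 : ℝ) < 2 * m - 1 := by linarith
  have d3 : (0 : ℝ) < 2 * m - 3 := by linarith
  have hric : ∀ j l, ∑ p, μ p * ∑ i, h p i j * h p i l = 0 := by
    intro j l
    have h1 : ∑ p, μ p * ∑ i, h p i j * h p i l = ∑ i, ∑ p, μ p * (h p i j * h p i l) := by
      rw [Finset.sum_comm]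
      exact Finset.sum_congr rfl fun p _ => by rw [Finset.mul_sum]
    have h2 : ∀ i, ∑ p, μ p * (h p i j * h p i l) =
        -R (e i) (e j) (e i) (e l) - κ * unitCurv i j i l := by
      intro i
      rw [hR i j i l]; ring
    rw [h1]
    simp only [h2, Finset.sum_sub_distrib, Finset.sum_neg_distrib]
    rw [hE (e j) (e l), inner_basis, ← Finset.mul_sum]
    have h3 : ∑ i : Fin m × Bool, unitCurv i j i l = (2 * m - 1) * if j = l then 1 else 0 := by
      unfold unitCurv
      simp only [if_true, one_mul, Finset.sum_sub_distrib, Finset.sum_const, Finset.card_univ,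
        nsmul_eq_mul]
      have : ∑ i : Fin m × Bool, (if i = l then (1 : ℝ) else 0) * (if j = i then 1 else 0) =
          if j = l then 1 else 0 := by
        rw [Finset.sum_eq_single l]
        · simp
        · intro i _ hi
          rw [if_neg hi, zero_mul]
        · simp
      rw [this, card_J]; ring
    rw [h3]
    split_ifs <;> ring
  have hf : Fam h μ δ := ⟨fun p i j => hsk p i j, hc, hμ, hric⟩
  have h1 := gm_est hf hδ ho hκ hδκ hm
  -- the squared norm
  have h2 : weylSq e R (-κ) = 4 * ∑ p, μ p ^ 2 := by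
    rw [← sumsq_mu ho]
    unfold weylSq
    refine Finset.sum_congr rfl fun i _ => Finset.sum_congr rfl fun j _ =>
      Finset.sum_congr rfl fun k _ => Finset.sum_congr rfl fun l _ => ?_
    have h3 := hR i j k l
    rw [cp_unit]
    have h4 : ∑ p, μ p * (h p i j * h p k l) =
        -(R (e i) (e j) (e k) (e l) - -κ * unitCurv i j k l) := by linarith
    rw [h4, neg_sq]
  have h3 : (∑ p, μ p ^ 2) / (2 * κ ^ 2 * ((2 * m - 1) * (2 * m - 3))) = wterm e R (-κ) := by
    unfold wterm
    rw [h2, neg_sq]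
    field_simp
    ring
  rw [h3] at h1
  have h4 : (fun _ : Fin m => cp e (negT R)) = fun _ : Fin m => (fun i j k l =>
      κ * unitCurv i j k l + ∑ a, μ a * (h a i j * h a k l) : T4 m) := by
    funext _ i j k l
    rw [← hR i j k l]
    rfl
  have hπ := Real.pi_pos
  set C := 1 / ((8 * Real.pi) ^ m * (m.factorial : ℝ)) with hC
  have hC0 : 0 < C := by positivity
  have hround : roundGB m κ = C * GG m κ 0 := by
    unfold roundGB GG
    rw [Nat.choose_zero_right, Nat.sub_zero]
    have : (8 * Real.pi) ^ m = 2 ^ m * (4 * Real.pi) ^ m := by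
      rw [← mul_pow]; congr 1; ring
    rw [hC, this, mul_pow 2 κ m]
    push_cast
    field_simp
  rw [gbc_eq, h4, hround, ← hC]
  have h5 := mul_le_mul_of_nonneg_left h1 hC0.le
  rw [← abs_of_pos hC0, ← abs_mul, abs_of_pos hC0] at h5
  refine le_trans (le_of_eq ?_) (h5.trans (le_of_eq ?_))
  · congr 1
    ring
  · ring

end Pool.Agent.H31EP
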