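import Pool.Agent.H31EP.Itr
import Pool.Agent.TH594.HE.Ein

/-!
# The identity of Gallot and Meyer for forms in two sets of variables

For a family `ν` of two-forms whose squares satisfy the Bianchi identity and have the Ricci contraction
`r` times the identity, the sums of squares of the quadratic operators are bounded by `r` times the
degree.
-/

set_option autoImplicit false
set_option linter.unusedSectionVars false

namespace Pool.Agent.H31EP

open Finset Pool.Agent.TH594.HP Pool.Agent.TH594.HE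

variable {J : Type*} [Fintype J] [DecidableEq J] {K : Type*} [Fintype K]

/-! ### relabelling four-fold sums -/

omit [DecidableEq J] in
theorem p12 (G : J → J → J → J → ℝ) :
    ∑ i, ∑ j, ∑ k, ∑ l, G i j k l = ∑ i, ∑ j, ∑ k, ∑ l, G j i k l := Finset.sum_comm

omit [DecidableEq J] in
theorem p23 (G : J → J → J → J → ℝ) :
    ∑ i, ∑ j, ∑ k, ∑ l, G i j k l = ∑ i, ∑ j, ∑ k, ∑ l, G i k j l :=
  Finset.sum_congr rfl fun _ _ => Finset.sum_comm

omit [DecidableEq J] in
theorem p34 (G : J → J → J → J → ℝ) :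
    ∑ i, ∑ j, ∑ k, ∑ l, G i j k l = ∑ i, ∑ j, ∑ k, ∑ l, G i j l k :=
  Finset.sum_congr rfl fun _ _ => Finset.sum_congr rfl fun _ _ => Finset.sum_comm

omit [DecidableEq J] in
theorem cyc4 (G : J → J → J → J → ℝ) :
    ∑ i, ∑ j, ∑ k, ∑ l, G j k l i = ∑ i, ∑ j, ∑ k, ∑ l, G i j k l := by
  rw [p12 (fun i j k l => G j k l i), p23 (fun i j k l => G i k l j),
    p34 (fun i j k l => G i j l k)]

omit [DecidableEq J] in
theorem cyc3 (G : J → J → J → J → ℝ) :
    ∑ i, ∑ j, ∑ k, ∑ l, G k i j l = ∑ i, ∑ j, ∑ k, ∑ l, G i j k l := by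
  rw [p23 (fun i j k l => G k i j l), p12 (fun i j k l => G j i k l)]

omit [DecidableEq J] in
/-- the Bianchi identity in a contraction with three pairings -/
theorem bian {ν : K → Matrix J J ℝ} (h : BiN (nu ν)) (x : J → J → F2 J) :
    ∑ i, ∑ j, ∑ k, ∑ l, EE (nu ν) i j k l * ip2 (x l i) (x j k) =
      ∑ i, ∑ j, ∑ k, ∑ l, EE (nu ν) i j k l * ip2 (x k l) (x i j) -
        ∑ i, ∑ j, ∑ k, ∑ l, EE (nu ν) i j k l * ip2 (x l j) (x k i) := by
  have h1 : ∀ i j k l, EE (nu ν) i j k l * ip2 (x l i) (x j k) =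
      EE (nu ν) j k l i * ip2 (x l i) (x j k) + (-(EE (nu ν) k i j l * ip2 (x l i) (x j k))) := by
    intro i j k l
    have e1 := h.bia i j k l
    have e2 := EE_34 h.anti j k l i
    rw [e2] at e1
    linear_combination (ip2 (x l i) (x j k)) * e1
  simp only [h1, sum4_add, Finset.sum_neg_distrib]
  rw [cyc4 (fun i j k l => EE (nu ν) i j k l * ip2 (x k l) (x i j)),
    cyc3 (fun i j k l => EE (nu ν) i j k l * ip2 (x l j) (x k i))]
  ring

/-! ### sums of squares -/

/-- the sum of the squares of quadratic operators -/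
noncomputable def NN (ν : K → Matrix J J ℝ) (u u' : J → Module.End ℝ (F2 J)) (F : F2 J) : ℝ :=
  ∑ a, nn2 (Qd u u' (ν a) F)

theorem NN_nonneg (ν : K → Matrix J J ℝ) (u u' : J → Module.End ℝ (F2 J)) (F : F2 J) :
    0 ≤ NN ν u u' F := Finset.sum_nonneg fun _ _ => nn2_nonneg _

theorem ex2 (ν : K → Matrix J J ℝ) (x y : J → J → F2 J) :
    ∑ a, ip2 (∑ i, ∑ j, ν a i j • x i j) (∑ i, ∑ j, ν a i j • y i j) =
      ∑ i, ∑ j, ∑ k, ∑ l, EE (nu ν) i j k l * ip2 (x i j) (y k l) := by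
  have h1 : ∀ a, ip2 (∑ i, ∑ j, ν a i j • x i j) (∑ i, ∑ j, ν a i j • y i j) =
      ∑ i, ∑ j, ∑ k, ∑ l, ν a i j * ν a k l * ip2 (x i j) (y k l) := by
    intro a
    rw [ip2_sum_left]
    refine Finset.sum_congr rfl fun i _ => ?_
    rw [ip2_sum_left]
    refine Finset.sum_congr rfl fun j _ => ?_
    rw [ip2_sum_right]
    refine Finset.sum_congr rfl fun k _ => ?_
    rw [ip2_sum_right]
    refine Finset.sum_congr rfl fun l _ => ?_
    rw [ip2_smul_left, ip2_smul_right]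
    ring
  simp only [h1]
  rw [Finset.sum_comm]
  refine Finset.sum_congr rfl fun i _ => ?_
  rw [Finset.sum_comm]
  refine Finset.sum_congr rfl fun j _ => ?_
  rw [Finset.sum_comm]
  refine Finset.sum_congr rfl fun k _ => ?_
  rw [Finset.sum_comm]
  refine Finset.sum_congr rfl fun l _ => ?_
  rw [EE, Finset.sum_mul]
  rfl

theorem NN_eq (ν : K → Matrix J J ℝ) (u u' : J → Module.End ℝ (F2 J)) (F : F2 J) :
    NN ν u u' F = ∑ i, ∑ j, ∑ k, ∑ l,
      EE (nu ν) i j k l * ip2 (u i (u' j F)) (u k (u' l F)) := by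
  unfold NN nn2
  simp only [Qd_apply]
  exact ex2 ν _ _

/-- canonical anticommutation relations -/
structure Car (u w : J → Module.End ℝ (F2 J)) : Prop where
  a1 : Adj u w
  a2 : Adj w u
  c : ∀ i j, u i * w j = (if i = j then 1 else 0) - w j * u i
  s : ∀ i j, u i * u j = -(u j * u i)

theorem car_an1 : Car (an1 (J := J)) cr1 := ⟨adj_an1, adj_cr1, an1_cr1, an1_an1⟩

theorem car_an2 : Car (an2 (J := J)) cr2 := ⟨adj_an2, adj_cr2, an2_cr2, an2_an2⟩

theorem car_cr1 : Car (cr1 (J := J)) an1 := by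
  refine ⟨adj_cr1, adj_an1, fun i j => ?_, cr1_cr1⟩
  have h := an1_cr1 (J := J) j i
  rw [h]
  simp only [eq_comm (a := j) (b := i)]
  abel

section gm

variable {ν : K → Matrix J J ℝ} {r : ℝ} {u w : J → Module.End ℝ (F2 J)}

theorem Car.ip (c : Car u w) (i k : J) (A B : F2 J) :
    ip2 (w i A) (w k B) = dl i k * ip2 A B - ip2 (u k A) (u i B) := by
  rw [c.a2, ← Module.End.mul_apply, c.c, LinearMap.sub_apply, Module.End.mul_apply, ip2_sub_left,
    ip2_comm (w i (u k A)) B, c.a2, ip2_comm (u i B)]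
  congr 1
  unfold dl
  by_cases h : k = i
  · rw [if_pos h, if_pos h.symm, one_mul]; rfl
  · rw [if_neg h, if_neg (Ne.symm h), zero_mul]
    exact ip2_zero_left _

/-- the Ricci contraction -/
theorem ricx (h : Eis ν r) (y : J → F2 J) :
    ∑ i, ∑ j, ∑ k, ∑ l, dl i k * (EE (nu ν) i j k l * ip2 (y j) (y l)) =
      r * ∑ i, nn2 (y i) := by
  rw [s_ik (fun i j k l => EE (nu ν) i j k l * ip2 (y j) (y l)), Finset.sum_comm, Finset.mul_sum]
  refine Finset.sum_congr rfl fun j _ => ?_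
  rw [Finset.sum_comm]
  have h1 : ∀ l, ∑ i, EE (nu ν) i j i l * ip2 (y j) (y l) =
      if j = l then r * ip2 (y j) (y l) else 0 := by
    intro l
    rw [← Finset.sum_mul]
    have := h.ric j l
    unfold rc at this
    rw [this]
    split_ifs <;> ring
  simp only [h1]
  rw [Finset.sum_ite_eq]
  simp [nn2]

/-- **the identity of Gallot and Meyer** -/
theorem GM (h : Eis ν r) (c : Car u w) (F : F2 J) :
    NN ν w u F = r * ∑ i, nn2 (u i F) - 1 / 2 * NN ν u u F := by
  rw [NN_eq ν w u]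
  have h1 : ∀ i j k l, EE (nu ν) i j k l * ip2 (w i (u j F)) (w k (u l F)) =
      dl i k * (EE (nu ν) i j k l * ip2 (u j F) (u l F)) +
        (-(EE (nu ν) i j k l * ip2 (u l (u i F)) (u j (u k F)))) := by
    intro i j k l
    have e : ∀ a b, u a (u b F) = - u b (u a F) := by
      intro a b
      rw [← Module.End.mul_apply, c.s, LinearMap.neg_apply, Module.End.mul_apply]
    rw [c.ip, e k j, e i l, ip2_neg_left, ip2_neg_right, neg_neg,
      ip2_comm (u j (u k F)) (u l (u i F))]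
    ring
  simp only [h1, sum4_add, Finset.sum_neg_distrib]
  rw [ricx h (fun j => u j F)]
  have h2 := bian h.bi (fun a b => u a (u b F))
  have h3 : ∑ i, ∑ j, ∑ k, ∑ l, EE (nu ν) i j k l * ip2 (u k (u l F)) (u i (u j F)) =
      NN ν u u F := by
    rw [NN_eq]
    refine Finset.sum_congr rfl fun i _ => Finset.sum_congr rfl fun j _ =>
      Finset.sum_congr rfl fun k _ => Finset.sum_congr rfl fun l _ => ?_
    rw [ip2_comm]
  have h4 : ∑ i, ∑ j, ∑ k, ∑ l, EE (nu ν) i j k l * ip2 (u l (u j F)) (u k (u i F)) =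
      ∑ i, ∑ j, ∑ k, ∑ l, EE (nu ν) i j k l * ip2 (u l (u i F)) (u j (u k F)) := by
    rw [p12 (fun i j k l => EE (nu ν) i j k l * ip2 (u l (u j F)) (u k (u i F)))]
    refine Finset.sum_congr rfl fun i _ => Finset.sum_congr rfl fun j _ =>
      Finset.sum_congr rfl fun k _ => Finset.sum_congr rfl fun l _ => ?_
    have e : ∀ a b, u a (u b F) = - u b (u a F) := by
      intro a b
      rw [← Module.End.mul_apply, c.s, LinearMap.neg_apply, Module.End.mul_apply]
    rw [e k j, ip2_neg_right, EE_12 h.bi.anti i j k l]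
    ring
  rw [h3, h4] at h2
  linarith

/-- the mixed sums of squares -/
theorem CX (h : Eis ν r) {s S t T : J → Module.End ℝ (F2 J)} (c1 : Car s S) (c2 : Car t T)
    (e1 : ∀ i j, s i * T j = -(T j * s i)) (e2 : ∀ i j, t i * S j = -(S j * t i))
    (e3 : ∀ i j, s i * t j = -(t j * s i)) (F : F2 J) :
    NN ν s T F ≤ r * ∑ i, nn2 (s i F) + 1 / 2 * (NN ν S s F + NN ν T t F) := by
  have ap : ∀ {a b c d : Module.End ℝ (F2 J)}, a * b = -(c * d) → ∀ G, a (b G) = -(c (d G)) := by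
    intro a b c d hab G
    rw [← Module.End.mul_apply, hab, LinearMap.neg_apply, Module.End.mul_apply]
  have h0 : NN ν s T F = r * ∑ i, nn2 (s i F) -
      ∑ i, ∑ j, ∑ k, ∑ l, EE (nu ν) i j k l * ip2 (t l (s i F)) (t j (s k F)) := by
    rw [NN_eq]
    have h1 : ∀ i j k l, EE (nu ν) i j k l * ip2 (s i (T j F)) (s k (T l F)) =
        dl j l * (EE (nu ν) i j k l * ip2 (s i F) (s k F)) +
          (-(EE (nu ν) i j k l * ip2 (t l (s i F)) (t j (s k F)))) := by
      intro i j k l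
      rw [ap (e1 i j), ap (e1 k l), ip2_neg_left, ip2_neg_right, neg_neg, c2.ip]
      ring
    simp only [h1, sum4_add, Finset.sum_neg_distrib]
    have h2 : ∑ i, ∑ j, ∑ k, ∑ l, dl j l * (EE (nu ν) i j k l * ip2 (s i F) (s k F)) =
        r * ∑ i, nn2 (s i F) := by
      rw [← ricx h (fun i => s i F), p12, p34]
      refine Finset.sum_congr rfl fun i _ => Finset.sum_congr rfl fun j _ =>
        Finset.sum_congr rfl fun k _ => Finset.sum_congr rfl fun l _ => ?_
      rw [EE_12 h.bi.anti i j l k, EE_34 h.bi.anti i j k l]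
      ring
    rw [h2]
    ring
  have h2 := bian h.bi (fun a b => t a (s b F))
  have h3 : 0 ≤ ∑ i, ∑ j, ∑ k, ∑ l, EE (nu ν) i j k l * ip2 (t k (s l F)) (t i (s j F)) := by
    have h4 := NN_nonneg ν t s F
    rw [NN_eq] at h4
    refine h4.trans (le_of_eq ?_)
    refine Finset.sum_congr rfl fun i _ => Finset.sum_congr rfl fun j _ =>
      Finset.sum_congr rfl fun k _ => Finset.sum_congr rfl fun l _ => ?_
    rw [ip2_comm]
  have h5 : ∑ i, ∑ j, ∑ k, ∑ l, EE (nu ν) i j k l * ip2 (t l (s j F)) (t k (s i F)) =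
      - ∑ a, ip2 (Qd S s (ν a) F) (Qd T t (ν a) F) := by
    simp only [Qd_apply]
    rw [ex2 ν (fun i j => S i (s j F)) (fun i j => T i (t j F)), p34, ← Finset.sum_neg_distrib]
    refine Finset.sum_congr rfl fun i _ => ?_
    rw [← Finset.sum_neg_distrib]
    refine Finset.sum_congr rfl fun j _ => ?_
    rw [← Finset.sum_neg_distrib]
    refine Finset.sum_congr rfl fun k _ => ?_
    rw [← Finset.sum_neg_distrib]
    refine Finset.sum_congr rfl fun l _ => ?_
    rw [c2.a2 k, ap (e2 k i), ip2_neg_left, ip2_comm (S i (t k (s j F))), c1.a2 i, ap (e3 i l),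
      ip2_neg_left, ip2_comm (t l (s i F)), EE_34 h.bi.anti i j k l]
    ring
  have h6 : ∀ a, - ip2 (Qd S s (ν a) F) (Qd T t (ν a) F) ≤
      1 / 2 * (nn2 (Qd S s (ν a) F) + nn2 (Qd T t (ν a) F)) := by
    intro a
    have h7 := nn2_nonneg (Qd S s (ν a) F + Qd T t (ν a) F)
    have h8 : nn2 (Qd S s (ν a) F + Qd T t (ν a) F) = nn2 (Qd S s (ν a) F) +
        2 * ip2 (Qd S s (ν a) F) (Qd T t (ν a) F) + nn2 (Qd T t (ν a) F) := by
      unfold nn2
      rw [ip2_add_left, ip2_add_right, ip2_add_right, ip2_comm (Qd T t (ν a) F)]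
      ring
    rw [h8] at h7
    linarith
  have h9 : - ∑ a, ip2 (Qd S s (ν a) F) (Qd T t (ν a) F) ≤
      1 / 2 * (NN ν S s F + NN ν T t F) := by
    unfold NN
    rw [← Finset.sum_neg_distrib, ← Finset.sum_add_distrib, Finset.mul_sum]
    exact Finset.sum_le_sum fun a _ => h6 a
  rw [h5] at h2
  rw [h0]
  linarith

/-! ### bounds by the degree -/

variable {p q : ℕ} {F : F2 J}

theorem NN_ca1 (h : Eis ν r) (hr : 0 ≤ r) (hF : Le p q F) : NN ν cr1 an1 F ≤ r * p * nn2 F := by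
  have h1 := GM h (car_an1 (J := J)) F
  have h2 := NN_nonneg ν an1 an1 F
  have h3 := mul_le_mul_of_nonneg_left (sum_an1 hF) hr
  linarith

theorem NN_ca2 (h : Eis ν r) (hr : 0 ≤ r) (hF : Le p q F) : NN ν cr2 an2 F ≤ r * q * nn2 F := by
  have h1 := GM h (car_an2 (J := J)) F
  have h2 := NN_nonneg ν an2 an2 F
  have h3 := mul_le_mul_of_nonneg_left (sum_an2 hF) hr
  linarith

theorem NN_aa1 (h : Eis ν r) (hr : 0 ≤ r) (hF : Le p q F) :
    NN ν an1 an1 F ≤ 2 * r * p * nn2 F := by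
  have h1 := GM h (car_an1 (J := J)) F
  have h2 := NN_nonneg ν cr1 an1 F
  have h3 := mul_le_mul_of_nonneg_left (sum_an1 hF) hr
  linarith

theorem NN_aa2 (h : Eis ν r) (hr : 0 ≤ r) (hF : Le p q F) :
    NN ν an2 an2 F ≤ 2 * r * q * nn2 F := by
  have h1 := GM h (car_an2 (J := J)) F
  have h2 := NN_nonneg ν cr2 an2 F
  have h3 := mul_le_mul_of_nonneg_left (sum_an2 hF) hr
  linarith

theorem NN_cc1 (h : Eis ν r) (hr : 0 ≤ r) (F : F2 J) :
    NN ν cr1 cr1 F ≤ 2 * r * dm J * nn2 F := by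
  have h1 := GM h (car_cr1 (J := J)) F
  have h2 := NN_nonneg ν an1 cr1 F
  have h3 := mul_le_mul_of_nonneg_left (sum_cr1 F) hr
  linarith

theorem NN_ac21 (h : Eis ν r) (hr : 0 ≤ r) (hF : Le p p F) :
    NN ν an2 cr1 F ≤ 2 * r * p * nn2 F := by
  have h1 := CX h car_an2 car_an1 an2_cr1 an1_cr2 an2_an1 F
  have h2 := NN_ca1 h hr hF
  have h3 := NN_ca2 h hr hF
  have h4 := mul_le_mul_of_nonneg_left (sum_an2 hF) hr
  linarith

theorem NN_ac12 (h : Eis ν r) (hr : 0 ≤ r) (hF : Le p p F) :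
    NN ν an1 cr2 F ≤ 2 * r * p * nn2 F := by
  have h1 := CX h car_an1 car_an2 an1_cr2 an2_cr1 an1_an2 F
  have h2 := NN_ca1 h hr hF
  have h3 := NN_ca2 h hr hF
  have h4 := mul_le_mul_of_nonneg_left (sum_an1 hF) hr
  linarith

end gm

end Pool.Agent.H31EP
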