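import Mathlib

/-!
# Elementary inequalities
-/

set_option autoImplicit false

namespace Pool.Agent.H31EP

open Finset

theorem exp_ineq (N : ℕ) : ((N : ℝ) + 3) ^ (N + 1) ≤ 3 * ((N : ℝ) + 1) * ((N : ℝ) + 2) ^ N := by
  rcases Nat.lt_or_ge N 2 with h | h
  · interval_cases N
    · norm_num
    · norm_num
  · have hN : (2 : ℝ) ≤ N := by exact_mod_cast h
    have h0 : (0 : ℝ) < N + 2 := by linarith
    have h1 : ((N : ℝ) + 3) / (N + 2) ≤ Real.exp (1 / (N + 2)) := by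
      have h2 := Real.add_one_le_exp (1 / ((N : ℝ) + 2))
      have h3 : 1 / ((N : ℝ) + 2) + 1 = (N + 3) / (N + 2) := by field_simp; ring
      rwa [h3] at h2
    have h2 : (((N : ℝ) + 3) / (N + 2)) ^ (N + 2) ≤ Real.exp 1 := by
      refine (pow_le_pow_left₀ (by positivity) h1 _).trans (le_of_eq ?_)
      rw [← Real.exp_nat_mul]
      congr 1
      push_cast
      field_simp
    have h3 : Real.exp 1 ≤ 272 / 100 := by
      have := Real.exp_one_lt_d9
      linarith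
    have h4 : ((N : ℝ) + 3) ^ (N + 2) ≤ 272 / 100 * ((N : ℝ) + 2) ^ (N + 2) := by
      rw [div_pow, div_le_iff₀ (by positivity)] at h2
      refine h2.trans (mul_le_mul_of_nonneg_right h3 (by positivity))
    have h5 : 0 ≤ ((N : ℝ) + 2) ^ N := by positivity
    have h6 : 272 / 100 * ((N : ℝ) + 2) ^ 2 ≤ 3 * ((N : ℝ) + 1) * (N + 3) := by nlinarith
    have h7 : ((N : ℝ) + 3) * ((N : ℝ) + 3) ^ (N + 1) ≤
        (N + 3) * (3 * ((N : ℝ) + 1) * ((N : ℝ) + 2) ^ N) := by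
      calc ((N : ℝ) + 3) * ((N : ℝ) + 3) ^ (N + 1) = ((N : ℝ) + 3) ^ (N + 2) := by ring
        _ ≤ 272 / 100 * ((N : ℝ) + 2) ^ (N + 2) := h4
        _ = (272 / 100 * ((N : ℝ) + 2) ^ 2) * ((N : ℝ) + 2) ^ N := by ring
        _ ≤ (3 * ((N : ℝ) + 1) * (N + 3)) * ((N : ℝ) + 2) ^ N :=
            mul_le_mul_of_nonneg_right h6 h5
        _ = _ := by ring
    exact le_of_mul_le_mul_left h7 (by linarith)

theorem exp_ineq' {N i : ℕ} (h : i ≤ N) :
    ((N : ℝ) + 3) ^ (i + 1) ≤ 3 * ((N : ℝ) + 1) * ((N : ℝ) + 2) ^ i := by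
  obtain ⟨k, rfl⟩ := Nat.exists_eq_add_of_le h
  have hc : (0 : ℝ) ≤ ((i + k : ℕ) : ℝ) := Nat.cast_nonneg _
  generalize hN : ((i + k : ℕ) : ℝ) = x at *
  have h1 := exp_ineq (i + k)
  rw [hN] at h1
  have h2 : (x + 2) ^ k ≤ (x + 3) ^ k := pow_le_pow_left₀ (by linarith) (by linarith) _
  have h3 : (x + 3) ^ k * (x + 3) ^ (i + 1) ≤ (x + 3) ^ k * (3 * (x + 1) * (x + 2) ^ i) := by
    calc (x + 3) ^ k * (x + 3) ^ (i + 1) = (x + 3) ^ (i + k + 1) := by ring
      _ ≤ 3 * (x + 1) * (x + 2) ^ (i + k) := h1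
      _ = (3 * (x + 1) * (x + 2) ^ i) * (x + 2) ^ k := by ring
      _ ≤ (3 * (x + 1) * (x + 2) ^ i) * (x + 3) ^ k :=
          mul_le_mul_of_nonneg_left h2 (by positivity)
      _ = _ := by ring
  exact le_of_mul_le_mul_left h3 (by positivity)

theorem desc_ineq : ∀ (N i : ℕ), i ≤ N →
    ((N : ℝ) + 2) ^ i ≤ 3 ^ i * (N.descFactorial i : ℝ) := by
  intro N
  induction N with
  | zero =>
    intro i hi
    have : i = 0 := by omega
    subst this
    simp
  | succ N ih =>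
    intro i hi
    rcases i with _ | i
    · simp
    · have h1 := ih i (by omega)
      have h2 := exp_ineq' (N := N) (i := i) (by omega)
      rw [Nat.succ_descFactorial_succ]
      push_cast
      have h3 : 3 * ((N : ℝ) + 1) * ((N : ℝ) + 2) ^ i ≤
          3 * ((N : ℝ) + 1) * (3 ^ i * (N.descFactorial i : ℝ)) :=
        mul_le_mul_of_nonneg_left h1 (by positivity)
      calc ((N : ℝ) + 1 + 2) ^ (i + 1) = ((N : ℝ) + 3) ^ (i + 1) := by ring
        _ ≤ _ := h2
        _ ≤ _ := h3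
        _ = _ := by ring

/-- products of factorials -/
def fac (i : ℕ) : ℕ := (i / 2).factorial * (i - i / 2).factorial

theorem fac_succ (i : ℕ) : fac (i + 1) = (i / 2 + 1) * fac i := by
  unfold fac
  rcases Nat.even_or_odd' i with ⟨s, rfl | rfl⟩
  · have e1 : (2 * s + 1) / 2 = s := by omega
    have e2 : 2 * s / 2 = s := by omega
    have e3 : 2 * s + 1 - s = s + 1 := by omega
    have e4 : 2 * s - s = s := by omega
    rw [e1, e2, e3, e4, Nat.factorial_succ]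
    ring
  · have e1 : (2 * s + 1) / 2 = s := by omega
    have e2 : (2 * s + 1 + 1) / 2 = s + 1 := by omega
    have e3 : 2 * s + 1 + 1 - (s + 1) = s + 1 := by omega
    have e4 : 2 * s + 1 - s = s + 1 := by omega
    rw [e1, e2, e3, e4, Nat.factorial_succ]
    ring

/-- the coefficients -/
noncomputable def cf (i : ℕ) : ℝ := 2 * (fac i : ℝ) / ((i + 2).factorial : ℝ)

theorem cf_nonneg (i : ℕ) : 0 ≤ cf i := by unfold cf; positivity

theorem cf_succ (i : ℕ) : cf (i + 1) ≤ 1 / 2 * cf i := by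
  unfold cf
  have h1 : (0 : ℝ) < ((i + 2).factorial : ℝ) := by positivity
  have h2 : ((i + 1 + 2).factorial : ℝ) = ((i : ℝ) + 3) * ((i + 2).factorial : ℝ) := by
    have : i + 1 + 2 = (i + 2) + 1 := by ring
    rw [this, Nat.factorial_succ]
    push_cast
    ring
  have h3 : ((fac (i + 1) : ℕ) : ℝ) ≤ ((i : ℝ) + 3) / 2 * (fac i : ℝ) := by
    rw [fac_succ]
    push_cast
    have h4 : (((i / 2 : ℕ) : ℝ) + 1) ≤ ((i : ℝ) + 3) / 2 := by
      have h5 : 2 * (i / 2) ≤ i := by omega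
      have h6 : 2 * ((i / 2 : ℕ) : ℝ) ≤ i := by exact_mod_cast h5
      linarith
    exact mul_le_mul_of_nonneg_right h4 (Nat.cast_nonneg _)
  rw [h2, div_le_iff₀ (by positivity)]
  have h7 : 1 / 2 * (2 * (fac i : ℝ) / ((i + 2).factorial : ℝ)) *
      (((i : ℝ) + 3) * ((i + 2).factorial : ℝ)) = (fac i : ℝ) * (i + 3) := by
    field_simp
  rw [h7]
  linarith

theorem cf_zero : cf 0 = 1 := by
  simp [cf, fac]
theorem cf_one : cf 1 = 1 / 3 := by
  simp [cf, fac, Nat.factorial]; norm_num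
theorem cf_two : cf 2 = 1 / 12 := by
  simp [cf, fac, Nat.factorial]; norm_num
theorem cf_three : cf 3 = 1 / 30 := by
  simp [cf, fac, Nat.factorial]; norm_num

/-- geometric sums -/
theorem geo (f : ℕ → ℝ) {r : ℝ} (hf : ∀ i, f (i + 1) ≤ r * f i) (n : ℕ) :
    (1 - r) * ∑ i ∈ range n, f i ≤ f 0 - f n := by
  induction n with
  | zero => simp
  | succ n ih =>
    rw [Finset.sum_range_succ, mul_add]
    have := hf n
    linarith

/-- the sum of the tail -/
theorem tail_le {y : ℝ} (hy : 0 ≤ y) (hy1 : y ≤ 153 / 128) (n : ℕ) :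
    ∑ i ∈ range n, cf (i + 1) * y ^ (i + 1) ≤ 5577 / 10000 * y := by
  have hpos : ∀ i, 0 ≤ cf i * y ^ i := fun i => mul_nonneg (cf_nonneg i) (by positivity)
  have hstep : ∀ i, cf (i + 3 + 1) * y ^ (i + 3 + 1) ≤ (y / 2) * (cf (i + 3) * y ^ (i + 3)) := by
    intro i
    have h1 := mul_le_mul_of_nonneg_right (cf_succ (i + 3)) (by positivity : 0 ≤ y ^ (i + 3 + 1))
    refine h1.trans (le_of_eq ?_)
    rw [pow_succ]
    ring
  have h1 := geo (fun i => cf (i + 3) * y ^ (i + 3)) hstep n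
  have h2 : ∑ i ∈ range n, cf (i + 1) * y ^ (i + 1) ≤
      ∑ i ∈ range (n + 2), cf (i + 1) * y ^ (i + 1) := by
    refine Finset.sum_le_sum_of_subset_of_nonneg ?_ fun i _ _ => hpos _
    exact Finset.range_mono (by omega)
  have h3 : ∑ i ∈ range (n + 2), cf (i + 1) * y ^ (i + 1) =
      cf 1 * y + cf 2 * y ^ 2 + ∑ i ∈ range n, cf (i + 3) * y ^ (i + 3) := by
    rw [Finset.sum_range_succ', Finset.sum_range_succ']
    simp only [zero_add, pow_one]
    ring
  rw [h3, cf_one, cf_two] at h2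
  have h4 : (1 - y / 2) * ∑ i ∈ range n, cf (i + 3) * y ^ (i + 3) ≤ cf 3 * y ^ 3 := by
    have := hpos (n + 3)
    simp only [zero_add] at h1
    linarith
  rw [cf_three] at h4
  set S := ∑ i ∈ range n, cf (i + 3) * y ^ (i + 3) with hS
  have hS0 : 0 ≤ S := Finset.sum_nonneg fun i _ => hpos _
  have h5 : 103 / 256 * S ≤ (1 - y / 2) * S := mul_le_mul_of_nonneg_right (by linarith) hS0
  have h6 : y ^ 2 ≤ 153 / 128 * y := by nlinarith
  have h7 : y ^ 3 ≤ (153 / 128) ^ 2 * y := by nlinarith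
  nlinarith

end Pool.Agent.H31EP
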