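import Pool.Agent.H31EP.Itr
import Pool.Agent.H31EP.Num
import Pool.Agent.TH594.HE.Rat

/-!
# The Gauss-Bonnet-Chern sum of a pinched Einstein curvature operator
-/

set_option autoImplicit false
set_option linter.unusedSectionVars false

namespace Pool.Agent.H31EP

open Finset Pool.Agent.TH594.HP Pool.Agent.TH594.HE
open Pool.Agent.W666.GB (unitCurv)
open Pool.Agent.W669.HD (T4 gm ur unit_squares)

section

variable {J : Type*} [Fintype J] [DecidableEq J] {K : Type*} [Fintype K]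

theorem Op_congr (s : K → ℝ) (ν : K → J → J → ℝ) (j : ℕ) : ∀ (d : ℕ) (V W : Fk J → ℝ) (κ : ℝ),
    (∀ f, Dg (d + 2 * j) f → V f = κ * W f) → ∀ f, Dg d f →
      ((Op s ν) ^ j) V f = κ * ((Op s ν) ^ j) W f := by
  induction j with
  | zero =>
    intro d V W κ h f hf
    simpa using h f hf
  | succ j ih =>
    intro d V W κ h f hf
    rw [pow_succ, Module.End.mul_apply, Module.End.mul_apply]
    refine ih d (Op s ν V) (Op s ν W) κ ?_ f hf
    intro g hg
    rw [Op_apply, Op_apply, Finset.mul_sum]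
    refine Finset.sum_congr rfl fun a _ => ?_
    rw [h]
    · ring
    · have : d + 2 * (j + 1) = d + 2 * j + 2 := by ring
      rw [this]
      exact Dg_L hg _

end

section

variable {m : ℕ} {K : Type*} [Fintype K]

/-- expansion of the Gauss-Bonnet-Chern sum around constant curvature -/
theorem gm_pinch {κ : ℝ} (hκ : 0 ≤ κ) (μ : K → ℝ)
    (h : K → Matrix (Fin m × Bool) (Fin m × Bool) ℝ) :
    gm (fun _ : Fin m => (fun i j k l => κ * unitCurv i j k l +
      ∑ a, μ a * (h a i j * h a k l) : T4 m)) =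
      ∑ j ∈ range (m + 1), GG m κ j * TO h μ j := by
  rw [gm_op (K := ((Fin m × Bool) × (Fin m × Bool)) ⊕ K) (Sum.elim (fun _ => 1) μ)
    (Sum.elim (ur κ) (fun a i j => h a i j))]
  · have h1 : Op (Sum.elim (fun _ : (Fin m × Bool) × (Fin m × Bool) => (1 : ℝ)) μ)
        (Sum.elim (ur κ) (fun a i j => h a i j)) = Op μ (fun a i j => h a i j) + O1 (ur κ) := by
      apply LinearMap.ext
      intro V
      funext f
      rw [LinearMap.add_apply, Pi.add_apply, Op_apply, Op_apply, O1_apply, Fintype.sum_sum_type,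
        add_comm]
      simp
    have h2 : Commute (Op μ (fun a i j => h a i j)) (O1 (ur (m := m) κ)) := Op_comm _ _ _ _
    rw [h1, h2.add_pow, LinearMap.sum_apply, Finset.sum_apply]
    refine Finset.sum_congr rfl fun j hj => ?_
    have hj' : j ≤ m := Nat.lt_succ_iff.mp (Finset.mem_range.mp hj)
    rw [Module.End.mul_apply, Module.End.mul_apply]
    have h3 : ((m.choose j : ℕ) : Module.End ℝ (Fk (Fin m × Bool) → ℝ)) nn =
        (m.choose j : ℝ) • nn := by
      rw [Module.End.natCast_apply, Nat.cast_smul_eq_nsmul]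
    rw [h3, map_smul, map_smul, Pi.smul_apply, smul_eq_mul]
    have h4 := Op_congr μ (fun a i j => h a i j) j 0 (((O1 (ur (m := m) κ)) ^ (m - j)) nn) nn
      ((2 * κ) ^ (m - j) * (2 * (m - j)).factorial) (fun f hf =>
        U_pow hκ (m - j) _ f hf (by omega)) vac Dg_vac
    rw [h4, GG, TO]
    ring
  · intro i j k l
    rw [Fintype.sum_sum_type, unit_squares hκ]
    simp only [Sum.elim_inl, Sum.elim_inr, one_mul]

/-- the ratio of the coefficients -/
theorem GG_le {κ : ℝ} (hκ : 0 < κ) {N : ℕ} (hm : m = N + 2) : ∀ i : ℕ, i ≤ N →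
    GG m κ (i + 2) * ((4 * κ) ^ i * ((i + 2).factorial * (N.descFactorial i : ℝ))) ≤
      2 * GG m κ 2 := by
  intro i
  induction i with
  | zero =>
    intro _
    simp [Nat.factorial]
    exact le_of_eq (by ring)
  | succ i ih =>
    intro hi
    refine le_trans ?_ (ih (by omega))
    obtain ⟨t, ht⟩ : ∃ t, i + 2 + (t + 1) = m := ⟨N - i - 1, by omega⟩
    have hG : 0 ≤ GG m κ (i + 1 + 2) := (GG_pos hκ (by omega)).le
    have e1 : i + 1 + 2 = i + 2 + 1 := by ring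
    rw [e1] at hG ⊢
    rw [GG_succ κ ht, Nat.descFactorial_succ, Nat.factorial_succ]
    have e2 : N - i = t + 1 := by omega
    rw [e2]
    push_cast
    have h1 : 0 ≤ GG m κ (i + 2 + 1) * ((4 * κ) ^ (i + 1) * (((i : ℝ) + 2 + 1) *
        ((i + 2).factorial : ℝ)) * (N.descFactorial i : ℝ)) := by positivity
    have h2 : ((t : ℝ) + 1) ≤ 2 * (t + 1) - 1 := by
      have : (0 : ℝ) ≤ t := Nat.cast_nonneg t
      linarith
    have h3 := mul_le_mul_of_nonneg_left h2 h1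
    calc GG m κ (i + 2 + 1) * ((4 * κ) ^ (i + 1) * (((i : ℝ) + 2 + 1) *
          ((i + 2).factorial : ℝ) * (((t : ℝ) + 1) * (N.descFactorial i : ℝ))))
        = GG m κ (i + 2 + 1) * ((4 * κ) ^ (i + 1) * (((i : ℝ) + 2 + 1) *
          ((i + 2).factorial : ℝ)) * (N.descFactorial i : ℝ)) * ((t : ℝ) + 1) := by ring
      _ ≤ _ := h3
      _ = _ := by ring

/-- the first coefficients -/
theorem GG_two (κ : ℝ) (hm : 2 ≤ m) :
    GG m κ 0 = GG m κ 2 * (32 * κ ^ 2 * ((2 * m - 1) * (2 * m - 3))) := by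
  obtain ⟨t, rfl⟩ := Nat.exists_eq_add_of_le hm
  have h1 := GG_succ (m := 2 + t) κ (j := 0) (i := t + 1) (by ring)
  have h2 : GG (2 + t) κ 1 = GG (2 + t) κ 2 * (4 * κ * ((1 : ℕ) + 1) * (2 * (t + 1) - 1)) :=
    GG_succ (m := 2 + t) κ (j := 1) (i := t) (by ring)
  simp only [zero_add] at h1
  rw [h1, h2]
  push_cast
  ring

variable {h : K → Matrix (Fin m × Bool) (Fin m × Bool) ℝ} {μ : K → ℝ} {δ : ℝ}

/-- the bound of a term of the expansion -/
theorem term_le [DecidableEq K] (hf : Fam h μ δ) (hδ : 0 ≤ δ)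
    (ho : ∀ p q, sp (h p) (h q) = if p = q then 1 else 0) {κ : ℝ} (hκ : 0 < κ) {N : ℕ}
    (hm : m = N + 2) {i : ℕ} (hi : i ≤ N) :
    |GG m κ (i + 2) * TO h μ (i + 2)| ≤
      GG m κ 2 * (16 * ∑ p, μ p ^ 2) * (cf i * (153 / 2 * (δ / κ)) ^ i) := by
  have hG : 0 < GG m κ (i + 2) := GG_pos hκ (by omega)
  have hD : 0 ≤ 16 * ∑ p, μ p ^ 2 := by positivity
  have hcard : dm (Fin m × Bool) = 2 * ((N : ℝ) + 2) := by
    unfold dm
    rw [card_J, hm]
    push_cast
    ring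
  have hNi : (i : ℝ) ≤ N := by exact_mod_cast hi
  have hi0 : (0 : ℝ) ≤ i := Nat.cast_nonneg i
  -- the two halves
  have ha : 4 * ((i / 2 : ℕ) : ℝ) + 2 ≤ dm (Fin m × Bool) := by
    rw [hcard]
    have h5 : 2 * (i / 2) ≤ i := by omega
    have h6 : 2 * ((i / 2 : ℕ) : ℝ) ≤ i := by exact_mod_cast h5
    linarith
  have hb : 4 * ((i - i / 2 : ℕ) : ℝ) + 2 ≤ dm (Fin m × Bool) := by
    rw [hcard]
    have h5 : 2 * (i - i / 2) ≤ i + 1 := by omega
    have h6 : 2 * ((i - i / 2 : ℕ) : ℝ) ≤ i + 1 := by exact_mod_cast h5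
    linarith
  have h1 := TO_le hf hδ ho (i / 2) (i - i / 2) ha hb
  have e1 : i / 2 + (i - i / 2) = i := by omega
  rw [e1, hcard] at h1
  have h2 : ((N : ℝ) + 2) ^ i ≤ 3 ^ i * (N.descFactorial i : ℝ) := desc_ineq N i hi
  have e2 : ((i / 2).factorial : ℝ) * ((i - i / 2).factorial : ℝ) = (fac i : ℝ) := by
    unfold fac
    push_cast
    ring
  rw [e2] at h1
  have h3 : |TO h μ (i + 2)| ≤
      ((306 * δ) ^ i * (N.descFactorial i : ℝ)) * (fac i : ℝ) * (16 * ∑ p, μ p ^ 2) := by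
    refine h1.trans ?_
    refine mul_le_mul_of_nonneg_right (mul_le_mul_of_nonneg_right ?_ (Nat.cast_nonneg _)) hD
    calc (51 * (2 * ((N : ℝ) + 2) * δ)) ^ i = (102 * δ) ^ i * ((N : ℝ) + 2) ^ i := by
          rw [← mul_pow]; congr 1; ring
      _ ≤ (102 * δ) ^ i * (3 ^ i * (N.descFactorial i : ℝ)) :=
          mul_le_mul_of_nonneg_left h2 (by positivity)
      _ = (306 * δ) ^ i * (N.descFactorial i : ℝ) := by
          rw [← mul_assoc, ← mul_pow]; congr 2; ring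
  rw [abs_mul, abs_of_pos hG]
  have h4 := mul_le_mul_of_nonneg_left h3 hG.le
  refine h4.trans ?_
  have h5 := GG_le hκ hm i hi
  have h6 : (306 * δ) ^ i = (4 * κ) ^ i * (153 / 2 * (δ / κ)) ^ i := by
    rw [← mul_pow]
    congr 1
    field_simp
    ring
  have h7 : (fac i : ℝ) = 1 / 2 * cf i * ((i + 2).factorial : ℝ) := by
    unfold cf
    have : (0 : ℝ) < ((i + 2).factorial : ℝ) := by positivity
    field_simp
  rw [h6, h7]
  have h8 : 0 ≤ 1 / 2 * cf i * (153 / 2 * (δ / κ)) ^ i * (16 * ∑ p, μ p ^ 2) := by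
    have := cf_nonneg i
    positivity
  have h9 := mul_le_mul_of_nonneg_right h5 h8
  calc GG m κ (i + 2) * ((4 * κ) ^ i * (153 / 2 * (δ / κ)) ^ i * (N.descFactorial i : ℝ) *
        (1 / 2 * cf i * ((i + 2).factorial : ℝ)) * (16 * ∑ p, μ p ^ 2))
      = GG m κ (i + 2) * ((4 * κ) ^ i * ((i + 2).factorial * (N.descFactorial i : ℝ))) *
        (1 / 2 * cf i * (153 / 2 * (δ / κ)) ^ i * (16 * ∑ p, μ p ^ 2)) := by ring
    _ ≤ _ := h9
    _ = _ := by ring

/-- **the estimate of the Gauss-Bonnet-Chern sum** -/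
theorem gm_est [DecidableEq K] (hf : Fam h μ δ) (hδ : 0 ≤ δ)
    (ho : ∀ p q, sp (h p) (h q) = if p = q then 1 else 0) {κ : ℝ} (hκ : 0 < κ)
    (hδκ : δ ≤ κ / 64) (hm : 2 ≤ m) :
    |gm (fun _ : Fin m => (fun i j k l => κ * unitCurv i j k l +
      ∑ a, μ a * (h a i j * h a k l) : T4 m)) -
        GG m κ 0 * (1 + (∑ p, μ p ^ 2) / (2 * κ ^ 2 * ((2 * m - 1) * (2 * m - 3))))| ≤
      128 / 3 * (δ / κ) *
        (GG m κ 0 * ((∑ p, μ p ^ 2) / (2 * κ ^ 2 * ((2 * m - 1) * (2 * m - 3))))) := by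
  obtain ⟨N, hN⟩ : ∃ N, m = N + 2 := ⟨m - 2, by omega⟩
  have hmR : (2 : ℝ) ≤ m := by exact_mod_cast hm
  have d1 : (0 : ℝ) < 2 * m - 1 := by linarith
  have d3 : (0 : ℝ) < 2 * m - 3 := by linarith
  have hG2 : 0 < GG m κ 2 := GG_pos hκ (by omega)
  set D := ∑ p, μ p ^ 2 with hD
  have hD0 : 0 ≤ D := by positivity
  have e0 : GG m κ 0 * (D / (2 * κ ^ 2 * ((2 * m - 1) * (2 * m - 3)))) = GG m κ 2 * (16 * D) := by
    rw [GG_two κ hm]
    field_simp
    ring
  rw [mul_add, mul_one, e0, gm_pinch hκ.le]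
  have e1 : m + 1 = N + 3 := by omega
  have e2 : ∑ j ∈ range (m + 1), GG m κ j * TO h μ j =
      GG m κ 0 + GG m κ 2 * (16 * D) + ∑ i ∈ range N, GG m κ (i + 1 + 2) * TO h μ (i + 1 + 2) := by
    rw [e1, Finset.sum_range_succ', Finset.sum_range_succ', Finset.sum_range_succ']
    simp only [zero_add]
    rw [TO_zero, TO_one hf, TO_two hf ho]
    simp only [mul_one, mul_zero]
    have : ∀ i ∈ range N, GG m κ (i + 1 + 1 + 1) * TO h μ (i + 1 + 1 + 1) =
        GG m κ (i + 1 + 2) * TO h μ (i + 1 + 2) := fun i _ => rfl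
    rw [Finset.sum_congr rfl this]
    ring
  rw [e2]
  have e3 : ∀ S : ℝ, GG m κ 0 + GG m κ 2 * (16 * D) + S - (GG m κ 0 + GG m κ 2 * (16 * D)) = S :=
    fun S => by ring
  rw [e3]
  refine (Finset.abs_sum_le_sum_abs _ _).trans ?_
  have h1 : ∑ i ∈ range N, |GG m κ (i + 1 + 2) * TO h μ (i + 1 + 2)| ≤
      ∑ i ∈ range N, GG m κ 2 * (16 * D) * (cf (i + 1) * (153 / 2 * (δ / κ)) ^ (i + 1)) := by
    refine Finset.sum_le_sum fun i hi => ?_
    exact term_le hf hδ ho hκ hN (by have := Finset.mem_range.1 hi; omega)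
  refine h1.trans ?_
  rw [← Finset.mul_sum]
  have h2 : δ / κ ≤ 1 / 64 := by
    rw [div_le_iff₀ hκ]
    linarith
  have h3 : 0 ≤ δ / κ := by positivity
  have h4 := tail_le (y := 153 / 2 * (δ / κ)) (by positivity) (by linarith) N
  have h5 : 0 ≤ GG m κ 2 * (16 * D) := by positivity
  refine (mul_le_mul_of_nonneg_left h4 h5).trans ?_
  nlinarith [mul_nonneg h5 h3]

end

end Pool.Agent.H31EP
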