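import Pool.Agent.H31EP.Emb

/-!
# The iterates of the vacuum and the bounds of the Gauss-Bonnet sums
-/

set_option autoImplicit false
set_option linter.unusedSectionVars false

namespace Pool.Agent.H31EP

open Finset Pool.Agent.TH594.HP Pool.Agent.TH594.HE

variable {J : Type*} [Fintype J] [DecidableEq J] {K : Type*} [Fintype K]

section

variable {h : K → Matrix J J ℝ} {μ : K → ℝ} {δ : ℝ}

theorem LM_card (A : Matrix J J ℝ) {S : Finset J} (hS : LM A (vac : Fk J) S ≠ 0) : S.card = 2 :=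
  Dg_L (Dg_vac (J := J)) A S hS

theorem Le_first (hf : Fam h μ δ) : Le 2 2 (Xo μ h (E (vac : Fk J))) := by
  rw [first_eq hf]
  refine Le.sum _ _ fun p _ => Le.smul ?_ _
  intro S T hST
  rw [row_Qd] at hST
  have h1 : LM (h p) (vac : Fk J) S * LM (h p) (vac : Fk J) T ≠ 0 := hST
  exact ⟨(LM_card _ (left_ne_zero_of_mul h1)).le, (LM_card _ (right_ne_zero_of_mul h1)).le⟩

theorem U_first (hf : Fam h μ δ) :
    U (Xo μ h (E (vac : Fk J))) = Xo μ h (E (vac : Fk J)) := by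
  funext S
  rw [U_row, first_row hf, Finset.smul_sum]
  refine Finset.sum_congr rfl fun p _ => ?_
  by_cases hS : LM (h p) (vac : Fk J) S = 0
  · rw [hS, zero_smul, smul_zero, smul_zero]
  · rw [LM_card _ hS]
    norm_num

/-- the iterates -/
noncomputable def yy (h : K → Matrix J J ℝ) (μ : K → ℝ) (j : ℕ) : ℝ :=
  no ((Xo μ h ^ j) (E (vac : Fk J)))

theorem yy_nonneg (j : ℕ) : 0 ≤ yy h μ j := no_nonneg _

theorem pow_app (j : ℕ) (F : F2 J) : (Xo μ h ^ (j + 1)) F = Xo μ h ((Xo μ h ^ j) F) := by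
  rw [pow_succ', Module.End.mul_apply]

theorem Le_iter (hf : Fam h μ δ) (j : ℕ) :
    Le (2 * j + 2) (2 * j + 2) ((Xo μ h ^ (j + 1)) (E (vac : Fk J))) := by
  induction j with
  | zero =>
    rw [zero_add, pow_one]
    exact Le_first hf
  | succ j ih =>
    rw [pow_app]
    have := Le_Xo hf ih
    exact this.mono (by omega) (by omega)

theorem yy_succ (hf : Fam h μ δ) (hδ : 0 ≤ δ) (j : ℕ) (hn : 4 * (j : ℝ) + 6 ≤ dm J) :
    yy h μ (j + 2) ≤ 51 * (dm J * δ) * ((j + 1 : ℕ) : ℝ) * yy h μ (j + 1) := by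
  unfold yy
  rw [pow_app]
  have h1 := Xo_le (e := 2 * j) hf hδ (Le_iter hf j) (by push_cast; linarith)
  refine h1.trans (le_of_eq ?_)
  push_cast
  ring

theorem yy_le (hf : Fam h μ δ) (hδ : 0 ≤ δ) (j : ℕ) (hn : 4 * (j : ℝ) + 2 ≤ dm J) :
    yy h μ (j + 1) ≤ (51 * (dm J * δ)) ^ j * (j.factorial : ℝ) * yy h μ 1 := by
  induction j with
  | zero => simp
  | succ j ih =>
    push_cast at hn
    have h1 := ih (by linarith)
    have h2 := yy_succ hf hδ j (by linarith)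
    have hd : 0 ≤ dm J := dm_nonneg
    have h3 : 0 ≤ 51 * (dm J * δ) * ((j + 1 : ℕ) : ℝ) := by positivity
    refine h2.trans ((mul_le_mul_of_nonneg_left h1 h3).trans (le_of_eq ?_))
    rw [Nat.factorial_succ]
    push_cast
    ring

end

section

variable {h : K → Matrix J J ℝ} {μ : K → ℝ} {δ : ℝ}

/-- the Gauss-Bonnet sums -/
noncomputable def TO (h : K → Matrix J J ℝ) (μ : K → ℝ) (k : ℕ) : ℝ :=
  ((Op μ (fun p i j => h p i j)) ^ k) nn (vac : Fk J)

theorem TO_zero : TO h μ 0 = 1 := by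
  unfold TO
  rw [pow_zero]
  exact nn_vac

theorem TO_one (hf : Fam h μ δ) : TO h μ 1 = 0 := by
  have h1 := V_pow μ h 1 (vac : Fk J)
  rw [pow_one, pow_one] at h1
  have h2 : ip2 (E (vac : Fk J)) (Xo μ h (E vac)) = 0 := by
    unfold ip2
    refine Finset.sum_eq_zero fun S _ => ?_
    rw [first_row hf, ip_sum_right]
    refine Finset.sum_eq_zero fun p _ => ?_
    rw [ip_smul_right, ip_smul_right]
    have h3 : E (vac : Fk J) S = (vac : Fk J) S • (vac : Fk J) := rfl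
    rw [h3, ip_smul_left]
    by_cases hS : LM (h p) (vac : Fk J) S = 0
    · rw [hS]; ring
    · have h4 := LM_card _ hS
      have h5 : (vac : Fk J) S = 0 := by
        unfold vac
        rw [if_neg]
        intro h6
        rw [h6, Finset.card_empty] at h4
        omega
      rw [h5]; ring
  rw [h2] at h1
  unfold TO
  linarith

theorem TO_two [DecidableEq K] (hf : Fam h μ δ)
    (ho : ∀ p q, sp (h p) (h q) = if p = q then 1 else 0) :
    TO h μ 2 = 16 * ∑ p, μ p ^ 2 := by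
  have h1 := V_pow μ h 2 (vac : Fk J)
  have h2 : ip2 (E (vac : Fk J)) ((Xo μ h ^ 2) (E vac)) = no (Xo μ h (E (vac : Fk J))) ^ 2 := by
    rw [pow_two, Module.End.mul_apply, adj_Xo hf, U_E_vac, U_first hf, no_sq]
    rfl
  rw [h2, nn2_first hf ho] at h1
  unfold TO
  linarith

theorem TO_le [DecidableEq K] (hf : Fam h μ δ) (hδ : 0 ≤ δ)
    (ho : ∀ p q, sp (h p) (h q) = if p = q then 1 else 0) (a b : ℕ)
    (ha : 4 * (a : ℝ) + 2 ≤ dm J) (hb : 4 * (b : ℝ) + 2 ≤ dm J) :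
    |TO h μ (a + b + 2)| ≤ (51 * (dm J * δ)) ^ (a + b) *
      ((a.factorial : ℝ) * (b.factorial : ℝ)) * (16 * ∑ p, μ p ^ 2) := by
  have h1 := meet hf (a + 1) (b + 1)
  have e : a + 1 + (b + 1) = a + b + 2 := by ring
  rw [e] at h1
  have h2 := yy_le hf hδ a ha
  have h3 := yy_le hf hδ b hb
  have h4 : yy h μ 1 ^ 2 = 16 * ∑ p, μ p ^ 2 := by
    unfold yy
    rw [pow_one]
    exact nn2_first hf ho
  have hd : 0 ≤ dm J := dm_nonneg
  have h5 : yy h μ (a + 1) * yy h μ (b + 1) ≤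
      ((51 * (dm J * δ)) ^ a * (a.factorial : ℝ) * yy h μ 1) *
        ((51 * (dm J * δ)) ^ b * (b.factorial : ℝ) * yy h μ 1) :=
    mul_le_mul h2 h3 (yy_nonneg _) (mul_nonneg (by positivity) (yy_nonneg _))
  refine (h1.trans h5).trans (le_of_eq ?_)
  rw [← h4, pow_add]
  ring

end

end Pool.Agent.H31EP
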