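import Pool.Agent.H31EP.Dbl

/-!
# The norm, the degree, and the sums of squares of creations and annihilations
-/

set_option autoImplicit false
set_option linter.unusedSectionVars false

namespace Pool.Agent.H31EP

open Finset Pool.Agent.TH594.HP

variable {J : Type*} [Fintype J] [DecidableEq J]

/-- the norm -/
noncomputable def no (F : F2 J) : ℝ := Real.sqrt (nn2 F)

theorem no_nonneg (F : F2 J) : 0 ≤ no F := Real.sqrt_nonneg _

theorem no_sq (F : F2 J) : no F ^ 2 = nn2 F := Real.sq_sqrt (nn2_nonneg F)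

theorem ip2_prod (F G : F2 J) : ip2 F G = ∑ x : Finset J × Finset J, F x.1 x.2 * G x.1 x.2 := by
  rw [Fintype.sum_prod_type]
  rfl

/-- Cauchy-Schwarz -/
theorem cs (F G : F2 J) : ip2 F G ≤ no F * no G := by
  unfold no nn2
  rw [ip2_prod, ip2_prod, ip2_prod]
  have h := Real.sum_mul_le_sqrt_mul_sqrt (univ : Finset (Finset J × Finset J))
    (fun x => F x.1 x.2) (fun x => G x.1 x.2)
  simpa only [pow_two] using h

theorem cs_abs (F G : F2 J) : |ip2 F G| ≤ no F * no G := by
  rw [abs_le]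
  constructor
  · have h := cs (-F) G
    rw [ip2_neg_left] at h
    have e : no (-F) = no F := by unfold no; rw [nn2_neg]
    rw [e] at h
    linarith
  · exact cs F G

theorem no_add (F G : F2 J) : no (F + G) ≤ no F + no G := by
  have h1 : nn2 (F + G) ≤ (no F + no G) ^ 2 := by
    have h2 := cs F G
    have e : nn2 (F + G) = nn2 F + 2 * ip2 F G + nn2 G := by
      unfold nn2
      rw [ip2_add_left, ip2_add_right, ip2_add_right, ip2_comm G F]
      ring
    rw [e, add_sq, no_sq, no_sq]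
    linarith
  exact Real.sqrt_le_left (add_nonneg (no_nonneg F) (no_nonneg G)) |>.2 h1 |> fun h => by
    simpa [no] using h

theorem no_smul (t : ℝ) (F : F2 J) : no (t • F) = |t| * no F := by
  unfold no
  rw [nn2_smul, Real.sqrt_mul (sq_nonneg t), Real.sqrt_sq_eq_abs]

theorem no_neg (F : F2 J) : no (-F) = no F := by
  unfold no; rw [nn2_neg]

/-- the bound of the norm by duality -/
theorem no_le_of_dual {F : F2 J} {M : ℝ} (hM : 0 ≤ M) (h : |ip2 F F| ≤ M * no F) : no F ≤ M := by
  have h1 : ip2 F F = no F ^ 2 := (no_sq F).symm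
  rw [h1, abs_of_nonneg (sq_nonneg _)] at h
  by_contra hc
  push Not at hc
  have h2 : 0 < no F := lt_of_le_of_lt hM hc
  nlinarith

/-! ### degrees -/

/-- the degrees in the two sets of variables are at most `p` and `q` -/
def Le (p q : ℕ) (F : F2 J) : Prop := ∀ S T, F S T ≠ 0 → S.card ≤ p ∧ T.card ≤ q

theorem Le.mono {p q p' q' : ℕ} {F : F2 J} (h : Le p q F) (hp : p ≤ p') (hq : q ≤ q') :
    Le p' q' F := fun S T hF => ⟨(h S T hF).1.trans hp, (h S T hF).2.trans hq⟩

theorem Le.add {p q : ℕ} {F G : F2 J} (hF : Le p q F) (hG : Le p q G) : Le p q (F + G) := by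
  intro S T h
  by_cases h1 : F S T = 0
  · refine hG S T fun h2 => h ?_
    show F S T + G S T = 0
    rw [h1, h2, add_zero]
  · exact hF S T h1

theorem Le.smul {p q : ℕ} {F : F2 J} (hF : Le p q F) (t : ℝ) : Le p q (t • F) := by
  intro S T h
  refine hF S T fun h1 => h ?_
  show t * F S T = 0
  rw [h1, mul_zero]

theorem Le.neg {p q : ℕ} {F : F2 J} (hF : Le p q F) : Le p q (-F) := by
  rw [← neg_one_smul ℝ F]
  exact hF.smul _

theorem Le.sum {p q : ℕ} {K : Type*} (s : Finset K) (f : K → F2 J) (hf : ∀ a ∈ s, Le p q (f a)) :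
    Le p q (∑ a ∈ s, f a) := by
  classical
  induction s using Finset.induction_on with
  | empty =>
    intro S T h
    exact absurd rfl h
  | insert a s ha ih =>
    rw [Finset.sum_insert ha]
    exact (hf a (Finset.mem_insert_self a s)).add
      (ih fun b hb => hf b (Finset.mem_insert_of_mem hb))

theorem Le.cr1 {p q : ℕ} {F : F2 J} (h : Le p q F) (i : J) : Le (p + 1) q (cr1 i F) := by
  intro S T hS
  have h1 : cr i (sl F T) S ≠ 0 := hS
  rw [cr_apply] at h1
  by_cases hi : i ∈ S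
  · rw [if_pos hi] at h1
    have h2 := h _ _ (right_ne_zero_of_mul h1)
    rw [← Finset.card_erase_add_one hi]
    exact ⟨by omega, h2.2⟩
  · rw [if_neg hi] at h1
    exact absurd rfl h1

theorem Le.an1 {p q : ℕ} {F : F2 J} (h : Le p q F) (i : J) : Le (p - 1) q (an1 i F) := by
  intro S T hS
  have h1 : an i (sl F T) S ≠ 0 := hS
  rw [an_apply] at h1
  by_cases hi : i ∈ S
  · rw [if_pos hi] at h1
    exact absurd rfl h1
  · rw [if_neg hi] at h1
    have h2 := h _ _ (right_ne_zero_of_mul h1)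
    rw [Finset.card_insert_of_notMem hi] at h2
    exact ⟨by omega, h2.2⟩

theorem Le.cr2 {p q : ℕ} {F : F2 J} (h : Le p q F) (i : J) : Le p (q + 1) (cr2 i F) := by
  intro S T hS
  have h1 : (-1) ^ S.card * cr i (F S) T ≠ 0 := hS
  have h1 := right_ne_zero_of_mul h1
  rw [cr_apply] at h1
  by_cases hi : i ∈ T
  · rw [if_pos hi] at h1
    have h2 := h _ _ (right_ne_zero_of_mul h1)
    rw [← Finset.card_erase_add_one hi]
    exact ⟨h2.1, by omega⟩
  · rw [if_neg hi] at h1
    exact absurd rfl h1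

theorem Le.an2 {p q : ℕ} {F : F2 J} (h : Le p q F) (i : J) : Le p (q - 1) (an2 i F) := by
  intro S T hS
  have h1 : (-1) ^ S.card * an i (F S) T ≠ 0 := hS
  have h1 := right_ne_zero_of_mul h1
  rw [an_apply] at h1
  by_cases hi : i ∈ T
  · rw [if_pos hi] at h1
    exact absurd rfl h1
  · rw [if_neg hi] at h1
    have h2 := h _ _ (right_ne_zero_of_mul h1)
    rw [Finset.card_insert_of_notMem hi] at h2
    exact ⟨h2.1, by omega⟩

/-! ### sums over the indices -/

theorem sum_nn_an_eq (f : Fk J) : ∑ i, nn (an i f) = ∑ S, (S.card : ℝ) * (f S * f S) := by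
  have h1 : ∀ i : J, nn (an i f) = ∑ S : Finset J, if i ∈ S then f S * f S else 0 := by
    intro i
    unfold nn
    rw [← adj]
    unfold ip
    refine Finset.sum_congr rfl fun S _ => ?_
    simp only [cr_apply, an_apply]
    by_cases hi : i ∈ S
    · rw [if_pos hi, if_pos hi, if_neg (Finset.notMem_erase i S), Finset.insert_erase hi,
        sg_erase i hi, ch_self]
      have := sg_sq i S
      linear_combination f S * f S * this
    · rw [if_neg hi, if_neg hi]; ring
  simp only [h1]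
  rw [Finset.sum_comm]
  refine Finset.sum_congr rfl fun S _ => ?_
  rw [← Finset.sum_filter]
  have h2 : (univ : Finset J).filter (fun i => i ∈ S) = S := by ext i; simp
  rw [h2, Finset.sum_const, nsmul_eq_mul]

theorem sum_an1 {p q : ℕ} {F : F2 J} (h : Le p q F) : ∑ i, nn2 (an1 i F) ≤ p * nn2 F := by
  have h1 : ∀ i : J, nn2 (an1 i F) = ∑ T, nn (an i (sl F T)) := fun i => nn2_sl _
  simp only [h1]
  rw [Finset.sum_comm, nn2_sl, Finset.mul_sum]
  refine Finset.sum_le_sum fun T _ => ?_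
  rw [sum_nn_an_eq]
  unfold nn ip
  rw [Finset.mul_sum]
  refine Finset.sum_le_sum fun S _ => ?_
  by_cases h2 : sl F T S = 0
  · rw [h2]; simp
  · have h3 : (S.card : ℝ) ≤ p := by exact_mod_cast (h S T h2).1
    exact mul_le_mul_of_nonneg_right h3 (mul_self_nonneg _)

theorem sum_an2 {p q : ℕ} {F : F2 J} (h : Le p q F) : ∑ i, nn2 (an2 i F) ≤ q * nn2 F := by
  have h1 : ∀ i : J, nn2 (an2 i F) = ∑ S, nn (an i (F S)) := by
    intro i
    rw [nn2_row]
    refine Finset.sum_congr rfl fun S _ => ?_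
    rw [row_an2]
    unfold nn
    rw [ip_smul_left, ip_smul_right, ← mul_assoc, sgn_sq, one_mul]
  simp only [h1]
  rw [Finset.sum_comm, nn2_row, Finset.mul_sum]
  refine Finset.sum_le_sum fun S _ => ?_
  rw [sum_nn_an_eq]
  unfold nn ip
  rw [Finset.mul_sum]
  refine Finset.sum_le_sum fun T _ => ?_
  by_cases h2 : F S T = 0
  · rw [h2]; simp
  · have h3 : (T.card : ℝ) ≤ q := by exact_mod_cast (h S T h2).2
    exact mul_le_mul_of_nonneg_right h3 (mul_self_nonneg _)

/-- `‖e_i ∧ F‖ ≤ ‖F‖` -/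
theorem nn2_cr1 (i : J) (F : F2 J) : nn2 (cr1 i F) ≤ nn2 F := by
  rw [nn2_sl, nn2_sl F]
  refine Finset.sum_le_sum fun T _ => ?_
  rw [sl_cr1, nn_split i (sl F T)]
  have := nn_nonneg (an i (sl F T))
  linarith

theorem nn2_cr2 (i : J) (F : F2 J) : nn2 (cr2 i F) ≤ nn2 F := by
  rw [nn2_row, nn2_row F]
  refine Finset.sum_le_sum fun S _ => ?_
  rw [row_cr2]
  have e : nn ((-1 : ℝ) ^ S.card • cr i (F S)) = nn (cr i (F S)) := by
    unfold nn
    rw [ip_smul_left, ip_smul_right, ← mul_assoc, sgn_sq, one_mul]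
  rw [e, nn_split i (F S)]
  have := nn_nonneg (an i (F S))
  linarith

theorem sum_cr1 (F : F2 J) : ∑ i, nn2 (cr1 i F) ≤ (Fintype.card J : ℝ) * nn2 F := by
  calc ∑ i, nn2 (cr1 i F) ≤ ∑ _i : J, nn2 F := Finset.sum_le_sum fun i _ => nn2_cr1 i F
    _ = _ := by rw [Finset.sum_const, Finset.card_univ, nsmul_eq_mul]

theorem sum_cr2 (F : F2 J) : ∑ i, nn2 (cr2 i F) ≤ (Fintype.card J : ℝ) * nn2 F := by
  calc ∑ i, nn2 (cr2 i F) ≤ ∑ _i : J, nn2 F := Finset.sum_le_sum fun i _ => nn2_cr2 i F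
    _ = _ := by rw [Finset.sum_const, Finset.card_univ, nsmul_eq_mul]

end Pool.Agent.H31EP
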