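import Pool.Agent.H31EP.Wpc
import Pool.Agent.H31EP.Fld

/-!
# The Gauss-Bonnet-Chern sum from a bound of the steps
-/

set_option autoImplicit false
set_option linter.unusedSectionVars false

namespace Pool.Agent.H31EP

open Finset Pool.Agent.TH594.HP Pool.Agent.TH594.HE
open Pool.Agent.W666.GB (AlgCurv gbc scal roundGB unitCurv CurvField)
open Pool.Agent.W669.HD (T4 gm ur unit_squares cp negT addT unitT OpNonneg BiForm gbc_eq cp_unit
  unit_bi unit_curv add_curv)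

/-- the bound of the steps -/
def Step {J : Type*} [Fintype J] [DecidableEq J] {K : Type*} [Fintype K]
    (h : K → Matrix J J ℝ) (μ : K → ℝ) (d : ℝ) : Prop :=
  ∀ j : ℕ, yy h μ (j + 2) ≤ 51 * (dm J * d) * ((j + 1 : ℕ) : ℝ) * yy h μ (j + 1)

section

variable {J : Type*} [Fintype J] [DecidableEq J] {K : Type*} [Fintype K]
variable {h : K → Matrix J J ℝ} {μ mw : K → ℝ} {δ r M d : ℝ}

theorem Wt.step (W : Wt h μ mw δ r M) {G H d : ℝ} (hG : 0 ≤ G)
    (hG2 : r * M ≤ dm J * G ^ 2) (hH : r ≤ dm J * H) (hd : 5 * G + 28 * H ≤ 51 / 2 * d) :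
    Step h μ d := by
  intro j
  unfold yy
  rw [pow_app]
  have h1 := W.Xo_le (e := 2 * j) (Le_iter W.fam j) hG hG2 hH hd
  refine h1.trans (le_of_eq ?_)
  push_cast
  ring

theorem Step.yy_le (hs : Step h μ d) (hd : 0 ≤ d) (j : ℕ) :
    yy h μ (j + 1) ≤ (51 * (dm J * d)) ^ j * (j.factorial : ℝ) * yy h μ 1 := by
  induction j with
  | zero => simp
  | succ j ih =>
    have h2 := hs j
    have hd' : 0 ≤ dm J := dm_nonneg
    have h3 : 0 ≤ 51 * (dm J * d) * ((j + 1 : ℕ) : ℝ) := by positivity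
    refine h2.trans ((mul_le_mul_of_nonneg_left ih h3).trans (le_of_eq ?_))
    rw [Nat.factorial_succ]
    push_cast
    ring

theorem Step.TO_le [DecidableEq K] (hs : Step h μ d) (hf : Fam h μ δ) (hd : 0 ≤ d)
    (ho : ∀ p q, sp (h p) (h q) = if p = q then 1 else 0) (a b : ℕ) :
    |TO h μ (a + b + 2)| ≤ (51 * (dm J * d)) ^ (a + b) *
      ((a.factorial : ℝ) * (b.factorial : ℝ)) * (16 * ∑ p, μ p ^ 2) := by
  have h1 := meet hf (a + 1) (b + 1)
  have e : a + 1 + (b + 1) = a + b + 2 := by ring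
  rw [e] at h1
  have h2 := hs.yy_le hd a
  have h3 := hs.yy_le hd b
  have h4 : yy h μ 1 ^ 2 = 16 * ∑ p, μ p ^ 2 := by
    unfold yy
    rw [pow_one]
    exact nn2_first hf ho
  have hd' : 0 ≤ dm J := dm_nonneg
  have h5 : yy h μ (a + 1) * yy h μ (b + 1) ≤
      ((51 * (dm J * d)) ^ a * (a.factorial : ℝ) * yy h μ 1) *
        ((51 * (dm J * d)) ^ b * (b.factorial : ℝ) * yy h μ 1) :=
    mul_le_mul h2 h3 (yy_nonneg _) (mul_nonneg (by positivity) (yy_nonneg _))
  refine (h1.trans h5).trans (le_of_eq ?_)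
  rw [← h4, pow_add]
  ring

end

section

variable {m : ℕ} {K : Type*} [Fintype K]
variable {h : K → Matrix (Fin m × Bool) (Fin m × Bool) ℝ} {μ : K → ℝ} {δ d : ℝ}

/-- the bound of a term of the expansion -/
theorem Step.term_le [DecidableEq K] (hs : Step h μ d) (hf : Fam h μ δ) (hd : 0 ≤ d)
    (ho : ∀ p q, sp (h p) (h q) = if p = q then 1 else 0) {κ : ℝ} (hκ : 0 < κ) {N : ℕ}
    (hm : m = N + 2) {i : ℕ} (hi : i ≤ N) :
    |GG m κ (i + 2) * TO h μ (i + 2)| ≤
      GG m κ 2 * (16 * ∑ p, μ p ^ 2) * (cf i * (153 / 2 * (d / κ)) ^ i) := by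
  have hG : 0 < GG m κ (i + 2) := GG_pos hκ (by omega)
  have hD : 0 ≤ 16 * ∑ p, μ p ^ 2 := by positivity
  have hcard : dm (Fin m × Bool) = 2 * ((N : ℝ) + 2) := by
    unfold dm
    rw [card_J, hm]
    push_cast
    ring
  have hNi : (i : ℝ) ≤ N := by exact_mod_cast hi
  have hi0 : (0 : ℝ) ≤ i := Nat.cast_nonneg i
  have h1 := hs.TO_le hf hd ho (i / 2) (i - i / 2)
  have e1 : i / 2 + (i - i / 2) = i := by omega
  rw [e1, hcard] at h1
  have h2 : ((N : ℝ) + 2) ^ i ≤ 3 ^ i * (N.descFactorial i : ℝ) := desc_ineq N i hi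
  have e2 : ((i / 2).factorial : ℝ) * ((i - i / 2).factorial : ℝ) = (fac i : ℝ) := by
    unfold fac
    push_cast
    ring
  rw [e2] at h1
  have h3 : |TO h μ (i + 2)| ≤
      ((306 * d) ^ i * (N.descFactorial i : ℝ)) * (fac i : ℝ) * (16 * ∑ p, μ p ^ 2) := by
    refine h1.trans ?_
    refine mul_le_mul_of_nonneg_right (mul_le_mul_of_nonneg_right ?_ (Nat.cast_nonneg _)) hD
    calc (51 * (2 * ((N : ℝ) + 2) * d)) ^ i = (102 * d) ^ i * ((N : ℝ) + 2) ^ i := by
          rw [← mul_pow]; congr 1; ring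
      _ ≤ (102 * d) ^ i * (3 ^ i * (N.descFactorial i : ℝ)) :=
          mul_le_mul_of_nonneg_left h2 (by positivity)
      _ = (306 * d) ^ i * (N.descFactorial i : ℝ) := by
          rw [← mul_assoc, ← mul_pow]; congr 2; ring
  rw [abs_mul, abs_of_pos hG]
  have h4 := mul_le_mul_of_nonneg_left h3 hG.le
  refine h4.trans ?_
  have h5 := GG_le hκ hm i hi
  have h6 : (306 * d) ^ i = (4 * κ) ^ i * (153 / 2 * (d / κ)) ^ i := by
    rw [← mul_pow]
    congr 1
    field_simp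
    ring
  have h7 : (fac i : ℝ) = 1 / 2 * cf i * ((i + 2).factorial : ℝ) := by
    unfold cf
    have : (0 : ℝ) < ((i + 2).factorial : ℝ) := by positivity
    field_simp
  rw [h6, h7]
  have h8 : 0 ≤ 1 / 2 * cf i * (153 / 2 * (d / κ)) ^ i * (16 * ∑ p, μ p ^ 2) := by
    have := cf_nonneg i
    positivity
  have h9 := mul_le_mul_of_nonneg_right h5 h8
  calc GG m κ (i + 2) * ((4 * κ) ^ i * (153 / 2 * (d / κ)) ^ i * (N.descFactorial i : ℝ) *
        (1 / 2 * cf i * ((i + 2).factorial : ℝ)) * (16 * ∑ p, μ p ^ 2))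
      = GG m κ (i + 2) * ((4 * κ) ^ i * ((i + 2).factorial * (N.descFactorial i : ℝ))) *
        (1 / 2 * cf i * (153 / 2 * (d / κ)) ^ i * (16 * ∑ p, μ p ^ 2)) := by ring
    _ ≤ _ := h9
    _ = _ := by ring

/-- **the estimate of the Gauss-Bonnet-Chern sum** -/
theorem Step.gm_est [DecidableEq K] (hs : Step h μ d) (hf : Fam h μ δ) (hd : 0 ≤ d)
    (ho : ∀ p q, sp (h p) (h q) = if p = q then 1 else 0) {κ : ℝ} (hκ : 0 < κ)
    (hdκ : d ≤ κ / 64) (hm : 2 ≤ m) :
    |gm (fun _ : Fin m => (fun i j k l => κ * unitCurv i j k l +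
      ∑ a, μ a * (h a i j * h a k l) : T4 m)) -
        GG m κ 0 * (1 + (∑ p, μ p ^ 2) / (2 * κ ^ 2 * ((2 * m - 1) * (2 * m - 3))))| ≤
      128 / 3 * (d / κ) *
        (GG m κ 0 * ((∑ p, μ p ^ 2) / (2 * κ ^ 2 * ((2 * m - 1) * (2 * m - 3))))) := by
  obtain ⟨N, hN⟩ : ∃ N, m = N + 2 := ⟨m - 2, by omega⟩
  have hmR : (2 : ℝ) ≤ m := by exact_mod_cast hm
  have d1 : (0 : ℝ) < 2 * m - 1 := by linarith
  have d3 : (0 : ℝ) < 2 * m - 3 := by linarith
  have hG2 : 0 < GG m κ 2 := GG_pos hκ (by omega)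
  set D := ∑ p, μ p ^ 2 with hD
  have hD0 : 0 ≤ D := by positivity
  have e0 : GG m κ 0 * (D / (2 * κ ^ 2 * ((2 * m - 1) * (2 * m - 3)))) = GG m κ 2 * (16 * D) := by
    rw [GG_two κ hm]
    field_simp
    ring
  rw [mul_add, mul_one, e0, gm_pinch hκ.le]
  have e1 : m + 1 = N + 3 := by omega
  have e2 : ∑ j ∈ range (m + 1), GG m κ j * TO h μ j =
      GG m κ 0 + GG m κ 2 * (16 * D) + ∑ i ∈ range N, GG m κ (i + 1 + 2) * TO h μ (i + 1 + 2) := by
    rw [e1, Finset.sum_range_succ', Finset.sum_range_succ', Finset.sum_range_succ']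
    simp only [zero_add]
    rw [TO_zero, TO_one hf, TO_two hf ho]
    simp only [mul_one, mul_zero]
    have : ∀ i ∈ range N, GG m κ (i + 1 + 1 + 1) * TO h μ (i + 1 + 1 + 1) =
        GG m κ (i + 1 + 2) * TO h μ (i + 1 + 2) := fun i _ => rfl
    rw [Finset.sum_congr rfl this]
    ring
  rw [e2]
  have e3 : ∀ S : ℝ, GG m κ 0 + GG m κ 2 * (16 * D) + S - (GG m κ 0 + GG m κ 2 * (16 * D)) = S :=
    fun S => by ring
  rw [e3]
  refine (Finset.abs_sum_le_sum_abs _ _).trans ?_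
  have h1 : ∑ i ∈ range N, |GG m κ (i + 1 + 2) * TO h μ (i + 1 + 2)| ≤
      ∑ i ∈ range N, GG m κ 2 * (16 * D) * (cf (i + 1) * (153 / 2 * (d / κ)) ^ (i + 1)) := by
    refine Finset.sum_le_sum fun i hi => ?_
    exact hs.term_le hf hd ho hκ hN (by have := Finset.mem_range.1 hi; omega)
  refine h1.trans ?_
  rw [← Finset.mul_sum]
  have h2 : d / κ ≤ 1 / 64 := by
    rw [div_le_iff₀ hκ]
    linarith
  have h3 : 0 ≤ d / κ := by positivity
  have h4 := tail_le (y := 153 / 2 * (d / κ)) (by positivity) (by linarith) N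
  have h5 : 0 ≤ GG m κ 2 * (16 * D) := by positivity
  refine (mul_le_mul_of_nonneg_left h4 h5).trans ?_
  nlinarith [mul_nonneg h5 h3]

variable {V : Type} [NormedAddCommGroup V] [InnerProductSpace ℝ V]

/-- the estimate, from a decomposition in eigenvectors -/
theorem est_step (e : OrthonormalBasis (Fin m × Bool) ℝ V) {R : V → V → V → V → ℝ}
    {κ δ d : ℝ} (hκ : 0 < κ) (hd : 0 ≤ d) (hdκ : d ≤ κ / 64) (hm : 2 ≤ m)
    {h : Pr (Fin m × Bool) → Matrix (Fin m × Bool) (Fin m × Bool) ℝ}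
    {μ : Pr (Fin m × Bool) → ℝ} (hf : Fam h μ δ) (hs : Step h μ d)
    (ho : ∀ p q, sp (h p) (h q) = if p = q then 1 else 0)
    (hR : ∀ i j k l, -R (e i) (e j) (e k) (e l) = κ * unitCurv i j k l +
      ∑ p, μ p * (h p i j * h p k l)) :
    |(-1) ^ m * gbc e R - roundGB m κ * (1 + wterm e R (-κ))| ≤
      128 / 3 * (d / κ) * (roundGB m κ * wterm e R (-κ)) := by
  have hmR : (2 : ℝ) ≤ m := by exact_mod_cast hm
  have d1 : (0 : ℝ) < 2 * m - 1 := by linarith
  have d3 : (0 : ℝ) < 2 * m - 3 := by linarith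
  have h1 := hs.gm_est hf hd ho hκ hdκ hm
  -- the squared norm
  have h2 : weylSq e R (-κ) = 4 * ∑ p, μ p ^ 2 := by
    rw [← sumsq_mu ho]
    unfold weylSq
    refine Finset.sum_congr rfl fun i _ => Finset.sum_congr rfl fun j _ =>
      Finset.sum_congr rfl fun k _ => Finset.sum_congr rfl fun l _ => ?_
    have h3 := hR i j k l
    rw [cp_unit]
    have h4 : ∑ p, μ p * (h p i j * h p k l) =
        -(R (e i) (e j) (e k) (e l) - -κ * unitCurv i j k l) := by linarith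
    rw [h4, neg_sq]
  have h3 : (∑ p, μ p ^ 2) / (2 * κ ^ 2 * ((2 * m - 1) * (2 * m - 3))) = wterm e R (-κ) := by
    unfold wterm
    rw [h2, neg_sq]
    field_simp
    ring
  rw [h3] at h1
  have h4 : (fun _ : Fin m => cp e (negT R)) = fun _ : Fin m => (fun i j k l =>
      κ * unitCurv i j k l + ∑ a, μ a * (h a i j * h a k l) : T4 m) := by
    funext _ i j k l
    rw [← hR i j k l]
    rfl
  have hπ := Real.pi_pos
  set C := 1 / ((8 * Real.pi) ^ m * (m.factorial : ℝ)) with hC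
  have hC0 : 0 < C := by positivity
  have hround : roundGB m κ = C * GG m κ 0 := by
    unfold roundGB GG
    rw [Nat.choose_zero_right, Nat.sub_zero]
    have : (8 * Real.pi) ^ m = 2 ^ m * (4 * Real.pi) ^ m := by
      rw [← mul_pow]; congr 1; ring
    rw [hC, this, mul_pow 2 κ m]
    push_cast
    field_simp
  rw [gbc_eq, h4, hround, ← hC]
  have h5 := mul_le_mul_of_nonneg_left h1 hC0.le
  rw [← abs_of_pos hC0, ← abs_mul, abs_of_pos hC0] at h5
  refine le_trans (le_of_eq ?_) (h5.trans (le_of_eq ?_))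
  · congr 1
    ring
  · ring

end

end Pool.Agent.H31EP
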