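import Pool.Agent.H31EP.Fam

/-!
# The operator whose powers give the Gauss-Bonnet sums, and its decomposition
-/

set_option autoImplicit false
set_option linter.unusedSectionVars false

namespace Pool.Agent.H31EP

open Finset Pool.Agent.TH594.HP Pool.Agent.TH594.HE

variable {J : Type*} [Fintype J] [DecidableEq J] {K : Type*} [Fintype K]

section swap

variable {h : K → Matrix J J ℝ} {μ : K → ℝ} {δ : ℝ} {u u' v v' : J → Module.End ℝ (F2 J)}

theorem swap_point {R : Type*} [Ring R] [Algebra ℝ R] (u u' v v' : R) (t1 t2 t3 t4 : ℝ)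
    (h1 : u' * v = t1 • (1 : R) - v * u') (h2 : u * v = t2 • (1 : R) - v * u)
    (h3 : u' * v' = t3 • (1 : R) - v' * u') (h4 : u * v' = t4 • (1 : R) - v' * u) :
    (u * u') * (v * v') = (v * v') * (u * u') + t1 • (u * v') - t2 • (u' * v') + t3 • (v * u)
      - t4 • (v * u') := by
  have e1 : (u * u') * (v * v') = u * (u' * v) * v' := by noncomm_ring
  have e2 : u * (u' * v) * v' = t1 • (u * v') - (u * v) * (u' * v') := by
    rw [h1, mul_sub, sub_mul, mul_smul_comm, mul_one, smul_mul_assoc]
    noncomm_ring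
  have e3 : (u * v) * (u' * v') = t2 • (u' * v') - v * (u * (u' * v')) := by
    rw [h2, sub_mul, smul_mul_assoc, one_mul]
    noncomm_ring
  have e4 : v * (u * (u' * v')) = t3 • (v * u) - v * ((u * v') * u') := by
    rw [h3, mul_sub, mul_smul_comm, mul_one, mul_sub, mul_smul_comm]
    noncomm_ring
  have e5 : v * ((u * v') * u') = t4 • (v * u') - (v * v') * (u * u') := by
    rw [h4, sub_mul, smul_mul_assoc, one_mul, mul_sub, mul_smul_comm]
    noncomm_ring
  rw [e1, e2, e3, e4, e5]
  abel

/-- the Ricci contractions allow to exchange the two factors -/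
theorem swap (hf : Fam h μ δ) (a1 a2 a3 a4 : ℝ)
    (h1 : ∀ j k, u' j * v k = (a1 * dl j k) • (1 : Module.End ℝ (F2 J)) - v k * u' j)
    (h2 : ∀ i k, u i * v k = (a2 * dl i k) • (1 : Module.End ℝ (F2 J)) - v k * u i)
    (h3 : ∀ j l, u' j * v' l = (a3 * dl j l) • (1 : Module.End ℝ (F2 J)) - v' l * u' j)
    (h4 : ∀ i l, u i * v' l = (a4 * dl i l) • (1 : Module.End ℝ (F2 J)) - v' l * u i) :
    Pc μ h u u' v v' = Pc μ h v v' u u' := by
  rw [Pc_expand, Pc_expand μ h v v' u u']
  have e0 : ∀ i j k l, At μ h i j k l • ((u i * u' j) * (v k * v' l)) =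
      At μ h i j k l • ((v k * v' l) * (u i * u' j)) +
      (dl j k • ((a1 * At μ h i j k l) • (u i * v' l)) +
      (dl i k • ((-(a2 * At μ h i j k l)) • (u' j * v' l)) +
      (dl j l • ((a3 * At μ h i j k l) • (v k * u i)) +
      dl i l • ((-(a4 * At μ h i j k l)) • (v k * u' j))))) := by
    intro i j k l
    rw [swap_point _ _ _ _ _ _ _ _ (h1 j k) (h2 i k) (h3 j l) (h4 i l)]
    simp only [smul_add, smul_sub, smul_smul]
    module
  simp only [e0, Finset.sum_add_distrib]
  have z1 : ∑ i, ∑ j, ∑ k, ∑ l, dl j k • ((a1 * At μ h i j k l) • (u i * v' l)) = 0 := by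
    have : ∀ i, ∑ j, ∑ k, ∑ l, dl j k • ((a1 * At μ h i j k l) • (u i * v' l)) =
        ∑ l, ∑ j, (a1 * At μ h i j j l) • (u i * v' l) := by
      intro i
      rw [Finset.sum_comm' (t' := univ) (s' := fun _ => univ) (by simp)]
      rw [Finset.sum_comm]
      conv_rhs => rw [Finset.sum_comm]
      refine Finset.sum_congr rfl fun j _ => ?_
      rw [Finset.sum_eq_single j]
      · simp [dl]
      · intro k _ hk
        refine Finset.sum_eq_zero fun l _ => ?_
        rw [dl, if_neg (Ne.symm hk), zero_smul]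
      · simp
    simp only [this]
    refine Finset.sum_eq_zero fun i _ => Finset.sum_eq_zero fun l _ => ?_
    rw [← Finset.sum_smul, ← Finset.mul_sum, ric_jk hf, mul_zero, zero_smul]
  have z2 : ∑ i, ∑ j, ∑ k, ∑ l, dl i k • ((-(a2 * At μ h i j k l)) • (u' j * v' l)) = 0 := by
    rw [Finset.sum_comm]
    refine Finset.sum_eq_zero fun j _ => ?_
    have : ∀ i, ∑ k, ∑ l, dl i k • ((-(a2 * At μ h i j k l)) • (u' j * v' l)) =
        ∑ l, (-(a2 * At μ h i j i l)) • (u' j * v' l) := by
      intro i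
      rw [Finset.sum_eq_single i]
      · simp [dl]
      · intro k _ hk
        refine Finset.sum_eq_zero fun l _ => ?_
        rw [dl, if_neg (Ne.symm hk), zero_smul]
      · simp
    simp only [this]
    rw [Finset.sum_comm]
    refine Finset.sum_eq_zero fun l _ => ?_
    rw [← Finset.sum_smul, Finset.sum_neg_distrib, ← Finset.mul_sum, ric_ik hf, mul_zero,
      neg_zero, zero_smul]
  have z3 : ∑ i, ∑ j, ∑ k, ∑ l, dl j l • ((a3 * At μ h i j k l) • (v k * u i)) = 0 := by
    refine Finset.sum_eq_zero fun i _ => ?_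
    rw [Finset.sum_comm]
    refine Finset.sum_eq_zero fun k _ => ?_
    have : ∀ j, ∑ l, dl j l • ((a3 * At μ h i j k l) • (v k * u i)) =
        (a3 * At μ h i j k j) • (v k * u i) := by
      intro j
      rw [Finset.sum_eq_single j]
      · simp [dl]
      · intro l _ hl
        rw [dl, if_neg (Ne.symm hl), zero_smul]
      · simp
    simp only [this]
    rw [← Finset.sum_smul, ← Finset.mul_sum, ric_jl hf, mul_zero, zero_smul]
  have z4 : ∑ i, ∑ j, ∑ k, ∑ l, dl i l • ((-(a4 * At μ h i j k l)) • (v k * u' j)) = 0 := by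
    rw [Finset.sum_comm]
    refine Finset.sum_eq_zero fun j _ => ?_
    rw [Finset.sum_comm]
    refine Finset.sum_eq_zero fun k _ => ?_
    have : ∀ i, ∑ l, dl i l • ((-(a4 * At μ h i j k l)) • (v k * u' j)) =
        (-(a4 * At μ h i j k i)) • (v k * u' j) := by
      intro i
      rw [Finset.sum_eq_single i]
      · simp [dl]
      · intro l _ hl
        rw [dl, if_neg (Ne.symm hl), zero_smul]
      · simp
    simp only [this]
    rw [← Finset.sum_smul, Finset.sum_neg_distrib, ← Finset.mul_sum, ric_il hf, mul_zero,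
      neg_zero, zero_smul]
  rw [z1, z2, z3, z4, add_zero, add_zero, add_zero, add_zero]
  -- rename the indices
  have h5 : ∀ G : J → J → J → J → Module.End ℝ (F2 J), ∑ i, ∑ j, ∑ k, ∑ l, G i j k l =
      ∑ k, ∑ l, ∑ i, ∑ j, G i j k l := by
    intro G
    have h6 : ∀ G : J → J → J → J → Module.End ℝ (F2 J), ∑ i, ∑ j, ∑ k, ∑ l, G i j k l =
        ∑ p : J × J, ∑ q : J × J, G p.1 p.2 q.1 q.2 := by
      intro G
      rw [Fintype.sum_prod_type]
      refine Finset.sum_congr rfl fun i _ => Finset.sum_congr rfl fun j _ => ?_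
      rw [Fintype.sum_prod_type]
    rw [h6, h6 (fun k l i j => G i j k l), Finset.sum_comm]
  rw [h5]
  refine Finset.sum_congr rfl fun k _ => Finset.sum_congr rfl fun l _ =>
    Finset.sum_congr rfl fun i _ => Finset.sum_congr rfl fun j _ => ?_
  congr 1
  unfold At
  exact Finset.sum_congr rfl fun p _ => by ring

end swap

end Pool.Agent.H31EP
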