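import Pool.Agent.H31EP.Gal

/-!
# The nine pieces with weights
-/

set_option autoImplicit false
set_option linter.unusedSectionVars false

namespace Pool.Agent.H31EP

open Finset Pool.Agent.TH594.HP Pool.Agent.TH594.HE

variable {J : Type*} [Fintype J] [DecidableEq J] {K : Type*} [Fintype K]

/-- The eigenvalues `μ` are dominated by weights `mw ≤ M` such that the operator with the eigenvalues `mw`
satisfies the Bianchi identity and has the Ricci contraction `r`. -/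
structure Wt (h : K → Matrix J J ℝ) (μ mw : K → ℝ) (δ r M : ℝ) : Prop where
  fam : Fam h μ δ
  dom : ∀ p, |μ p| ≤ mw p
  le : ∀ p, mw p ≤ M
  eis : Eis (fun p => Real.sqrt (mw p) • h p) r
  r0 : 0 ≤ r
  M0 : 0 ≤ M

section

variable {h : K → Matrix J J ℝ} {μ mw : K → ℝ} {δ r M : ℝ}

theorem Wt.mw0 (W : Wt h μ mw δ r M) (p : K) : 0 ≤ mw p := (abs_nonneg _).trans (W.dom p)

theorem Qd_smul (u u' : J → Module.End ℝ (F2 J)) (t : ℝ) (ν : Matrix J J ℝ) (F : F2 J) :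
    Qd u u' (t • ν) F = t • Qd u u' ν F := by
  rw [Qd_apply, Qd_apply, Finset.smul_sum]
  refine Finset.sum_congr rfl fun i _ => ?_
  rw [Finset.smul_sum]
  refine Finset.sum_congr rfl fun j _ => ?_
  rw [Matrix.smul_apply, smul_eq_mul, mul_smul]

theorem Wt.nnq (W : Wt h μ mw δ r M) (u u' : J → Module.End ℝ (F2 J)) (F : F2 J) (p : K) :
    nn2 (Qd u u' (Real.sqrt (mw p) • h p) F) = mw p * nn2 (Qd u u' (h p) F) := by
  rw [Qd_smul, nn2_smul, Real.sq_sqrt (W.mw0 p)]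

/-- the norm of a piece -/
theorem Wt.piece (W : Wt h μ mw δ r M)
    {u u' v v' w w' : J → Module.End ℝ (F2 J)} (hu : Adj u w) (hu' : Adj u' w')
    {F : F2 J} {a b : ℝ} (ha : 0 ≤ a) (hb : 0 ≤ b)
    (h1 : NN (fun p => Real.sqrt (mw p) • h p) w' w (Pc μ h u u' v v' F) ≤
      a * nn2 (Pc μ h u u' v v' F))
    (h2 : NN (fun p => Real.sqrt (mw p) • h p) v v' F ≤ b * nn2 F) :
    no (Pc μ h u u' v v' F) ≤ Real.sqrt (a * b) * no F := by
  set φ := Pc μ h u u' v v' F with hφ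
  refine no_le_of_dual (by have := no_nonneg F; positivity) ?_
  have e1 : ip2 φ φ = ∑ p, μ p * (- ip2 (Qd w' w (h p) φ) (Qd v v' (h p) F)) := by
    conv_lhs => rw [hφ]
    rw [← hφ]
    have e2 : ip2 φ (Pc μ h u u' v v' F) =
        ∑ p, μ p * (- ip2 (Qd w' w (h p) φ) (Qd v v' (h p) F)) := by
      rw [Pc_apply, ip2_sum_right]
      refine Finset.sum_congr rfl fun p _ => ?_
      rw [ip2_smul_right]
      congr 1
      rw [Qd_apply u u', Qd_apply w' w, ip2_sum_right, ip2_sum_left, ← Finset.sum_neg_distrib]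
      have e3 : ∀ i, ip2 φ (∑ j, h p i j • u i (u' j (Qd v v' (h p) F))) =
          ∑ j, h p i j * ip2 (w' j (w i φ)) (Qd v v' (h p) F) := by
        intro i
        rw [ip2_sum_right]
        refine Finset.sum_congr rfl fun j _ => ?_
        rw [ip2_smul_right, hu, hu']
      simp only [e3]
      rw [Finset.sum_comm]
      refine Finset.sum_congr rfl fun j _ => ?_
      rw [ip2_sum_left, ← Finset.sum_neg_distrib]
      refine Finset.sum_congr rfl fun i _ => ?_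
      rw [ip2_smul_left, W.fam.sk p i j]
      ring
    exact e2
  have e4 : |ip2 φ φ| ≤ ∑ p, Real.sqrt (mw p * nn2 (Qd w' w (h p) φ)) *
      Real.sqrt (mw p * nn2 (Qd v v' (h p) F)) := by
    rw [e1]
    refine (Finset.abs_sum_le_sum_abs _ _).trans (Finset.sum_le_sum fun p _ => ?_)
    have m0 := W.mw0 p
    rw [abs_mul, abs_neg, Real.sqrt_mul m0, Real.sqrt_mul m0]
    have c1 := cs_abs (Qd w' w (h p) φ) (Qd v v' (h p) F)
    have c2 : Real.sqrt (mw p) * Real.sqrt (nn2 (Qd w' w (h p) φ)) *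
        (Real.sqrt (mw p) * Real.sqrt (nn2 (Qd v v' (h p) F))) =
        mw p * (no (Qd w' w (h p) φ) * no (Qd v v' (h p) F)) := by
      have := Real.mul_self_sqrt m0
      unfold no
      linear_combination (Real.sqrt (nn2 (Qd w' w (h p) φ)) *
        Real.sqrt (nn2 (Qd v v' (h p) F))) * this
    rw [c2]
    exact mul_le_mul (W.dom p) c1 (abs_nonneg _) m0
  have e5 := Real.sum_sqrt_mul_sqrt_le (univ : Finset K)
    (f := fun p => mw p * nn2 (Qd w' w (h p) φ)) (g := fun p => mw p * nn2 (Qd v v' (h p) F))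
    (fun p => mul_nonneg (W.mw0 p) (nn2_nonneg _)) (fun p => mul_nonneg (W.mw0 p) (nn2_nonneg _))
  have e6 : ∑ p, mw p * nn2 (Qd w' w (h p) φ) ≤ a * nn2 φ := by
    refine le_trans (le_of_eq ?_) h1
    unfold NN
    exact Finset.sum_congr rfl fun p _ => (W.nnq w' w φ p).symm
  have e7 : ∑ p, mw p * nn2 (Qd v v' (h p) F) ≤ b * nn2 F := by
    refine le_trans (le_of_eq ?_) h2
    unfold NN
    exact Finset.sum_congr rfl fun p _ => (W.nnq v v' F p).symm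
  refine (e4.trans e5).trans ?_
  calc Real.sqrt (∑ p, mw p * nn2 (Qd w' w (h p) φ)) *
        Real.sqrt (∑ p, mw p * nn2 (Qd v v' (h p) F))
      ≤ Real.sqrt (a * nn2 φ) * Real.sqrt (b * nn2 F) :=
        mul_le_mul (Real.sqrt_le_sqrt e6) (Real.sqrt_le_sqrt e7) (Real.sqrt_nonneg _)
          (Real.sqrt_nonneg _)
    _ = Real.sqrt (a * b) * no F * no φ := by
        unfold no
        rw [Real.sqrt_mul ha, Real.sqrt_mul hb, Real.sqrt_mul ha]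
        ring

/-- the contractions, with the largest weight -/
theorem Wt.aaM (W : Wt h μ mw δ r M) {v v' : J → Module.End ℝ (F2 J)} {F : F2 J} {c : ℝ}
    (hc : ∑ i, ∑ j, nn2 (v i (v' j F)) ≤ c * nn2 F) :
    NN (fun p => Real.sqrt (mw p) • h p) v v' F ≤ 2 * M * c * nn2 F := by
  have h1 : NN (fun p => Real.sqrt (mw p) • h p) v v' F ≤ M * ∑ p, nn2 (Qd v v' (h p) F) := by
    unfold NN
    rw [Finset.mul_sum]
    refine Finset.sum_le_sum fun p _ => ?_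
    rw [W.nnq]
    exact mul_le_mul_of_nonneg_right (W.le p) (nn2_nonneg _)
  have h2 : ∑ p, nn2 (Qd v v' (h p) F) ≤ 2 * (c * nn2 F) := by
    simp only [Qd_apply]
    exact (sumsq_le W.fam _).trans (mul_le_mul_of_nonneg_left hc (by norm_num))
  have h3 := mul_le_mul_of_nonneg_left h2 W.M0
  linarith

variable {e : ℕ} {F : F2 J}

theorem Wt.b1 (W : Wt h μ mw δ r M) (hF : Le (e + 2) (e + 2) F) :
    no (Pc μ h an1 an1 an2 an2 F) ≤
      Real.sqrt ((2 * r * dm J) * (2 * M * (((e + 1 : ℕ) : ℝ) * ((e + 2 : ℕ) : ℝ)))) * no F := by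
  have := W.r0
  have := W.M0
  refine W.piece adj_an1 adj_an1 (mul_nonneg (by positivity) dm_nonneg) (by positivity)
    (NN_cc1 W.eis W.r0 _) (W.aaM ?_)
  exact dbl' (Nat.cast_nonneg _) (sum_an2 hF) fun i => sum_an2 (mp_an2 _ _ _ hF i)

theorem Wt.b2 (W : Wt h μ mw δ r M) (hF : Le (e + 2) (e + 2) F) :
    no (Pc μ h an2 cr1 an1 an1 F) ≤
      Real.sqrt ((2 * r * ((e + 1 : ℕ) : ℝ)) * (2 * r * ((e + 2 : ℕ) : ℝ))) * no F := by
  have := W.r0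
  have hφ : Le (e + 1) (e + 1) (Pc μ h an2 cr1 an1 an1 F) :=
    Le_Pc (mp_an1 _ _) (mp_an1 _ _) (mp_cr1 _ _) (mp_an2 _ _) μ h hF
  exact W.piece adj_an2 adj_cr1 (by positivity) (by positivity)
    (NN_ac12 W.eis W.r0 hφ) (NN_aa1 W.eis W.r0 hF)

theorem Wt.b3 (W : Wt h μ mw δ r M) (hF : Le (e + 2) (e + 2) F) :
    no (Pc μ h cr1 cr1 an1 an1 F) ≤
      Real.sqrt ((2 * r * ((e + 2 : ℕ) : ℝ)) * (2 * r * ((e + 2 : ℕ) : ℝ))) * no F := by
  have := W.r0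
  have hφ : Le (e + 2) (e + 2) (Pc μ h cr1 cr1 an1 an1 F) :=
    Le_Pc (mp_an1 _ _) (mp_an1 _ _) (mp_cr1 _ _) (mp_cr1 _ _) μ h hF
  exact W.piece adj_cr1 adj_cr1 (by positivity) (by positivity)
    (NN_aa1 W.eis W.r0 hφ) (NN_aa1 W.eis W.r0 hF)

theorem Wt.b4 (W : Wt h μ mw δ r M) (hF : Le (e + 2) (e + 2) F) :
    no (Pc μ h an1 cr2 an2 an2 F) ≤
      Real.sqrt ((2 * r * ((e + 1 : ℕ) : ℝ)) * (2 * r * ((e + 2 : ℕ) : ℝ))) * no F := by
  have := W.r0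
  have hφ : Le (e + 1) (e + 1) (Pc μ h an1 cr2 an2 an2 F) :=
    Le_Pc (mp_an2 _ _) (mp_an2 _ _) (mp_cr2 _ _) (mp_an1 _ _) μ h hF
  exact W.piece adj_an1 adj_cr2 (by positivity) (by positivity)
    (NN_ac21 W.eis W.r0 hφ) (NN_aa2 W.eis W.r0 hF)

theorem Wt.b5 (W : Wt h μ mw δ r M) (hF : Le (e + 2) (e + 2) F) :
    no (Pc μ h an1 cr2 an2 cr1 F) ≤
      Real.sqrt ((2 * r * ((e + 2 : ℕ) : ℝ)) * (2 * r * ((e + 2 : ℕ) : ℝ))) * no F := by
  have := W.r0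
  have hφ : Le (e + 2) (e + 2) (Pc μ h an1 cr2 an2 cr1 F) :=
    Le_Pc (mp_cr1 _ _) (mp_an2 _ _) (mp_cr2 _ _) (mp_an1 _ _) μ h hF
  exact W.piece adj_an1 adj_cr2 (by positivity) (by positivity)
    (NN_ac21 W.eis W.r0 hφ) (NN_ac21 W.eis W.r0 hF)

theorem Wt.b6 (W : Wt h μ mw δ r M) (hF : Le (e + 2) (e + 2) F) :
    no (Pc μ h cr1 cr1 an1 cr2 F) ≤
      Real.sqrt ((2 * r * ((e + 3 : ℕ) : ℝ)) * (2 * r * ((e + 2 : ℕ) : ℝ))) * no F := by
  have := W.r0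
  have hφ : Le (e + 3) (e + 3) (Pc μ h cr1 cr1 an1 cr2 F) :=
    Le_Pc (mp_cr2 _ _) (mp_an1 _ _) (mp_cr1 _ _) (mp_cr1 _ _) μ h hF
  exact W.piece adj_cr1 adj_cr1 (by positivity) (by positivity)
    (NN_aa1 W.eis W.r0 hφ) (NN_ac12 W.eis W.r0 hF)

theorem Wt.b7 (W : Wt h μ mw δ r M) (hF : Le (e + 2) (e + 2) F) :
    no (Pc μ h cr2 cr2 an2 an2 F) ≤
      Real.sqrt ((2 * r * ((e + 2 : ℕ) : ℝ)) * (2 * r * ((e + 2 : ℕ) : ℝ))) * no F := by
  have := W.r0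
  have hφ : Le (e + 2) (e + 2) (Pc μ h cr2 cr2 an2 an2 F) :=
    Le_Pc (mp_an2 _ _) (mp_an2 _ _) (mp_cr2 _ _) (mp_cr2 _ _) μ h hF
  exact W.piece adj_cr2 adj_cr2 (by positivity) (by positivity)
    (NN_aa2 W.eis W.r0 hφ) (NN_aa2 W.eis W.r0 hF)

theorem Wt.b8 (W : Wt h μ mw δ r M) (hF : Le (e + 2) (e + 2) F) :
    no (Pc μ h cr2 cr2 an2 cr1 F) ≤
      Real.sqrt ((2 * r * ((e + 3 : ℕ) : ℝ)) * (2 * r * ((e + 2 : ℕ) : ℝ))) * no F := by
  have := W.r0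
  have hφ : Le (e + 3) (e + 3) (Pc μ h cr2 cr2 an2 cr1 F) :=
    Le_Pc (mp_cr1 _ _) (mp_an2 _ _) (mp_cr2 _ _) (mp_cr2 _ _) μ h hF
  exact W.piece adj_cr2 adj_cr2 (by positivity) (by positivity)
    (NN_aa2 W.eis W.r0 hφ) (NN_ac21 W.eis W.r0 hF)

theorem Wt.b9 (W : Wt h μ mw δ r M) (hF : Le (e + 2) (e + 2) F) :
    no (Pc μ h cr2 cr2 cr1 cr1 F) ≤
      Real.sqrt ((2 * M * (((e + 3 : ℕ) : ℝ) * ((e + 4 : ℕ) : ℝ))) * (2 * r * dm J)) * no F := by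
  have := W.r0
  have := W.M0
  have hφ : Le (e + 4) (e + 4) (Pc μ h cr2 cr2 cr1 cr1 F) :=
    Le_Pc (mp_cr1 _ _) (mp_cr1 _ _) (mp_cr2 _ _) (mp_cr2 _ _) μ h hF
  refine W.piece adj_cr2 adj_cr2 (by positivity) (mul_nonneg (by positivity) dm_nonneg)
    (W.aaM ?_) (NN_cc1 W.eis W.r0 _)
  exact dbl' (Nat.cast_nonneg _) (sum_an2 hφ) fun i => sum_an2 (mp_an2 _ _ _ hφ i)

theorem w1 {n e r M G : ℝ} (hn0 : 0 ≤ n) (hE : 0 ≤ e) (hG : 0 ≤ G)
    (hG2 : r * M ≤ n * G ^ 2) :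
    Real.sqrt ((2 * r * n) * (2 * M * ((e + 1) * (e + 2)))) ≤ 2 * n * G * (e + 3 / 2) := by
  rw [Real.sqrt_le_left (by positivity)]
  have h1 : (e + 1) * (e + 2) ≤ (e + 3 / 2) ^ 2 := by nlinarith
  have h2 := mul_le_mul hG2 h1 (by positivity) (by positivity)
  have h3 := mul_le_mul_of_nonneg_left h2 (by positivity : 0 ≤ 4 * n)
  linarith

theorem w9 {n e r M G : ℝ} (hn0 : 0 ≤ n) (hE : 0 ≤ e) (hG : 0 ≤ G)
    (hG2 : r * M ≤ n * G ^ 2) :
    Real.sqrt ((2 * M * ((e + 3) * (e + 4))) * (2 * r * n)) ≤ 2 * n * G * (e + 7 / 2) := by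
  rw [Real.sqrt_le_left (by positivity)]
  have h1 : (e + 3) * (e + 4) ≤ (e + 7 / 2) ^ 2 := by nlinarith
  have h2 := mul_le_mul hG2 h1 (by positivity) (by positivity)
  have h3 := mul_le_mul_of_nonneg_left h2 (by positivity : 0 ≤ 4 * n)
  linarith

theorem w2 {e r : ℝ} (hE : 0 ≤ e) (hr : 0 ≤ r) :
    Real.sqrt ((2 * r * (e + 1)) * (2 * r * (e + 2))) ≤ 2 * r * (e + 3 / 2) := by
  rw [Real.sqrt_le_left (by positivity)]
  have h1 : (e + 1) * (e + 2) ≤ (e + 3 / 2) ^ 2 := by nlinarith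
  have h3 := mul_le_mul_of_nonneg_left h1 (by positivity : 0 ≤ 4 * (r * r))
  linarith

theorem w6 {e r : ℝ} (hE : 0 ≤ e) (hr : 0 ≤ r) :
    Real.sqrt ((2 * r * (e + 3)) * (2 * r * (e + 2))) ≤ 2 * r * (e + 5 / 2) := by
  rw [Real.sqrt_le_left (by positivity)]
  have h1 : (e + 3) * (e + 2) ≤ (e + 5 / 2) ^ 2 := by nlinarith
  have h3 := mul_le_mul_of_nonneg_left h1 (by positivity : 0 ≤ 4 * (r * r))
  linarith

theorem w3 {e r : ℝ} (hE : 0 ≤ e) (hr : 0 ≤ r) :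
    Real.sqrt ((2 * r * (e + 2)) * (2 * r * (e + 2))) = 2 * r * (e + 2) :=
  Real.sqrt_mul_self (by positivity)

/-- the sum of the bounds -/
theorem Wt.Xo_le (W : Wt h μ mw δ r M) (hF : Le (e + 2) (e + 2) F) {G H d : ℝ} (hG : 0 ≤ G)
    (hG2 : r * M ≤ dm J * G ^ 2) (hH : r ≤ dm J * H) (hd : 5 * G + 28 * H ≤ 51 / 2 * d) :
    no (Xo μ h F) ≤ 51 / 2 * (e + 2) * dm J * d * no F := by
  have b1 := W.b1 hF
  have b2 := W.b2 hF
  have b3 := W.b3 hF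
  have b4 := W.b4 hF
  have b5 := W.b5 hF
  have b6 := W.b6 hF
  have b7 := W.b7 hF
  have b8 := W.b8 hF
  have b9 := W.b9 hF
  push_cast at b1 b2 b3 b4 b5 b6 b7 b8 b9
  have tri := Xo_tri W.fam F
  have hE : (0 : ℝ) ≤ e := Nat.cast_nonneg e
  have hn0 : 0 ≤ dm J := dm_nonneg
  have hno := no_nonneg F
  have hr := W.r0
  rw [w3 hE hr] at b3 b5 b7
  have c1 := b1.trans (mul_le_mul_of_nonneg_right (w1 hn0 hE hG hG2) hno)
  have c2 := b2.trans (mul_le_mul_of_nonneg_right (w2 hE hr) hno)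
  have c4 := b4.trans (mul_le_mul_of_nonneg_right (w2 hE hr) hno)
  have c6 := b6.trans (mul_le_mul_of_nonneg_right (w6 hE hr) hno)
  have c8 := b8.trans (mul_le_mul_of_nonneg_right (w6 hE hr) hno)
  have c9 := b9.trans (mul_le_mul_of_nonneg_right (w9 hn0 hE hG hG2) hno)
  have h1 : no (Xo μ h F) ≤ (2 * dm J * G * (2 * e + 5) + 28 * r * (e + 2)) * no F := by
    refine tri.trans ?_
    linarith
  refine h1.trans (mul_le_mul_of_nonneg_right ?_ hno)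
  have h2 : 28 * r * ((e : ℝ) + 2) ≤ 28 * (dm J * H) * (e + 2) :=
    mul_le_mul_of_nonneg_right (mul_le_mul_of_nonneg_left hH (by norm_num)) (by positivity)
  have h3 : 2 * dm J * G * (2 * (e : ℝ) + 5) ≤ 2 * dm J * G * (5 / 2 * (e + 2)) :=
    mul_le_mul_of_nonneg_left (by linarith) (by positivity)
  have h4 := mul_le_mul_of_nonneg_left hd (by positivity : 0 ≤ ((e : ℝ) + 2) * dm J)
  linarith

end

end Pool.Agent.H31EP
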